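import Pool.Agent.Lib.MP_27cd7e_an.Basic

set_option autoImplicit false

namespace Pool.Agent.Lib.MP_27cd7e_an

open Metric Set Complex Filter Topology

/-- `f` is holomorphic on the open set `W`, maps into the complement of `S` lift through `f`, and
every point over the complement of `S` has a second point in its fibre -/
structure FT (W : Set ℂ) (f : ℂ → ℂ) (S : Set ℂ) : Prop where
  opn : IsOpen W
  diff : DifferentiableOn ℂ f W
  fin : S.Finite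
  lift : ∀ B : Set ℂ, Convex ℝ B → IsOpen B → ∀ σ : ℂ → ℂ, ContinuousOn σ B → (∀ b ∈ B, σ b ∉ S) →
    ∀ b₀ ∈ B, ∀ y ∈ W, f y = σ b₀ →
      ∃ F : ℂ → ℂ, ContinuousOn F B ∧ F b₀ = y ∧ ∀ b ∈ B, F b ∈ W ∧ f (F b) = σ b
  mate : ∀ y ∈ W, f y ∉ S → ∃ y' ∈ W, y' ≠ y ∧ f y' = f y

lemma FT.of_cov {W : Set ℂ} {f : ℂ → ℂ} {S : Set ℂ} (hW : IsOpen W) (hf : DifferentiableOn ℂ f W)
    (hS : S.Finite) (hcov : IsCoveringMapOn (fun z : W => f z) Sᶜ)
    (hdeg : ∃ z₁ ∈ W, ∃ z₂ ∈ W, z₁ ≠ z₂ ∧ f z₁ = f z₂ ∧ f z₁ ∉ S) : FT W f S := by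
  refine ⟨hW, hf, hS, fun B hB hBo σ hσ hσS b₀ hb₀ y hy he => ?_, fun y hy hyS => ?_⟩
  · have : ContractibleSpace B := hB.contractibleSpace ⟨b₀, hb₀⟩
    have : LocallyPathConnectedSpace B := hBo.locallyPathConnectedSpace
    obtain ⟨F, ⟨f1, f2⟩, -⟩ := hcov.existsUnique_continuousMap_lifts
      (⟨fun a : B => σ a, continuousOn_iff_continuous_domRestrict.1 hσ⟩ : C(B, ℂ))
      (e₀ := ⟨y, hy⟩) (a₀ := ⟨b₀, hb₀⟩) he (fun a => hσS a a.2)
    classical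
    obtain ⟨τ, hτ⟩ : ∃ τ : ℂ → ℂ, ∀ a : B, τ a = (F a).1 :=
      ⟨fun z => if hz : z ∈ B then (F ⟨z, hz⟩).1 else 0, fun a => dif_pos a.2⟩
    refine ⟨τ, ?_, by rw [hτ ⟨b₀, hb₀⟩, f1], fun b hb => ?_⟩
    · rw [continuousOn_iff_continuous_domRestrict]
      exact (continuous_subtype_val.comp F.continuous).congr fun a => (hτ a).symm
    · rw [hτ ⟨b, hb⟩]
      exact ⟨(F ⟨b, hb⟩).2, congrFun f2 ⟨b, hb⟩⟩
  · obtain ⟨z₁, h1, z₂, h2, hne, he, hS1⟩ := hdeg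
    have hp : IsPathConnected Sᶜ :=
      hS.countable.isPathConnected_compl_of_one_lt_rank (by simp)
    obtain ⟨γ⟩ := (hp.joinedIn (f z₁) hS1 (f y) hyS).joined_subtype
    have cov := hcov.isCoveringMap_restrictPreimage
    have hinj := (cov.monodromy_bijective (Path.Homotopic.Quotient.mk γ)).1
    set e₁ := cov.monodromy (Path.Homotopic.Quotient.mk γ) ⟨⟨⟨z₁, h1⟩, hS1⟩, rfl⟩ with he₁
    set e₂ := cov.monodromy (Path.Homotopic.Quotient.mk γ)
      ⟨⟨⟨z₂, h2⟩, by simpa [← he] using hS1⟩, Subtype.ext he.symm⟩ with he₂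
    have h3 : e₁.1.1.1 ≠ e₂.1.1.1 := by
      intro h
      have h4 := hinj (a₁ := ⟨⟨⟨z₁, h1⟩, hS1⟩, rfl⟩)
        (a₂ := ⟨⟨⟨z₂, h2⟩, by simpa [← he] using hS1⟩, Subtype.ext he.symm⟩)
        (Subtype.ext (Subtype.ext (Subtype.ext h)))
      exact hne (congrArg (fun e => e.1.1.1) h4)
    have k₁ : f e₁.1.1.1 = f y := congrArg Subtype.val e₁.2
    have k₂ : f e₂.1.1.1 = f y := congrArg Subtype.val e₂.2
    by_cases h : e₁.1.1.1 = y
    · exact ⟨_, e₂.1.1.2, fun h' => h3 (h.trans h'.symm), k₂⟩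
    · exact ⟨_, e₁.1.1.2, h, k₁⟩

lemma FT.comp {W V : Set ℂ} {f g : ℂ → ℂ} {S T : Set ℂ} (hf : FT W f S) (hg : FT V g T) :
    FT (W ∩ f ⁻¹' V) (g ∘ f) (T ∪ g '' S) := by
  refine ⟨hf.diff.continuousOn.isOpen_inter_preimage hf.opn hg.opn,
    hg.diff.comp (hf.diff.mono inter_subset_left) fun z hz => hz.2, hg.fin.union (hf.fin.image g),
    fun B hB hBo σ hσ hσS b₀ hb₀ y hy he => ?_, fun y hy hyS => ?_⟩
  · obtain ⟨F, c1, c2, c3⟩ := hg.lift B hB hBo σ hσ (fun b hb h => hσS b hb (Or.inl h)) b₀ hb₀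
      (f y) hy.2 he
    obtain ⟨G, d1, d2, d3⟩ := hf.lift B hB hBo F c1
      (fun b hb h => hσS b hb (Or.inr ⟨_, h, (c3 b hb).2⟩)) b₀ hb₀ y hy.1 c2.symm
    refine ⟨G, d1, d2, fun b hb => ⟨⟨(d3 b hb).1, ?_⟩, ?_⟩⟩
    · rw [mem_preimage, (d3 b hb).2]
      exact (c3 b hb).1
    · rw [Function.comp_apply, (d3 b hb).2, (c3 b hb).2]
  · obtain ⟨y', h1, h2, h3⟩ := hf.mate y hy.1 fun h => hyS (Or.inr ⟨_, h, rfl⟩)
    refine ⟨y', ⟨h1, ?_⟩, h2, by simp [h3]⟩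
    rw [mem_preimage, h3]
    exact hy.2

lemma FT.iterate {W : Set ℂ} {f : ℂ → ℂ} {S : Set ℂ} (hf : FT W f S) (n : ℕ) :
    ∃ V T : Set ℂ, FT V (f^[n + 1]) T ∧ ∀ z, z ∈ V ↔ ∀ i ≤ n, f^[i] z ∈ W := by
  induction n with
  | zero => exact ⟨W, S, hf, fun z => by simp⟩
  | succ n ih =>
    obtain ⟨V, T, h1, h2⟩ := ih
    refine ⟨_, _, hf.comp h1, fun z => ⟨fun h i hi => ?_, fun h => ⟨h 0 (Nat.zero_le _), ?_⟩⟩⟩
    · cases i with
      | zero => exact h.1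
      | succ i => exact (h2 _).1 h.2 i (by omega)
    · exact (h2 _).2 fun i hi => h (i + 1) (by omega)

lemma FT.shift {W : Set ℂ} {f : ℂ → ℂ} {S : Set ℂ} (hf : FT W f S) (c : ℂ) :
    FT {z | z + c ∈ W} (fun z => f (z + c) - c) {z | z + c ∈ S} := by
  refine ⟨hf.opn.preimage (continuous_add_const c),
    (hf.diff.comp (f := fun z => z + c) (by fun_prop) fun z hz => hz).sub_const c,
    hf.fin.preimage (add_left_injective c).injOn,
    fun B hB hBo σ hσ hσS b₀ hb₀ y hy he => ?_, fun y hy hyS => ?_⟩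
  · obtain ⟨F, c1, c2, c3⟩ := hf.lift B hB hBo (fun b => σ b + c) (hσ.add continuousOn_const) hσS
      b₀ hb₀ (y + c) hy (sub_eq_iff_eq_add.1 he)
    refine ⟨fun b => F b - c, c1.sub continuousOn_const, by simp [c2], fun b hb => ?_⟩
    simpa using ⟨(c3 b hb).1, by rw [(c3 b hb).2]; ring⟩
  · obtain ⟨y', h1, h2, h3⟩ := hf.mate (y + c) hy (by simpa using hyS)
    exact ⟨y' - c, by simpa using h1, fun h => h2 (sub_eq_iff_eq_add.1 h), by simp [h3]⟩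

lemma FT.crit {W : Set ℂ} {f : ℂ → ℂ} {S : Set ℂ} (hf : FT W f S) {y : ℂ} (hy : y ∈ W)
    (hS : f y ∉ S) : deriv f y ≠ 0 := by
  intro h0
  obtain ⟨r, hr, hsub⟩ := Metric.mem_nhds_iff.1 (hf.fin.isClosed.isOpen_compl.mem_nhds hS)
  obtain ⟨F, c1, c2, c3⟩ := hf.lift _ (convex_ball (f y) r) isOpen_ball id continuousOn_id hsub
    (f y) (mem_ball_self hr) y hy rfl
  have hb := ball_mem_nhds (f y) hr
  have hFc : ContinuousAt F (f y) := c1.continuousAt hb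
  have hFt : Tendsto F (𝓝 (f y)) (𝓝 y) := by simpa [c2] using hFc.tendsto
  have ha : AnalyticAt ℂ f y := hf.diff.analyticAt (hf.opn.mem_nhds hy)
  have hid : ∀ᶠ b in 𝓝 (f y), f (F b) = b := by
    filter_upwards [hb] with b hb using (c3 b hb).2
  rcases ha.deriv.eventually_eq_zero_or_eventually_ne_zero with h | h
  · obtain ⟨ρ, hρ, hloc⟩ := Metric.mem_nhds_iff.1 (h.and (hf.opn.mem_nhds hy))
    have h1 : ∀ᶠ b in 𝓝 (f y), b = f y := by
      filter_upwards [hid, hFt.eventually (ball_mem_nhds y hρ)] with b e1 e2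
      have := mvt (C := 0) (hf.diff.mono fun z hz => (hloc hz).2)
        (fun w hw => by rw [(hloc hw).1, norm_zero]) e2 (mem_ball_self hρ)
      rw [zero_mul, norm_le_zero_iff, sub_eq_zero, e1] at this
      exact this
    obtain ⟨b, h2, h3⟩ := ((h1.filter_mono (nhdsWithin_le_nhds (s := {f y}ᶜ))).and
      self_mem_nhdsWithin).exists
    exact h3 h2
  · rw [eventually_nhdsWithin_iff] at h
    have h1 : AnalyticAt ℂ F (f y) := by
      refine Complex.analyticAt_of_differentiable_on_punctured_nhds_of_continuousAt ?_ hFc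
      rw [eventually_nhdsWithin_iff]
      filter_upwards [hb, hFt.eventually h] with b e1 e2 e3
      have e4 : F b ≠ y := fun e => e3 (by rw [mem_singleton_iff, ← e]; exact (c3 b e1).2.symm)
      refine (HasDerivAt.of_local_left_inverse (c1.continuousAt (isOpen_ball.mem_nhds e1))
        (hf.diff.differentiableAt (hf.opn.mem_nhds (c3 b e1).1)).hasDerivAt (e2 e4)
        ?_).differentiableAt
      filter_upwards [isOpen_ball.mem_nhds e1] with w hw using (c3 w hw).2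
    have h2 := HasDerivAt.comp_of_eq (f y) ha.differentiableAt.hasDerivAt
      h1.differentiableAt.hasDerivAt c2.symm
    have h3 := (h2.congr_of_eventuallyEq (f₁ := id) (hid.mono fun b hb => hb.symm)).unique
      (hasDerivAt_id _)
    simp [h0] at h3

/-- no contracted disc without a singular value in its basin -/
lemma fatou_lift {g : ℂ → ℂ} {Ω A : Set ℂ} {x : ℂ} {s : ℝ} (hΩ : IsOpen Ω)
    (hg : DifferentiableOn ℂ g Ω) (hs : 0 < s) (hAΩ : A ⊆ Ω) (hball : ball x s ⊆ A)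
    (hfwd : ∀ z ∈ A, g z ∈ A) (hfar : ∀ z ∈ A, s ≤ ‖z‖) (hno : ∀ z ∈ A, deriv g z ≠ 0)
    (hlift : ∀ c : ℂ, ∀ r : ℝ, 0 < r → ∀ σ : ℂ → ℂ, ContinuousOn σ (ball c r) →
      (∀ b ∈ ball c r, σ b ∈ A) → ∀ y ∈ A, g y = σ c →
      ∃ F : ℂ → ℂ, ContinuousOn F (ball c r) ∧ F c = y ∧ ∀ b ∈ ball c r, F b ∈ A ∧ g (F b) = σ b)
    (hsmall : ∀ B : ℝ, 0 < B → ∃ n, g^[n] x ∈ closedBall x (s / 2) ∧ ‖deriv (g^[n]) x‖ * B < 1) :
    False := by
  have hga : ∀ z ∈ Ω, DifferentiableAt ℂ g z := fun z hz => hg.differentiableAt (hΩ.mem_nhds hz)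
  have hder : ∀ n, ∀ z ∈ A, DifferentiableAt ℂ (g^[n]) z ∧ deriv (g^[n]) z ≠ 0 := by
    intro n
    induction n with
    | zero => exact fun z _ => ⟨differentiableAt_id, by simp⟩
    | succ n ih =>
      intro z hz
      obtain ⟨h1, h2⟩ := ih _ (hfwd z hz)
      have h3 := h1.hasDerivAt.comp z (hga z (hAΩ hz)).hasDerivAt
      rw [Function.iterate_succ]
      exact ⟨h3.differentiableAt, by rw [h3.deriv]; exact mul_ne_zero h2 (hno z hz)⟩
  have hxA := hball (mem_ball_self hs)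
  have hx0 : 0 < ‖x‖ := hs.trans_le (hfar x hxA)
  obtain ⟨n, hn1, hn2⟩ := hsmall (2 * s⁻¹ / (s / 2) * ‖x‖ ^ 2) (by positivity)
  set ξ := g^[n] x with hξ
  have hsub : ball ξ (s / 2) ⊆ A := by
    refine Subset.trans (ball_subset_ball' ?_) hball
    rw [mem_closedBall] at hn1
    linarith
  have hξm : ξ ∈ ball ξ (s / 2) := mem_ball_self (half_pos hs)
  have lift : ∀ m, ∀ y ∈ A, g^[m] y = ξ → ∃ σ : ℂ → ℂ, ContinuousOn σ (ball ξ (s / 2)) ∧
      σ ξ = y ∧ ∀ a ∈ ball ξ (s / 2), σ a ∈ A ∧ g^[m] (σ a) = a := by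
    intro m
    induction m with
    | zero => exact fun y _ hy => ⟨id, continuousOn_id, hy.symm, fun a ha => ⟨hsub ha, rfl⟩⟩
    | succ m ih =>
      intro y hy hy'
      obtain ⟨σ, h1, h2, h3⟩ := ih (g y) (hfwd y hy) hy'
      obtain ⟨F, f1, f2, f3⟩ := hlift ξ _ (half_pos hs) σ h1 (fun b hb => (h3 b hb).1) y hy h2.symm
      refine ⟨F, f1, f2, fun a ha => ⟨(f3 a ha).1, ?_⟩⟩
      rw [Function.iterate_succ_apply, (f3 a ha).2, (h3 a ha).2]
  obtain ⟨τ, hτc, h5, h3⟩ := lift n x hxA rfl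
  have hτd : ∀ w ∈ ball ξ (s / 2), HasDerivAt τ (deriv (g^[n]) (τ w))⁻¹ w := by
    intro w hw
    refine HasDerivAt.of_local_left_inverse (hτc.continuousAt (isOpen_ball.mem_nhds hw))
      (hder n _ (h3 w hw).1).1.hasDerivAt (hder n _ (h3 w hw).1).2 ?_
    filter_upwards [isOpen_ball.mem_nhds hw] with y hy using (h3 y hy).2
  have hτ0 : ∀ w ∈ ball ξ (s / 2), τ w ≠ 0 := fun w hw =>
    norm_pos_iff.1 (hs.trans_le (hfar _ (h3 w hw).1))
  have h4 := deriv_bound (F := fun w => (τ w)⁻¹) (c := ξ) (z := ξ) (R := s / 2) (M := s⁻¹)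
    (s := s / 2)
    (fun w hw => ((hτd w hw).fun_inv (hτ0 w hw)).differentiableAt.differentiableWithinAt)
    (fun w hw => by rw [norm_inv]; exact inv_anti₀ hs (hfar _ (h3 w hw).1)) (half_pos hs) (by simp)
  rw [((hτd ξ hξm).fun_inv (hτ0 ξ hξm)).deriv, h5, norm_div, norm_neg, norm_inv, norm_pow,
    div_le_iff₀ (by positivity)] at h4
  have h6 : 0 < ‖deriv (g^[n]) x‖ := norm_pos_iff.2 (hder n x hxA).2
  rw [inv_le_iff_one_le_mul₀' h6] at h4
  linarith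

end Pool.Agent.Lib.MP_27cd7e_an
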