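import Pool.Agent.Lib.MP_27cd7e_an.Core
import Pool.Agent.Lib.MP_27cd7e_an.FtBasic

set_option autoImplicit false

namespace Pool.Agent.Lib.MP_27cd7e_an

open Metric Set Complex Filter Topology

lemma hermite2 (O : Finset ℂ) {σ : ℝ} {ν : ℕ} {Ω : Set ℂ} (c : ℂ → ℂ → ℂ)
    (hc : ∀ y, ∀ z ∈ Ω, DifferentiableAt ℂ (c y) z) (hc1 : ∀ y ∈ O, c y y = 1)
    (hO : ∀ y ∈ O, y ∈ Ω) (hσ : 0 < σ) (hσ1 : σ ≤ 1)
    (hsep : ∀ y ∈ O, ∀ y' ∈ O, y ≠ y' → σ ≤ ‖y - y'‖) (hν : O.card ≤ ν) (hν1 : 1 ≤ ν) :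
    ∃ Q : ℂ → ℂ, (∀ z ∈ Ω, DifferentiableAt ℂ Q z) ∧ (∀ y ∈ O, Q y = 0 ∧ deriv Q y = -1) ∧
      ∀ S : ℝ, 1 ≤ S → ∀ z : ℂ, (∀ y ∈ O, ∀ y' ∈ O, ‖c y z * (z - y')‖ ≤ 2 * S) →
        ‖Q z‖ ≤ (2 * S / σ) ^ (4 * ν) := by
  classical
  set l : ℂ → ℂ → ℂ := fun y z => ∏ y' ∈ O.erase y, c y z * (z - y') / (y - y') with hl
  have hld : ∀ y, ∀ z ∈ Ω, DifferentiableAt ℂ (l y) z := by
    intro y z hz
    have := hc y z hz
    simp only [hl]
    fun_prop
  have hl1 : ∀ y ∈ O, l y y = 1 := by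
    intro y hy
    refine Finset.prod_eq_one fun y' hy' => ?_
    rw [hc1 y hy, one_mul]
    exact div_self (sub_ne_zero.2 (Finset.ne_of_mem_erase hy').symm)
  have hl0 : ∀ y, ∀ y' ∈ O, y ≠ y' → l y y' = 0 := by
    intro y y' hy' hne
    exact Finset.prod_eq_zero (Finset.mem_erase.2 ⟨hne.symm, hy'⟩) (by simp)
  have hd : ∀ z ∈ Ω, HasDerivAt (fun z => -∑ y ∈ O, c y z * (z - y) * (l y z * l y z))
      (-∑ y ∈ O, ((deriv (c y) z * (z - y) + c y z * 1) * (l y z * l y z) +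
        c y z * (z - y) * (deriv (l y) z * l y z + l y z * deriv (l y) z))) z := fun z hz =>
    (HasDerivAt.fun_sum fun y _ =>
      ((hc y z hz).hasDerivAt.fun_mul ((hasDerivAt_id' z).sub_const y)).fun_mul
      ((hld y z hz).hasDerivAt.fun_mul (hld y z hz).hasDerivAt)).fun_neg
  refine ⟨fun z => -∑ y ∈ O, c y z * (z - y) * (l y z * l y z),
    fun z hz => (hd z hz).differentiableAt, fun y' hy' => ⟨?_, ?_⟩, fun S hS z h1 => ?_⟩
  · simp only [neg_eq_zero]
    refine Finset.sum_eq_zero fun y _ => ?_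
    by_cases h : y = y'
    · simp [h]
    · simp [hl0 y y' hy' h]
  · rw [(hd y' (hO y' hy')).deriv, Finset.sum_eq_single y']
    · simp [hl1 y' hy', hc1 y' hy']
    · intro y _ h
      simp [hl0 y y' hy' h]
    · intro h; exact absurd hy' h
  · have hB : 2 ≤ 2 * S / σ := by rw [le_div_iff₀ hσ]; nlinarith
    have hB' : 2 * S ≤ 2 * S / σ := by rw [le_div_iff₀ hσ]; nlinarith
    have h2 : ∀ y ∈ O, ‖l y z‖ ≤ (2 * S / σ) ^ ν := by
      intro y hy
      simp only [hl, norm_prod]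
      calc _ ≤ ∏ _y' ∈ O.erase y, (2 * S / σ) := by
            refine Finset.prod_le_prod (fun _ _ => norm_nonneg _) fun y' hy' => ?_
            rw [norm_div]
            exact div_le_div₀ (by linarith) (h1 y hy y' (Finset.mem_of_mem_erase hy')) hσ
              (hsep y hy y' (Finset.mem_of_mem_erase hy') (Finset.ne_of_mem_erase hy').symm)
        _ = (2 * S / σ) ^ (O.erase y).card := Finset.prod_const _
        _ ≤ _ := pow_le_pow_right₀ (by linarith) (Finset.card_erase_le.trans hν)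
    have h3 : (O.card : ℝ) ≤ (2 * S / σ) ^ ν := by
      calc (O.card : ℝ) ≤ ν := by exact_mod_cast hν
        _ ≤ 2 ^ ν := by exact_mod_cast (Nat.lt_two_pow_self).le
        _ ≤ _ := pow_le_pow_left₀ (by norm_num) hB ν
    have h4 : 2 * S ≤ (2 * S / σ) ^ ν :=
      hB'.trans (le_self_pow₀ (by linarith) (by omega))
    have h5 : (0 : ℝ) ≤ (2 * S / σ) ^ ν := by positivity
    simp only [norm_neg]
    calc _ ≤ ∑ y ∈ O, ‖c y z * (z - y) * (l y z * l y z)‖ := norm_sum_le _ _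
      _ ≤ ∑ _y ∈ O, (2 * S / σ) ^ ν * ((2 * S / σ) ^ ν * (2 * S / σ) ^ ν) := by
          refine Finset.sum_le_sum fun y hy => ?_
          rw [norm_mul, norm_mul (l y z)]
          exact mul_le_mul ((h1 y hy y hy).trans h4)
            (mul_le_mul (h2 y hy) (h2 y hy) (norm_nonneg _) h5) (by positivity) h5
      _ = O.card * ((2 * S / σ) ^ ν * ((2 * S / σ) ^ ν * (2 * S / σ) ^ ν)) := by simp
      _ ≤ (2 * S / σ) ^ ν * ((2 * S / σ) ^ ν * ((2 * S / σ) ^ ν * (2 * S / σ) ^ ν)) :=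
          mul_le_mul_of_nonneg_right h3 (by positivity)
      _ = _ := by ring

/-- a map close to the identity outside a disc has a continuous inverse there -/
lemma outer_inverse {E : ℂ → ℂ} {a : ℂ} {δ : ℝ} (hδ : 0 < δ)
    (hE : ∀ z, z ≠ a → DifferentiableAt ℂ E z) (hb : ∀ z, δ ≤ ‖z - a‖ → ‖E z‖ ≤ δ / 4) :
    (∀ z, 2 * δ ≤ ‖z - a‖ → ‖deriv E z‖ ≤ 1 / 2) ∧
    ∃ J : ℂ → ℂ, ContinuousOn J {w | 4 * δ ≤ ‖w - a‖} ∧
      (∀ w, 4 * δ ≤ ‖w - a‖ → 3 * δ < ‖J w - a‖ ∧ J w + E (J w) = w) ∧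
      ∀ y, δ ≤ ‖y - a‖ → 4 * δ ≤ ‖y + E y - a‖ → J (y + E y) = y := by
  have hfar : ∀ {c : ℂ} {r u : ℝ}, u + r ≤ ‖c - a‖ → ∀ w ∈ ball c r, u < ‖w - a‖ := by
    intro c r u h w hw
    rw [mem_ball', dist_eq_norm] at hw
    have := norm_add_le (c - w) (w - a)
    rw [sub_add_sub_cancel] at this
    linarith
  have hne : ∀ {w : ℂ} {u : ℝ}, 0 ≤ u → u < ‖w - a‖ → w ≠ a := fun hu h =>
    sub_ne_zero.1 (norm_pos_iff.1 (hu.trans_lt h))
  have hd : ∀ z, 2 * δ ≤ ‖z - a‖ → ‖deriv E z‖ ≤ 1 / 2 := by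
    intro z hz
    have h1 := hfar (c := z) (r := δ) (u := δ) (by linarith)
    refine (deriv_bound (c := z) (z := z) (R := δ) (s := δ) (M := δ / 4)
      (fun w hw => (hE w (hne hδ.le (h1 w hw))).differentiableWithinAt)
      (fun w hw => hb w (h1 w hw).le) hδ (by simp)).trans (le_of_eq ?_)
    field_simp
    norm_num
  have hl : ∀ w, 4 * δ ≤ ‖w - a‖ → ∀ p ∈ ball w (2 * δ), ∀ p' ∈ ball w (2 * δ),
      ‖E p - E p'‖ ≤ 1 / 2 * ‖p - p'‖ := by
    intro w hw p hp p' hp'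
    have h1 := hfar (c := w) (r := 2 * δ) (u := 2 * δ) (by linarith)
    exact mvt (fun z hz => (hE z (hne (by linarith) (h1 z hz))).differentiableWithinAt)
      (fun z hz => hd z (h1 z hz).le) hp hp'
  have hl' : ∀ w, 4 * δ ≤ ‖w - a‖ → ∀ p ∈ ball w (2 * δ), ∀ p' ∈ ball w (2 * δ),
      ‖p - p'‖ ≤ 2 * ‖p + E p - (p' + E p')‖ := by
    intro w hw p hp p' hp'
    have h1 := norm_sub_le (p + E p - (p' + E p')) (E p - E p')
    rw [show p + E p - (p' + E p') - (E p - E p') = p - p' by ring] at h1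
    linarith [hl w hw p hp p' hp']
  have hex : ∀ w : ℂ, ∃ z : ℂ, 4 * δ ≤ ‖w - a‖ → ‖z - w‖ ≤ δ / 2 ∧ z + E z = w := by
    intro w
    by_cases hw : 4 * δ ≤ ‖w - a‖
    swap
    · exact ⟨0, fun h => absurd h hw⟩
    have happ : ApproximatesLinearOn (fun z => z + E z)
        ((ContinuousLinearEquiv.refl ℂ ℂ : ℂ ≃L[ℂ] ℂ) : ℂ →L[ℂ] ℂ) (ball w (2 * δ))
        (1 / 2 : NNReal) := by
      intro p hp p' hp'
      have := hl w hw p hp p' hp'
      rw [show E p - E p' = p + E p - (p' + E p') - (p - p') by ring] at this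
      simpa using this
    obtain ⟨z, hz, hz'⟩ := happ.surjOn_closedBall_of_nonlinearRightInverse
      (ContinuousLinearEquiv.refl ℂ ℂ).toNonlinearRightInverse (ε := δ / 2) (by linarith)
      (closedBall_subset_ball (by linarith)) (a := w) (by
        have : ((ContinuousLinearEquiv.refl ℂ ℂ).toNonlinearRightInverse.nnnorm : ℝ) = 1 := by
          simp [ContinuousLinearEquiv.toNonlinearRightInverse]
        rw [mem_closedBall', dist_eq_norm, this, add_sub_cancel_left]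
        have := hb w (by linarith)
        push_cast
        linarith)
    exact ⟨z, fun _ => ⟨by rwa [mem_closedBall, dist_eq_norm] at hz, hz'⟩⟩
  choose J hJ using hex
  refine ⟨hd, J, Metric.continuousOn_iff.2 fun w hw e he =>
    ⟨min δ (e / 2), by positivity, fun w' hw' h => ?_⟩, fun w hw => ⟨?_, (hJ w hw).2⟩,
    fun y hy hy' => ?_⟩
  · rw [lt_min_iff, dist_eq_norm] at h
    have h1 := hl' w hw (J w') (by
      have := norm_add_le (J w' - w') (w' - w)
      rw [sub_add_sub_cancel] at this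
      rw [mem_ball, dist_eq_norm]
      linarith [(hJ w' hw').1, h.1]) (J w) (by
      rw [mem_ball, dist_eq_norm]
      linarith [(hJ w hw).1])
    rw [(hJ w' hw').2, (hJ w hw).2] at h1
    rw [dist_eq_norm]
    linarith [h.2]
  · exact hfar (c := w) (r := δ) (by linarith) _ (by
      rw [mem_ball, dist_eq_norm]
      linarith [(hJ w hw).1])
  · have h1 := hl' _ hy' (J (y + E y)) (by
      rw [mem_ball, dist_eq_norm]
      linarith [(hJ _ hy').1]) y (by
      rw [mem_ball', dist_eq_norm, add_sub_cancel_left]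
      linarith [hb y hy])
    rw [(hJ _ hy').2, sub_self, norm_zero, mul_zero] at h1
    exact sub_eq_zero.1 (norm_le_zero_iff.1 h1)

lemma core2 {W S : Set ℂ} {f : ℂ → ℂ} {lam a : ℂ} {m q ν : ℕ}
    {ρ L Z r t κ σ b s R δ ε B τ : ℝ}
    (hf : FT W f S) (hlam : ‖lam‖ = 1) (hf0 : f 0 = 0) (hf1 : deriv f 0 = lam) (hm : S.ncard < m)
    (hρ1 : ρ ≤ 1) (hL : 1 ≤ L) (h1 : ∀ z ∈ ball (0 : ℂ) ρ, z ∈ W ∧ ‖deriv f z‖ ≤ L)
    (hδ0 : 0 < δ) (haR : ‖a‖ + 1 ≤ R) (hδR : 1 ≤ δ * R)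
    (h3 : ∀ z ∈ ball a (4 * δ), ρ ≤ ‖z‖ ∧ ‖f z‖ < s)
    (hq : 1 ≤ q) (hZ : Z = (2 * L) ^ q) (hr0 : 0 < r) (hr : Z * r ≤ ρ / 2)
    (hτ : ∀ z ∈ ball (0 : ℂ) (r / 5), ‖f^[q] z - z‖ ≤ τ * ‖z‖) (hτ0 : 0 ≤ τ)
    (ht0 : 0 < t) (ht : (m + 1) * t ≤ r / 10)
    (hκ : 2 * Z / r * ((m + 1) * t) * ((m + 1) * t) ≤ κ) (hσ0 : 0 < σ) (hσ : σ + 2 * κ ≤ b * t)
    (hb1 : b ≤ 1) (hdiv : ∀ j, 1 ≤ j → j < q → b ≤ ‖lam ^ j - 1‖) (hν : (m + 1) * q ≤ ν)
    (hε0 : 0 < ε) (hε : 4 * R * (ε * (2 * R ^ 3 / σ) ^ (4 * ν)) ≤ 1)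
    (hB : B = (2 * 2 / σ) ^ (4 * ν) * Z) (hs0 : 0 < s) (hBs : 128 * B * s ≤ r ^ 2)
    (hsum : ε * B + κ + s < t / 2) (hτ1 : τ ≤ ε * s / 32) : False := by
  classical
  have hZ1 : 1 ≤ Z := hZ ▸ one_le_pow₀ (by linarith)
  have hρ0 : 0 < ρ := by nlinarith
  have hr1 : r ≤ 1 / 2 := by nlinarith
  have hm0 : (0 : ℝ) ≤ m := Nat.cast_nonneg m
  have ht1 : t ≤ r / 10 := by nlinarith
  have hκ0 : 0 ≤ κ := le_trans (by positivity) hκ
  have hB0 : 0 ≤ B := by rw [hB]; positivity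
  have hσ1 : σ ≤ 1 := by nlinarith
  have hst : s ≤ t := by nlinarith [mul_nonneg hε0.le hB0]
  have hfa : ∀ z, z ∈ W → DifferentiableAt ℂ f z := fun z hz =>
    hf.diff.differentiableAt (hf.opn.mem_nhds hz)
  have hR1 : 1 ≤ R := by linarith [norm_nonneg a]
  have hρa : ρ ≤ ‖a‖ := (h3 a (mem_ball_self (by linarith))).1
  have hfar : ∀ z ∈ ball (0 : ℂ) ρ, 4 * δ ≤ ‖z - a‖ := by
    intro z hz
    by_contra h
    linarith [(h3 z (by rw [mem_ball, dist_eq_norm]; linarith)).1, mem_ball_zero_iff.1 hz]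
  have hne : ∀ {w : ℂ} {u : ℝ}, 0 < u → u ≤ ‖w - a‖ → w ≠ a := fun hu h =>
    sub_ne_zero.1 (norm_pos_iff.1 (hu.trans_le h))
  have hfd : DifferentiableOn ℂ f (ball 0 ρ) := fun z hz =>
    (hfa z (h1 z hz).1).differentiableWithinAt
  have hflip : ∀ a ∈ ball (0 : ℂ) ρ, ∀ c ∈ ball (0 : ℂ) ρ, ‖f a - f c‖ ≤ L * ‖a - c‖ :=
    fun a ha c hc => mvt hfd (fun w hw => (h1 w hw).2) ha hc
  have hfb : ∀ z ∈ ball (0 : ℂ) ρ, ‖f z‖ ≤ L * ‖z‖ := fun z hz => by
    simpa [hf0] using hflip z hz 0 (mem_ball_self hρ0)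
  have hhalf : ball (0 : ℂ) (ρ / 2) ⊆ ball 0 ρ := ball_subset_ball (by linarith)
  have hfit := iter_bound (q := q) (r := r) (Λ := 2 * L) (hfd.mono hhalf) (by linarith)
    (fun z hz => by nlinarith [hfb z (hhalf hz), norm_nonneg z]) (hZ ▸ hr)
  have hpow : ∀ i ≤ q, (2 * L) ^ i ≤ Z := fun i hi => hZ ▸ pow_le_pow_right₀ (by linarith) hi
  have hfder : HasDerivAt f lam 0 := hf1 ▸ (diffAt hfd (mem_ball_self hρ0)).hasDerivAt
  have hnl : ∀ i ≤ q, ∀ z : ℂ, ‖z‖ ≤ (m + 1) * t → ‖f^[i] z - lam ^ i * z‖ ≤ κ := by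
    intro i hi z hz
    have h4 := schwarz2 (F := fun z => f^[i] z - lam ^ i * z) (R := r) (M := 2 * Z * r) (z := z)
      ((hfit i hi).2.sub (by fun_prop)) (by simp [Function.iterate_fixed hf0])
      (by rw [((HasDerivAt.iterate 0 hfder hf0 i).fun_sub
        ((hasDerivAt_id' 0).const_mul (lam ^ i))).deriv]; simp)
      (fun w hw => by
        have h5 := ((hfit i hi).1 w hw).1
        have h6 := norm_sub_le (f^[i] w) (lam ^ i * w)
        rw [norm_mul, norm_pow, hlam, one_pow, one_mul] at h6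
        rw [mem_ball_zero_iff] at hw
        have h7 := mul_le_mul_of_nonneg_right (hpow i hi) (norm_nonneg w)
        nlinarith [norm_nonneg w])
      (by rw [mem_ball_zero_iff]; linarith)
    rw [show 2 * Z * r / r / r = 2 * Z / r by field_simp] at h4
    refine h4.trans (le_trans ?_ hκ)
    gcongr
  set x : ℕ → ℂ := fun k => ((k * t : ℝ) : ℂ) with hx
  have hxn : ∀ k, ‖x k‖ = k * t := fun k => by
    simp only [hx]
    rw [Complex.norm_real, Real.norm_eq_abs, abs_of_nonneg (by positivity)]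
  have hxm : ∀ k ≤ m, ‖x k‖ + t ≤ (m + 1) * t := by
    intro k hk
    have : (k : ℝ) ≤ m := by exact_mod_cast hk
    rw [hxn]; nlinarith
  have hxr : ∀ k ≤ m, x k ∈ ball (0 : ℂ) r := fun k hk => by
    rw [mem_ball_zero_iff]; linarith [hxm k hk]
  set O : Finset ℂ := ((Finset.range (m + 1)) ×ˢ (Finset.range q)).image
    fun p => f^[p.2] (x p.1) with hO
  have hOm : ∀ k ≤ m, ∀ i < q, f^[i] (x k) ∈ O := fun k hk i hi =>
    Finset.mem_image.2 ⟨(k, i), by simp [hi, Nat.lt_succ_of_le hk], rfl⟩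
  have hOb : ∀ y ∈ O, y ∈ ball (0 : ℂ) (ρ / 2) := by
    intro y hy
    obtain ⟨⟨k, i⟩, hp, rfl⟩ := Finset.mem_image.1 hy
    simp only [Finset.mem_product, Finset.mem_range] at hp ⊢
    exact ((hfit i hp.2.le).1 _ (hxr k (by omega))).2
  have hOa : ∀ y ∈ O, y ≠ a := fun y hy => hne (by linarith) (hfar y (hhalf (hOb y hy)))
  obtain ⟨Q, hQd, hQO, hQb⟩ := hermite2 O (ν := ν) (Ω := {z | z ≠ a})
    (fun y z => (y - a) / (z - a))
    (fun y z hz => DifferentiableAt.fun_div (by fun_prop) (by fun_prop) (sub_ne_zero.2 hz))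
    (fun y hy => div_self (sub_ne_zero.2 (hOa y hy))) hOa hσ0 hσ1
    (by
      intro y hy y' hy' hne
      obtain ⟨⟨k, i⟩, hp, rfl⟩ := Finset.mem_image.1 hy
      obtain ⟨⟨l, j⟩, hp', rfl⟩ := Finset.mem_image.1 hy'
      simp only [Finset.mem_product, Finset.mem_range] at hp hp' hne ⊢
      have h4 := sep_aux hlam ht0 hb1 hdiv k l i j hp.2 hp'.2 (by
        by_contra hc
        push Not at hc
        obtain ⟨rfl, hc⟩ := hc
        rcases Nat.eq_zero_or_pos k with rfl | hk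
        · simp [hx, Function.iterate_fixed hf0] at hne
        · exact hne (by rw [hc hk]))
      have h5 := hnl i hp.2.le (x k) (by linarith [hxm k (by omega)])
      have h6 := hnl j hp'.2.le (x l) (by linarith [hxm l (by omega)])
      have h7 : lam ^ i * x k - lam ^ j * x l = (f^[i] (x k) - f^[j] (x l)) +
          -(f^[i] (x k) - lam ^ i * x k) + (f^[j] (x l) - lam ^ j * x l) := by ring
      change b * t ≤ ‖lam ^ i * x k - lam ^ j * x l‖ at h4
      rw [h7] at h4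
      have h8 := h4.trans norm_add₃_le
      rw [norm_neg] at h8
      linarith)
    (Finset.card_image_le.trans (by simpa using hν)) (le_trans (by nlinarith) hν)
  have hO0 : (0 : ℂ) ∈ O := by simpa [hx] using hOm 0 (Nat.zero_le _) 0 hq
  have hQloc : ∀ z ∈ ball (0 : ℂ) (ρ / 2), ‖Q z‖ ≤ (2 * 2 / σ) ^ (4 * ν) := by
    intro z hz
    refine hQb 2 (by norm_num) z fun y hy y' hy' => ?_
    have h4 := mem_ball_zero_iff.1 (hOb y hy)
    have h5 := mem_ball_zero_iff.1 (hOb y' hy')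
    rw [mem_ball_zero_iff] at hz
    have h6 := norm_sub_le y a
    have h7 := norm_sub_le z y'
    have h8 := norm_sub_norm_le a z
    rw [norm_sub_rev] at h8
    have h9 : ‖y - a‖ / ‖z - a‖ ≤ 3 := by rw [div_le_iff₀ (by linarith)]; linarith
    rw [norm_mul, norm_div]
    calc _ ≤ 3 * 1 := mul_le_mul h9 (by linarith) (norm_nonneg _) (by norm_num)
      _ ≤ _ := by norm_num
  have hQglob : ∀ z, δ ≤ ‖z - a‖ → ‖(ε : ℂ) * Q z‖ ≤ δ / 4 := by
    intro z hz
    have h4 := hQb (R ^ 3) (one_le_pow₀ hR1) z fun y hy y' hy' => by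
      have h4 := mem_ball_zero_iff.1 (hOb y hy)
      have h5 := mem_ball_zero_iff.1 (hOb y' hy')
      have h6 := norm_sub_le y a
      have h7 := norm_add_le (z - a) (a - y')
      rw [sub_add_sub_cancel] at h7
      have h8 := norm_sub_le a y'
      have h9 : ‖z - y'‖ / ‖z - a‖ ≤ 2 * R ^ 2 := by
        rw [div_le_iff₀ (by linarith)]
        have h10 : 1 ≤ ‖z - a‖ * R := hδR.trans (by gcongr)
        have h11 : 1 ≤ R ^ 2 := one_le_pow₀ hR1
        nlinarith
      rw [norm_mul, norm_div, div_mul_eq_mul_div, mul_div_assoc]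
      calc _ ≤ R * (2 * R ^ 2) := mul_le_mul (by linarith) h9 (by positivity) (by linarith)
        _ = _ := by ring
    rw [norm_mul, Complex.norm_real, Real.norm_eq_abs, abs_of_pos hε0]
    have h5 := mul_le_mul_of_nonneg_left h4 hε0.le
    generalize ε * (2 * R ^ 3 / σ) ^ (4 * ν) = K at h5 hε
    have h6 : K * R ≤ δ / 4 * R := by linarith
    exact h5.trans (le_of_mul_le_mul_right h6 (by linarith))
  obtain ⟨hQ', J, hJc, hJ, hJ'⟩ := outer_inverse (E := fun z => (ε : ℂ) * Q z) hδ0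
    (fun z hz => (hQd z hz).const_mul _) hQglob
  replace hQ' : ∀ z, 2 * δ ≤ ‖z - a‖ → ‖(ε : ℂ) * deriv Q z‖ ≤ 1 / 2 := fun z hz => by
    have := hQ' z hz
    rwa [((hQd z (hne (by linarith) hz)).hasDerivAt.const_mul _).deriv] at this
  set H : ℂ → ℂ := fun z => z + ε * Q z with hH
  have hHd : ∀ z, z ≠ a → HasDerivAt H (1 + ε * deriv Q z) z := fun z hz =>
    (hasDerivAt_id' z).fun_add ((hQd z hz).hasDerivAt.const_mul _)
  have hρne : ∀ z ∈ ball (0 : ℂ) ρ, z ≠ a := fun z hz => hne (by linarith) (hfar z hz)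
  have hε1 : ε ≤ 1 / 2 := by
    have := hQ' 0 (by linarith [hfar 0 (mem_ball_self hρ0)])
    rw [(hQO 0 hO0).2] at this
    simpa [abs_of_pos hε0] using this
  have hHO : ∀ y ∈ O, H y = y := fun y hy => by simp [hH, (hQO y hy).1]
  have hHn : ∀ z ∈ ball (0 : ℂ) ρ, ‖H z‖ ≤ 3 / 2 * ‖z‖ := by
    intro z hz
    have h4 := mvt (F := fun z => (ε : ℂ) * Q z) (C := 1 / 2)
      (fun w hw => ((hQd w (hρne w hw)).const_mul _).differentiableWithinAt)
      (fun w hw => by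
        rw [((hQd w (hρne w hw)).hasDerivAt.const_mul _).deriv]
        exact hQ' w (by linarith [hfar w hw])) hz (mem_ball_self hρ0)
    rw [(hQO 0 hO0).1, mul_zero, sub_zero, sub_zero] at h4
    linarith [norm_add_le z (ε * Q z)]
  have hHm : ∀ z ∈ ball (0 : ℂ) (ρ / 2), H z ∈ ball (0 : ℂ) ρ := by
    intro z hz
    have := hHn z (hhalf hz)
    rw [mem_ball_zero_iff] at hz ⊢
    linarith
  set g : ℂ → ℂ := fun z => f (H z) with hg
  have hga : ∀ z, z ≠ a → H z ∈ W → HasDerivAt g (deriv f (H z) * (1 + ε * deriv Q z)) z :=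
    fun z hz hz' => (hfa _ hz').hasDerivAt.comp z (hHd z hz)
  have hgit := iter_bound (g := g) (q := q) (r := r) (Λ := 2 * L) (ρ := ρ / 2)
    (fun z hz => (hga z (hρne z (hhalf hz))
      (h1 _ (hHm z hz)).1).differentiableAt.differentiableWithinAt) (by linarith)
    (fun z hz => by
      have h4 := hfb _ (hHm z hz)
      have h5 := mul_le_mul_of_nonneg_left (hHn z (hhalf hz)) (by linarith : 0 ≤ L)
      simp only [hg]
      nlinarith [norm_nonneg z]) (hZ ▸ hr)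
  have hpert : ∀ i ≤ q, ∀ z ∈ ball (0 : ℂ) r, ‖g^[i] z - f^[i] z‖ ≤ ε * B := by
    have key : ∀ i ≤ q, ∀ z ∈ ball (0 : ℂ) r,
        ‖g^[i] z - f^[i] z‖ ≤ ε * (2 * 2 / σ) ^ (4 * ν) * (2 * L) ^ i := by
      intro i
      induction i with
      | zero => intro _ z _; simp only [Function.iterate_zero, id, sub_self, norm_zero]; positivity
      | succ i ih =>
        intro hi z hz
        have h4 := ih (by omega) z hz
        have h5 := ((hgit i (by omega)).1 z hz).2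
        have h6 := ((hfit i (by omega)).1 z hz).2
        rw [Function.iterate_succ_apply', Function.iterate_succ_apply']
        refine (hflip _ (hHm _ h5) _ (hhalf h6)).trans ?_
        have h7 := hQloc (g^[i] z) h5
        have h8 : ‖H (g^[i] z) - f^[i] z‖ ≤ ‖g^[i] z - f^[i] z‖ + ε * (2 * 2 / σ) ^ (4 * ν) := by
          rw [show H (g^[i] z) - f^[i] z = (g^[i] z - f^[i] z) + ε * Q (g^[i] z) by
            simp only [hH]; ring]
          refine (norm_add_le _ _).trans ?_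
          rw [norm_mul, Complex.norm_real, Real.norm_eq_abs, abs_of_pos hε0]
          gcongr
        have h9 : (1 : ℝ) ≤ (2 * L) ^ i := one_le_pow₀ (by linarith)
        have h10 : 0 ≤ ε * (2 * 2 / σ) ^ (4 * ν) := by positivity
        generalize ε * (2 * 2 / σ) ^ (4 * ν) = E at *
        rw [pow_succ]
        have h11 : ‖H (g^[i] z) - f^[i] z‖ ≤ 2 * (E * (2 * L) ^ i) := by nlinarith
        nlinarith
    intro i hi z hz
    refine (key i hi z hz).trans ?_
    rw [hB, mul_assoc]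
    gcongr
    exact hpow i hi
  have hpt : ∀ k ≤ m, ∀ i ≤ q, g^[i] (x k) = f^[i] (x k) ∧
      deriv (g^[i]) (x k) = deriv (f^[i]) (x k) * (((1 - ε) ^ i : ℝ) : ℂ) := by
    intro k hk i
    induction i with
    | zero => intro _; simp
    | succ i ih =>
      intro hi
      obtain ⟨e1, e2⟩ := ih (by omega)
      have hy := hOm k hk i hi
      have hy' := (h1 _ (hhalf ((hfit i (by omega)).1 _ (hxr k hk)).2)).1
      have d1 := hga (g^[i] (x k)) (by rw [e1]; exact hOa _ hy) (by rw [e1, hHO _ hy]; exact hy')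
      have d2 := d1.comp (x k) (diffAt (hgit i (by omega)).2 (hxr k hk)).hasDerivAt
      have d3 := (hfa _ hy').hasDerivAt.comp (x k)
        (diffAt (hfit i (by omega)).2 (hxr k hk)).hasDerivAt
      rw [Function.iterate_succ', Function.iterate_succ', d2.deriv, d3.deriv, e2]
      simp only [Function.comp_apply]
      rw [e1, hHO _ hy, (hQO _ hy).2]
      refine ⟨by simp only [hg, hHO _ hy], ?_⟩
      push_cast
      ring
  have hsub : ∀ k ≤ m, ball (x k) s ⊆ ball 0 r := fun k hk =>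
    ball_subset_ball' (by rw [dist_zero_right]; linarith [hxm k hk])
  have hdisc : ∀ k ≤ m, (∀ n, ∀ z ∈ ball (x k) s, (g^[q])^[n] z ∈ ball (x k) s) ∧
      ∀ B : ℝ, 0 < B → ∃ n, (g^[q])^[n] (x k) ∈ closedBall (x k) (s / 2) ∧
        ‖deriv ((g^[q])^[n]) (x k)‖ * B < 1 := by
    intro k hk
    obtain ⟨d1, d2⟩ := disc (a := (1 - ε) ^ q) hr0 (by linarith) hs0 (by linarith) hε0
      (hgit q le_rfl).2 (hfit q le_rfl).2 (hpert q le_rfl) hτ
      (x := x k) (by linarith [hxm k hk]) (hpt k hk q le_rfl).1 (hpt k hk q le_rfl).2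
      (pow_nonneg (by linarith) q) (pow_le_of_le_one (by linarith) (by linarith) (by omega))
      hBs hτ0 hτ1
    exact disc_iter hs0 hε0 (by linarith) ((hgit q le_rfl).2.mono (hsub k hk)) d1 d2
  have hmod : ∀ k ≤ m, ∀ z ∈ ball (x k) s, ∀ n,
      g^[n] z ∈ ball (0 : ℂ) (ρ / 2) ∧ |‖g^[n] z‖ - k * t| < t / 2 := by
    intro k hk z hz n
    have hi : n % q ≤ q := (Nat.mod_lt _ (by omega)).le
    rw [← Nat.mod_add_div n q, Function.iterate_add_apply, Function.iterate_mul]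
    have h4 := (hdisc k hk).1 (n / q) z hz
    generalize (g^[q])^[n / q] z = y at h4
    generalize n % q = i at hi
    refine ⟨((hgit i hi).1 y (hsub k hk h4)).2, ?_⟩
    have h5 := hpert i hi y (hsub k hk h4)
    have h6 : ‖y - x k‖ < s := by rwa [mem_ball, dist_eq_norm] at h4
    have h7 := hnl i hi y (by linarith [norm_le_norm_sub_add y (x k), hxm k hk])
    have h8 := abs_norm_sub_norm_le (g^[i] y) (lam ^ i * x k)
    rw [norm_mul, norm_pow, hlam, one_pow, one_mul, hxn,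
      show g^[i] y - lam ^ i * x k = (g^[i] y - f^[i] y) + (f^[i] y - lam ^ i * y) +
        lam ^ i * (y - x k) by ring] at h8
    have h9 := h8.trans norm_add₃_le
    rw [norm_mul, norm_pow, hlam, one_pow, one_mul] at h9
    linarith
  have hcrit : ∀ k : ℕ, ∃ c : ℂ, 1 ≤ k → k ≤ m → c ∈ S ∧ ∃ n, g^[n] c ∈ ball (x k) s := by
    intro k
    by_cases hk : 1 ≤ k ∧ k ≤ m
    swap
    · exact ⟨0, fun h h' => absurd ⟨h, h'⟩ hk⟩
    obtain ⟨hk1, hk⟩ := hk
    have hk' : (1 : ℝ) ≤ k := by exact_mod_cast hk1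
    by_contra hno
    have hno' : ∀ c, (∃ n, g^[n] c ∈ ball (x k) s) → c ∉ S := fun c h hc =>
      hno ⟨c, fun _ _ => ⟨hc, h⟩⟩
    set Ω : Set ℂ := {z | 3 * δ < ‖z - a‖} ∩ H ⁻¹' W with hΩ
    have hΩa : ∀ z ∈ Ω, z ≠ a := fun z hz => hne (by linarith) (le_of_lt hz.1)
    set A : Set ℂ := {z | (∀ n, g^[n] z ∈ Ω) ∧ ∃ n, g^[n] z ∈ ball (x k) s} with hA
    have hback : ∀ z ∈ Ω, g z ∈ A → z ∈ A := by
      rintro z hz ⟨h4, n, h5⟩
      refine ⟨fun j => ?_, n + 1, h5⟩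
      cases j with
      | zero => exact hz
      | succ j => exact h4 j
    have hfwd : ∀ z ∈ A, g z ∈ A := by
      rintro z ⟨h4, n, h5⟩
      refine ⟨fun j => h4 (j + 1), ?_⟩
      cases n with
      | zero =>
        refine ⟨q - 1, ?_⟩
        rw [← Function.iterate_succ_apply, Nat.succ_eq_add_one, Nat.sub_add_cancel hq]
        exact (hdisc k hk).1 1 z h5
      | succ n => exact ⟨n, h5⟩
    have hAs : ∀ z ∈ A, s ≤ ‖z‖ := by
      rintro z ⟨-, n, hn⟩
      by_contra hc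
      have h5 := (hmod 0 (Nat.zero_le _) z (by simpa [hx] using hc) n).2
      have h6 := (abs_lt.1 (hmod k hk _ hn 0).2).1
      simp only [Nat.cast_zero, zero_mul, sub_zero, abs_norm, Function.iterate_zero, id] at h5 h6
      nlinarith
    refine fatou_lift (g := g) (Ω := Ω) (A := A) (x := x k) (s := s)
      (ContinuousOn.isOpen_inter_preimage
        (fun z hz => (hHd z (hne (by linarith) (le_of_lt hz))).continuousAt.continuousWithinAt)
        (isOpen_lt continuous_const (by fun_prop)) hf.opn)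
      (fun z hz => (hga z (hΩa z hz) hz.2).differentiableAt.differentiableWithinAt) hs0
      (fun z hz => hz.1 0)
      (fun z hz => ⟨fun n => ⟨?_, (h1 _ (hHm _ (hmod k hk z hz n).1)).1⟩, 0, hz⟩) hfwd hAs
      (fun z hz => ?_) (fun c e he σ' hσ' hσA y hy hyc => ?_)
      (fun B' hB' => by
        obtain ⟨n, hn⟩ := (hdisc k hk).2 B' hB'
        exact ⟨q * n, by rwa [Function.iterate_mul]⟩)
    · have := hfar _ (hhalf (hmod k hk z hz n).1)
      show 3 * δ < _
      linarith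
    · have h4 : z ∈ Ω := hz.1 0
      rw [(hga z (hΩa z h4) h4.2).deriv]
      refine mul_ne_zero (hf.crit h4.2 (hno' _ (hfwd z hz).2)) fun h => ?_
      have h5 := hQ' z (by linarith [show 3 * δ < ‖z - a‖ from h4.1])
      rw [show (ε : ℂ) * deriv Q z = -1 by linear_combination h] at h5
      norm_num at h5
    · have h4 : y ∈ Ω := hy.1 0
      obtain ⟨F, f1, f2, f3⟩ := hf.lift _ (convex_ball c e) isOpen_ball σ' hσ'
        (fun w hw => hno' _ (hσA w hw).2) c (mem_ball_self he) (H y) h4.2 hyc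
      have f4 : ∀ w ∈ ball c e, 4 * δ ≤ ‖F w - a‖ := by
        intro w hw
        by_contra h
        have h5 := (h3 (F w) (by rw [mem_ball, dist_eq_norm]; linarith)).2
        rw [(f3 w hw).2] at h5
        linarith [hAs _ (hσA w hw)]
      refine ⟨fun w => J (F w), hJc.comp f1 f4, ?_, fun w hw => ?_⟩
      · have h5 := f4 c (mem_ball_self he)
        show J (F c) = y
        rw [f2] at h5 ⊢
        exact hJ' y (by linarith [show 3 * δ < ‖y - a‖ from h4.1]) h5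
      · obtain ⟨j1, j2⟩ := hJ _ (f4 w hw)
        have j3 : H (J (F w)) = F w := j2
        have j4 : g (J (F w)) = σ' w := by simp only [hg, j3, (f3 w hw).2]
        exact ⟨hback _ ⟨j1, by rw [mem_preimage, j3]; exact (f3 w hw).1⟩
          (by rw [j4]; exact hσA w hw), j4⟩
  choose c hc using hcrit
  have hcard := Finset.card_le_card_of_injOn (s := Finset.Icc 1 m) (t := hf.fin.toFinset) c
    (fun k hk => by simpa using (hc k (Finset.mem_Icc.1 hk).1 (Finset.mem_Icc.1 hk).2).1)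
    (by
      intro k hk l hl h5
      obtain ⟨k1, k2⟩ := Finset.mem_Icc.1 hk
      obtain ⟨l1, l2⟩ := Finset.mem_Icc.1 hl
      obtain ⟨-, n, hn⟩ := hc k k1 k2
      obtain ⟨-, n', hn'⟩ := hc l l1 l2
      have h6 := abs_lt.1 (hmod k k2 _ hn n').2
      have h7 := abs_lt.1 (hmod l l2 _ hn' n).2
      rw [← Function.iterate_add_apply, h5, add_comm] at h6
      rw [← Function.iterate_add_apply] at h7
      have h8 : (k : ℝ) < l + 1 := by nlinarith
      have h9 : (l : ℝ) < k + 1 := by nlinarith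
      have h10 : k < l + 1 := by exact_mod_cast h8
      have h11 : l < k + 1 := by exact_mod_cast h9
      omega)
  rw [← Set.ncard_eq_toFinset_card S hf.fin] at hcard
  simp only [Nat.card_Icc] at hcard
  omega

end Pool.Agent.Lib.MP_27cd7e_an
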