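import Pool.Agent.Lib.MP_27cd7e_an.FtBasic

set_option autoImplicit false

namespace Pool.Agent.Lib.MP_27cd7e_an

open Metric Set Complex Filter Topology

/-- a bounded locally injective map of a half plane has a derivative decaying at most
exponentially -/
lemma deriv_lower {φ : ℂ → ℂ} (hd : DifferentiableOn ℂ φ {ζ : ℂ | ζ.re < 2})
    (hb : ∀ ζ : ℂ, ζ.re < 1 → ‖deriv φ ζ‖ ≤ 2) (hne : ∀ ζ : ℂ, ζ.re < 2 → deriv φ ζ ≠ 0) :
    ∃ A : ℝ, 0 < A ∧ ∀ T : ℝ, 0 ≤ T → ‖deriv φ 0‖ * Real.exp (-(A * T)) ≤ ‖deriv φ (-T)‖ := by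
  have hHo : IsOpen {ζ : ℂ | ζ.re < 2} := isOpen_lt Complex.continuous_re continuous_const
  have hm : ∀ w ∈ ball (0 : ℂ) 1, 1 - w ≠ 0 ∧ (-2 * w / (1 - w)).re < 1 := by
    intro w hw
    rw [mem_ball_zero_iff] at hw
    have h1 : 1 - w ≠ 0 := by
      intro h
      rw [← sub_eq_zero.1 h] at hw
      simp at hw
    refine ⟨h1, ?_⟩
    have h2 : -2 * w / (1 - w) = 2 - 2 * (1 - w)⁻¹ := by field_simp; ring
    have h3 : w.re * w.re + w.im * w.im < 1 := by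
      rw [← Complex.normSq_apply, Complex.normSq_eq_norm_sq]
      nlinarith [norm_nonneg w]
    have h4 : 0 < normSq (1 - w) := Complex.normSq_pos.2 h1
    have h5 : 1 / 2 < (1 - w).re / normSq (1 - w) := by
      rw [lt_div_iff₀ h4, Complex.normSq_apply]
      simp only [sub_re, one_re, sub_im, one_im]
      nlinarith
    rw [h2]
    rw [sub_re, mul_re, inv_re, re_ofNat, im_ofNat]
    linarith
  have hβ : 0 < ‖deriv φ 0‖ := norm_pos_iff.2 (hne 0 (by simp))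
  have hβ2 : ‖deriv φ 0‖ ≤ 2 := hb 0 (by simp)
  obtain ⟨v, hv, hv0, hv1⟩ := exists_log (R := 1) (U := fun w => deriv φ (-2 * w / (1 - w)))
    ((hd.deriv hHo).comp (f := fun w : ℂ => -2 * w / (1 - w))
      (DifferentiableOn.div (by fun_prop) (by fun_prop) fun w hw => (hm w hw).1)
      fun w hw => (hm w hw).2.trans (by norm_num))
    (fun w hw => hne _ ((hm w hw).2.trans (by norm_num)))
  simp only [mul_zero, zero_div] at hv1
  have hA : 0 < Real.log (2 / ‖deriv φ 0‖) + 1 := by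
    have := Real.log_nonneg (x := 2 / ‖deriv φ 0‖) ((one_le_div hβ).2 hβ2)
    linarith
  refine ⟨_, hA, fun T hT => ?_⟩
  have hw : ((T / (T + 2) : ℝ) : ℂ) ∈ ball (0 : ℂ) 1 := by
    rw [mem_ball_zero_iff, Complex.norm_real, Real.norm_eq_abs, abs_of_nonneg (by positivity),
      div_lt_one (by positivity)]
    linarith
  have h1 := Complex.borelCaratheodory_zero hA hv (fun w hw => by
    show (v w).re ≤ _
    have h2 := hb _ (hm w hw).2
    rw [hv1 w hw, norm_mul, Complex.norm_exp] at h2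
    have h3 : Real.exp (v w).re ≤ 2 / ‖deriv φ 0‖ := by rw [le_div_iff₀ hβ]; linarith
    have := (Real.le_log_iff_exp_le (by positivity)).2 h3
    linarith) one_pos hw hv0
  have h2 := hv1 _ hw
  have h3 : (T : ℂ) + 2 ≠ 0 := by
    have : (T + 2 : ℝ) ≠ 0 := by positivity
    exact_mod_cast this
  have h4 : -2 * ((T / (T + 2) : ℝ) : ℂ) / (1 - ((T / (T + 2) : ℝ) : ℂ)) = -T := by
    push_cast
    rw [show (1 : ℂ) - T / (T + 2) = 2 / (T + 2) by field_simp; ring]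
    field_simp
  rw [h4] at h2
  rw [h2, norm_mul, Complex.norm_exp]
  refine mul_le_mul_of_nonneg_left (Real.exp_le_exp.2 ?_) hβ.le
  rw [Complex.norm_real, Real.norm_eq_abs, abs_of_nonneg (by positivity)] at h1
  have h5 : 2 * (Real.log (2 / ‖deriv φ 0‖) + 1) * (T / (T + 2)) / (1 - T / (T + 2)) =
      (Real.log (2 / ‖deriv φ 0‖) + 1) * T := by
    rw [show (1 : ℝ) - T / (T + 2) = 2 / (T + 2) by field_simp; ring]
    field_simp
  rw [h5] at h1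
  linarith [(abs_le.1 (Complex.abs_re_le_norm (v ((T / (T + 2) : ℝ) : ℂ)))).1]

/-- a disc in the image -/
lemma landau {φ : ℂ → ℂ} {c : ℂ} (hd : DifferentiableOn ℂ φ (ball c 1))
    (hb : ∀ ζ ∈ ball c 1, ‖deriv φ ζ‖ ≤ 2) (hne : deriv φ c ≠ 0) (u : ℂ)
    (hu : ‖u - φ c‖ < ‖deriv φ c‖ ^ 2 / 64) : ∃ ζ ∈ ball c 1, φ ζ = u := by
  have hβ : 0 < ‖deriv φ c‖ := norm_pos_iff.2 hne
  have hβ2 := hb c (mem_ball_self one_pos)
  have hin : ∀ z ∈ ball (0 : ℂ) (‖deriv φ c‖ / 16), c + z ∈ ball c (1 / 2) := by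
    intro z hz
    rw [mem_ball_zero_iff] at hz
    rw [mem_ball, dist_eq_norm, add_sub_cancel_left]
    linarith
  have hs : ball c (1 / 2) ⊆ ball c 1 := ball_subset_ball (by norm_num)
  have hD : ∀ z ∈ ball (0 : ℂ) (‖deriv φ c‖ / 16),
      HasDerivAt (fun z => (φ (c + z) - φ c) / deriv φ c) (deriv φ (c + z) / deriv φ c) z :=
    fun z hz => (((diffAt hd (hs (hin z hz))).hasDerivAt.comp_const_add c z).sub_const
      _).div_const _
  obtain ⟨-, ψ, -, hψ⟩ := exists_inverse (Φ := fun z => (φ (c + z) - φ c) / deriv φ c)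
    (R := ‖deriv φ c‖ / 16) (r := ‖deriv φ c‖ / 32) (c := 1 / 2) (ρ := ‖deriv φ c‖ / 64)
    (fun z hz => (hD z hz).differentiableAt.differentiableWithinAt) (by simp) (by norm_num) le_rfl
    (fun z hz => by
      have h1 := mvt (C := 2 * 2 / (1 / 2)) ((hd.deriv isOpen_ball).mono hs)
        (fun w hw => deriv_bound (hd.deriv isOpen_ball) hb (by norm_num) (by
          rw [mem_ball, dist_eq_norm] at hw; linarith)) (hin z hz) (mem_ball_self (by norm_num))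
      rw [add_sub_cancel_left] at h1
      rw [mem_ball_zero_iff] at hz
      rw [(hD z (mem_ball_zero_iff.2 hz)).deriv, div_sub_one hne, norm_div, div_le_iff₀ hβ]
      linarith)
    (by positivity) (by linarith) (by positivity) (by linarith)
  have hβ' : ((‖deriv φ c‖ / 64 : ℝ) : ℂ) ≠ 0 := by
    have : ‖deriv φ c‖ / 64 ≠ 0 := by positivity
    exact_mod_cast this
  obtain ⟨h1, h2⟩ := hψ ((u - φ c) / deriv φ c / ((‖deriv φ c‖ / 64 : ℝ) : ℂ)) (by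
    rw [mem_ball_zero_iff, norm_div, norm_div, Complex.norm_real, Real.norm_eq_abs,
      abs_of_pos (by positivity), div_lt_one (by positivity), div_lt_iff₀ hβ]
    linarith)
  rw [mul_div_cancel₀ _ hβ', div_left_inj' hne, sub_left_inj] at h2
  refine ⟨_, ?_, h2⟩
  rw [mem_ball, dist_eq_norm, add_sub_cancel_left]
  linarith

/-- a disc of controlled size and position, away from `0`, that is mapped close to `0` -/
lemma FT.trap {W : Set ℂ} {f : ℂ → ℂ} {S : Set ℂ} (hf : FT W f S) (h0 : (0 : ℂ) ∈ W)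
    (hf0 : f 0 = 0) {lam : ℂ} (hlam : ‖lam‖ = 1) (hf1 : deriv f 0 = lam) :
    ∃ ρ : ℝ, 0 < ρ ∧ ∃ e : ℕ, ∀ V : ℝ, 2 ≤ V → ∃ (a : ℂ) (δ : ℝ), 0 < δ ∧ ‖a‖ + 1 ≤ V ^ e ∧
      1 ≤ δ * V ^ e ∧ ∀ z ∈ ball a (4 * δ), ρ ≤ ‖z‖ ∧ ‖f z‖ < 1 / V ^ 3 := by
  have ha : AnalyticAt ℂ f 0 := hf.diff.analyticAt (hf.opn.mem_nhds h0)
  obtain ⟨ρ', hρ', hloc⟩ := Metric.mem_nhds_iff.1 (inter_mem (hf.opn.mem_nhds h0) (inter_mem
    ((ha.deriv.continuousAt.sub_const lam).norm.eventually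
      (eventually_le_nhds (b := 1 / 2) (by simp [hf1])))
    ((hf.fin.sdiff (t := {0})).isClosed.isOpen_compl.mem_nhds (x := 0) (fun h => h.2 rfl))))
  obtain ⟨ρ, hρ, hρ1, hρ2⟩ : ∃ ρ : ℝ, 0 < ρ ∧ ρ ≤ 1 ∧ 2 * ρ ≤ ρ' :=
    ⟨min 1 (ρ' / 2), by positivity, min_le_left _ _, by linarith [min_le_right 1 (ρ' / 2)]⟩
  have hfd : DifferentiableOn ℂ f (ball 0 ρ') := hf.diff.mono fun z hz => (hloc hz).1
  have hlip : ∀ a ∈ ball (0 : ℂ) ρ', ∀ b ∈ ball (0 : ℂ) ρ',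
      ‖a - b‖ / 2 ≤ ‖f a - f b‖ ∧ ‖f a - f b‖ ≤ 3 / 2 * ‖a - b‖ := by
    intro a ha b hb
    have h1 := mvt (F := fun z => f z - lam * z) (C := 1 / 2) (hfd.sub (by fun_prop))
      (fun w hw => by
        rw [((diffAt hfd hw).hasDerivAt.fun_sub ((hasDerivAt_id' w).const_mul lam)).deriv, mul_one]
        exact (hloc hw).2.1) ha hb
    rw [show f a - lam * a - (f b - lam * b) = f a - f b - lam * (a - b) by ring] at h1
    have h2 := abs_le.1 ((abs_norm_sub_norm_le (f a - f b) (lam * (a - b))).trans h1)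
    rw [norm_mul, hlam, one_mul] at h2
    constructor <;> linarith [h2.1, h2.2]
  have hy : ‖((ρ / 50 : ℝ) : ℂ)‖ = ρ / 50 := by
    rw [Complex.norm_real, Real.norm_eq_abs, abs_of_pos (by positivity)]
  generalize ((ρ / 50 : ℝ) : ℂ) = y at hy
  have hyb : y ∈ ball (0 : ℂ) ρ' := by rw [mem_ball_zero_iff]; linarith
  have hw := hlip y hyb 0 (mem_ball_self hρ')
  rw [hf0, sub_zero, sub_zero, hy] at hw
  have hw0 : f y ≠ 0 := norm_pos_iff.1 (by linarith [hw.1])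
  have he2 : Real.exp 2 < 8 := by
    rw [show (2 : ℝ) = 1 + 1 by norm_num, Real.exp_add]
    nlinarith [Real.exp_one_lt_d9, Real.exp_pos 1]
  have hσ : ∀ ζ : ℂ, ∀ T : ℝ, ζ.re < 2 - T → ‖f y * exp ζ‖ < ρ / 2 * Real.exp (-T) := by
    intro ζ T h
    have h1 : Real.exp ζ.re < Real.exp 2 * Real.exp (-T) := by
      rw [← Real.exp_add]; exact Real.exp_lt_exp.2 (by linarith)
    have h2 := Real.exp_pos (-T)
    have h3 := Real.exp_pos ζ.re
    rw [norm_mul, Complex.norm_exp]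
    calc _ ≤ 3 / 2 * (ρ / 50) * (8 * Real.exp (-T)) :=
          mul_le_mul hw.2 (by nlinarith) h3.le (by positivity)
      _ < _ := by nlinarith
  have hσ' : ∀ ζ : ℂ, ζ.re < 2 → ‖f y * exp ζ‖ < ρ / 2 := fun ζ h => by
    simpa using hσ ζ 0 (by simpa using h)
  have hσS : ∀ ζ : ℂ, ζ.re < 2 → f y * exp ζ ∉ S := fun ζ h hS =>
    (hloc (mem_ball_zero_iff.2 (by linarith [hσ' ζ h]))).2.2
      ⟨hS, mul_ne_zero hw0 (Complex.exp_ne_zero _)⟩
  obtain ⟨a₀, ha₀, hne, hfa₀⟩ := hf.mate y (hloc hyb).1 (by simpa using hσS 0 (by simp))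
  have hρa : ρ < ‖a₀‖ := by
    by_contra h
    have h1 := (hlip a₀ (mem_ball_zero_iff.2 (by linarith)) y hyb).1
    rw [hfa₀, sub_self, norm_zero] at h1
    exact hne (sub_eq_zero.1 (norm_le_zero_iff.1 (by linarith)))
  have hHo : IsOpen {ζ : ℂ | ζ.re < 2} := isOpen_lt Complex.continuous_re continuous_const
  obtain ⟨G, g1, g2, g3⟩ := hf.lift _ (convex_halfSpace_re_lt 2) hHo (fun ζ => f y * exp ζ)
    (by fun_prop) hσS 0 (by simp) a₀ ha₀ (by simp [hfa₀])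
  have hG : ∀ ζ : ℂ, ζ.re < 2 → ρ < ‖G ζ‖ := by
    intro ζ h
    by_contra hc
    obtain ⟨ζ', h1, h2⟩ := (convex_halfSpace_re_lt 2).isPreconnected.intermediate_value
      (f := fun ζ => ‖G ζ‖) (a := ζ) h (b := 0) (by simp) g1.norm
      (show ρ ∈ Icc ‖G ζ‖ ‖G 0‖ from ⟨not_lt.1 hc, by rw [g2]; exact hρa.le⟩)
    simp only at h2
    have h3 := (hlip (G ζ') (mem_ball_zero_iff.2 (by linarith)) 0 (mem_ball_self hρ')).1
    rw [hf0, sub_zero, sub_zero, (g3 ζ' h1).2, h2] at h3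
    linarith [hσ' ζ' h1]
  have hG0 : ∀ ζ : ℂ, ζ.re < 2 → G ζ ≠ 0 := fun ζ h => norm_pos_iff.1 (hρ.trans (hG ζ h))
  have hGd : ∀ ζ : ℂ, ζ.re < 2 → ∃ d, d ≠ 0 ∧ HasDerivAt G d ζ := by
    intro ζ h
    have h1 : f y * exp ζ ≠ 0 := mul_ne_zero hw0 (Complex.exp_ne_zero _)
    have h2 := hf.crit (g3 ζ h).1 (by rw [(g3 ζ h).2]; exact hσS ζ h)
    have h3 : f (G ζ) / (f y * exp ζ) = 1 := by rw [(g3 ζ h).2, div_self h1]
    have h4 := (((hf.diff.differentiableAt (hf.opn.mem_nhds (g3 ζ h).1)).hasDerivAt.div_const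
      (f y * exp ζ)).clog (by rw [h3]; exact Complex.one_mem_slitPlane)).add_const ζ
    rw [h3, div_one] at h4
    refine ⟨_, inv_ne_zero (div_ne_zero h2 h1), HasDerivAt.of_local_left_inverse
      (g1.continuousAt (hHo.mem_nhds h)) h4 (div_ne_zero h2 h1) ?_⟩
    filter_upwards [hHo.mem_nhds h, ball_mem_nhds ζ Real.pi_pos] with η e1 e2
    rw [mem_ball, dist_eq_norm] at e2
    have e3 := abs_lt.1 ((Complex.abs_im_le_norm _).trans_lt e2)
    rw [(g3 η e1).2, mul_div_mul_left _ _ hw0, ← Complex.exp_sub, Complex.log_exp e3.1 e3.2.le]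
    ring
  have hρc : (ρ : ℂ) ≠ 0 := by exact_mod_cast hρ.ne'
  have hρn : ‖(ρ : ℂ)‖ = ρ := by rw [Complex.norm_real, Real.norm_eq_abs, abs_of_pos hρ]
  set φ : ℂ → ℂ := fun ζ => ρ * (G ζ)⁻¹ with hφ
  have hφd : ∀ ζ : ℂ, ζ.re < 2 → DifferentiableAt ℂ φ ζ ∧ deriv φ ζ ≠ 0 := by
    intro ζ h
    obtain ⟨d, d0, d1⟩ := hGd ζ h
    have h1 := (d1.fun_inv (hG0 ζ h)).const_mul (ρ : ℂ)
    exact ⟨h1.differentiableAt, by
      rw [h1.deriv]
      exact mul_ne_zero hρc (div_ne_zero (neg_ne_zero.2 d0) (pow_ne_zero _ (hG0 ζ h)))⟩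
  have hφb : ∀ ζ : ℂ, ζ.re < 2 → ‖φ ζ‖ ≤ 1 := by
    intro ζ h
    simp only [hφ]
    rw [norm_mul, norm_inv, hρn, ← div_eq_mul_inv, div_le_one (hρ.trans (hG ζ h))]
    exact (hG ζ h).le
  have hre : ∀ c ζ : ℂ, ζ ∈ ball c 1 → ζ.re < c.re + 1 := by
    intro c ζ h
    rw [mem_ball, dist_eq_norm] at h
    have := (Complex.re_le_norm _).trans_lt h
    rw [sub_re] at this
    linarith
  have hφ1 : ∀ ζ : ℂ, ζ.re < 1 → ‖deriv φ ζ‖ ≤ 2 := by
    intro ζ h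
    simpa using deriv_bound (F := φ) (c := ζ) (z := ζ) (R := 1) (M := 1) (s := 1)
      (fun w hw => (hφd w (by linarith [hre ζ w hw])).1.differentiableWithinAt)
      (fun w hw => hφb w (by linarith [hre ζ w hw])) one_pos (by simp)
  obtain ⟨A, hA, hlow⟩ := deriv_lower (fun ζ h => (hφd ζ h).1.differentiableWithinAt) hφ1
    fun ζ h => (hφd ζ h).2
  have hβ0 : 0 < ‖deriv φ 0‖ := norm_pos_iff.2 (hφd 0 (by simp)).2
  obtain ⟨n, hn⟩ := exists_nat_ge (3 * A)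
  obtain ⟨k, hk⟩ := pow_unbounded_of_one_lt (1024 / (ρ * ‖deriv φ 0‖ ^ 2) + 1)
    (by norm_num : (1 : ℝ) < 2)
  refine ⟨ρ, hρ, k + n * 2, fun V hV => ?_⟩
  have hV0 : 0 < V := by linarith
  have hT : 0 ≤ Real.log V := Real.log_nonneg (by linarith)
  have hexp : ∀ j : ℕ, Real.exp (-(j * Real.log V)) = 1 / V ^ j := fun j => by
    rw [Real.exp_neg, Real.exp_nat_mul, Real.exp_log hV0, one_div]
  obtain ⟨T, hT'⟩ : ∃ T : ℝ, T = 3 * Real.log V := ⟨_, rfl⟩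
  have hT0 : 0 ≤ T := by linarith
  have hcre : (-(T : ℂ)).re = -T := by simp
  have hβ : ‖deriv φ 0‖ / V ^ n ≤ ‖deriv φ (-T)‖ := by
    refine le_trans ?_ (hlow T hT0)
    rw [← mul_one_div, ← hexp]
    refine mul_le_mul_of_nonneg_left (Real.exp_le_exp.2 ?_) hβ0.le
    rw [hT']
    nlinarith
  have himg := landau (φ := φ) (c := -T)
    (fun ζ h => (hφd ζ (by linarith [hre _ ζ h])).1.differentiableWithinAt)
    (fun ζ h => hφ1 ζ (by linarith [hre _ ζ h])) (hφd _ (by linarith)).2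
  have hβ2 := hφ1 (-T) (by linarith)
  have hβp : 0 < ‖deriv φ (-T)‖ := lt_of_lt_of_le (by positivity) hβ
  obtain ⟨η, hη⟩ : ∃ η : ℝ, η = ‖deriv φ (-T)‖ ^ 2 / 64 := ⟨_, rfl⟩
  rw [← hη] at himg
  have hη0 : 0 < η := by rw [hη]; positivity
  have hη1 : η ≤ 1 := by rw [hη]; nlinarith
  have hC : 16 / (ρ * η) ≤ 1024 / (ρ * ‖deriv φ 0‖ ^ 2) * (V ^ n) ^ 2 := by
    have h1 : (‖deriv φ 0‖ / V ^ n) ^ 2 / 64 ≤ η := by rw [hη]; gcongr
    calc _ ≤ 16 / (ρ * ((‖deriv φ 0‖ / V ^ n) ^ 2 / 64)) := by gcongr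
      _ = _ := by field_simp; norm_num
  have hC' : 16 / (ρ * η) + 1 ≤ V ^ (k + n * 2) := by
    have h1 : (1 : ℝ) ≤ (V ^ n) ^ 2 := one_le_pow₀ (one_le_pow₀ (by linarith))
    have h2 : (2 : ℝ) ^ k ≤ V ^ k := by gcongr
    rw [pow_add, pow_mul]
    nlinarith
  obtain ⟨u, hu1, hu2⟩ : ∃ u : ℂ, ‖u - φ (-T)‖ = η / 2 ∧ η / 2 ≤ ‖u‖ := by
    have h1 : ‖((η / 2 : ℝ) : ℂ)‖ = η / 2 := by
      rw [Complex.norm_real, Real.norm_eq_abs, abs_of_pos (by positivity)]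
    generalize ((η / 2 : ℝ) : ℂ) = p at h1
    by_cases h : η / 2 ≤ ‖φ (-T) + p‖
    · exact ⟨_, by simpa using h1, h⟩
    · refine ⟨φ (-T) - p, by simpa using h1, ?_⟩
      have h2 := norm_sub_le (φ (-T) + p) (φ (-T) - p)
      rw [show φ (-T) + p - (φ (-T) - p) = 2 * p by ring, norm_mul, h1, Complex.norm_two] at h2
      linarith
  have hu0 : 0 < ‖u‖ := by linarith
  have hu3 : ‖u‖ ≤ 1 := by
    obtain ⟨ζ, h1, h2⟩ := himg u (by linarith)
    rw [← h2]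
    exact hφb ζ (by linarith [hre _ ζ h1])
  have han : ‖(ρ : ℂ) / u‖ = ρ / ‖u‖ := by rw [norm_div, hρn]
  have ha1 : ρ ≤ ‖(ρ : ℂ) / u‖ := by rw [han, le_div_iff₀ hu0]; nlinarith
  refine ⟨ρ / u, ρ * η / 16, by positivity, le_trans ?_ hC', ?_, fun z hz => ?_⟩
  · rw [han, add_le_add_iff_right, div_le_div_iff₀ hu0 (by positivity)]
    nlinarith [mul_le_one₀ hρ1 hρ.le hρ1]
  · have h1 : 16 / (ρ * η) ≤ V ^ (k + n * 2) := by linarith
    rw [div_le_iff₀ (by positivity)] at h1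
    linarith
  · rw [mem_ball, dist_eq_norm] at hz
    have h1 : ρ / 2 ≤ ‖z‖ := by
      have := norm_le_norm_sub_add ((ρ : ℂ) / u) z
      rw [norm_sub_rev] at this
      nlinarith
    have hz0 : z ≠ 0 := norm_pos_iff.1 (by linarith)
    have hu' : u ≠ 0 := norm_pos_iff.1 hu0
    have h2 : ‖(ρ : ℂ) * z⁻¹ - u‖ < η / 2 := by
      rw [show (ρ : ℂ) * z⁻¹ - u = -(u * (z - ρ / u) / z) by field_simp; ring, norm_neg, norm_div,
        norm_mul, div_lt_iff₀ (by linarith)]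
      nlinarith [norm_nonneg (z - ρ / u)]
    obtain ⟨ζ, h3, h4⟩ := himg (ρ * z⁻¹) (by
      have := norm_add_le ((ρ : ℂ) * z⁻¹ - u) (u - φ (-T))
      rw [sub_add_sub_cancel] at this
      linarith)
    have h5 : G ζ = z := inv_injective (mul_left_cancel₀ hρc h4)
    have h6 := hre _ ζ h3
    rw [← h5, (g3 ζ (show ζ.re < 2 by linarith)).2]
    refine ⟨(hG ζ (by linarith)).le, (hσ ζ T (by linarith)).trans_le ?_⟩
    rw [← hexp 3, hT']
    push_cast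
    nlinarith [Real.exp_pos (-(3 * Real.log V))]

end Pool.Agent.Lib.MP_27cd7e_an
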