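import Pool.Agent.Lib.MP_27cd7e_an.Main
import Pool.Agent.Lib.MP_27cd7e_an.FtCore
import Pool.Agent.Lib.MP_27cd7e_an.FtTrap

set_option autoImplicit false

namespace Pool.Agent.Lib.MP_27cd7e_an

open Metric Set Complex Filter Topology

lemma caseA2 {U S : Set ℂ} {f : ℂ → ℂ} {lam : ℂ} {M : ℕ} (hf : FT U f S)
    (hlam : ‖lam‖ = 1) (hf0 : f 0 = 0) (hf1 : deriv f 0 = lam) (hm : S.ncard < M) (hM : 100 ≤ M)
    (h1 : ∀ z ∈ ball (0 : ℂ) (1 / M), z ∈ U ∧ ‖deriv f z‖ ≤ M)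
    (h2 : ∀ z : ℂ, z ≠ 0 → ∀ m, 1 ≤ m → (∀ i, f^[i] z ∈ ball (0 : ℂ) (1 / M)) → f^[m] z ≠ z)
    (h3 : ∀ V : ℝ, 2 ≤ V → ∃ (a : ℂ) (δ : ℝ), 0 < δ ∧ ‖a‖ + 1 ≤ V ^ M ∧ 1 ≤ δ * V ^ M ∧
      ∀ z ∈ ball a (4 * δ), 1 / M ≤ ‖z‖ ∧ ‖f z‖ < 1 / V ^ 3)
    (q : ℕ) (hq : 1 ≤ q) (hδ : lam ^ q - 1 ≠ 0)
    (hdiv : ∀ m : ℕ, 1 ≤ m → m < q → 1 / (16 * (q : ℝ) ^ 4) ≤ ‖lam ^ m - 1‖) :
    Real.exp (-(2 * M * 2352 * M * (M + 1) ^ 2 * q ^ 3)) ≤ ‖lam ^ q - 1‖ := by
  by_contra hc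
  push Not at hc
  have hM' : (100 : ℝ) ≤ M := by exact_mod_cast hM
  obtain ⟨Z, hZ⟩ : ∃ Z : ℝ, Z = (2 * M) ^ q := ⟨_, rfl⟩
  obtain ⟨ν, hν⟩ : ∃ ν : ℕ, ν = (M + 1) * q := ⟨_, rfl⟩
  have hν1 : 1 ≤ ν := by rw [hν]; nlinarith
  have hZM : 2 * M ≤ Z := hZ ▸ le_self_pow₀ (by linarith) (by omega)
  have hZ1 : 1 ≤ Z := by linarith
  obtain ⟨μ, hμ⟩ : ∃ μ : ℕ, μ = M * ν := ⟨_, rfl⟩
  have hμ1 : ν ≤ μ := by rw [hμ]; nlinarith
  have hμ2 : M ≤ μ := by rw [hμ]; nlinarith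
  obtain ⟨W, hW⟩ : ∃ W : ℝ, W = Z ^ (48 * ν) := ⟨_, rfl⟩
  have hZW : Z ^ 48 ≤ W := hW ▸ pow_le_pow_right₀ hZ1 (by omega)
  have hZp : ∀ {a b : ℕ}, a ≤ b → Z ^ a ≤ Z ^ b := fun h => pow_le_pow_right₀ hZ1 h
  have hZW' : ∀ a : ℕ, a ≤ 47 → 200 * Z ^ a ≤ W := by
    intro a ha
    have h4 := hZp (by omega : a + 1 ≤ 48)
    rw [pow_succ] at h4
    have : 0 < Z ^ a := by positivity
    nlinarith
  have hW1 : 200 * Z ≤ W := by simpa using hZW' 1 (by norm_num)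
  have hW0 : 1 ≤ W := by linarith
  have hWp : ∀ {a b : ℕ}, a ≤ b → W ^ a ≤ W ^ b := fun h => pow_le_pow_right₀ hW0 h
  have hZ0 : 0 < Z := by linarith
  have hW0' : 0 < W := by linarith
  have hδW : ‖lam ^ q - 1‖ ≤ 1 / W ^ (49 * μ) := by
    refine hc.le.trans ?_
    rw [Real.exp_neg, one_div]
    refine inv_anti₀ (by positivity) ?_
    rw [hW, hZ, ← pow_mul, ← pow_mul]
    calc (2 * M : ℝ) ^ (q * (48 * ν * (49 * μ))) ≤ Real.exp (2 * M) ^ (q * (48 * ν * (49 * μ))) :=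
          pow_le_pow_left₀ (by linarith) (by linarith [Real.add_one_le_exp (2 * (M : ℝ))]) _
      _ = _ := by
          rw [← Real.exp_nat_mul, hμ, hν]
          congr 1
          push_cast
          ring
  have hB : (2 * 2 / (1 / Z ^ 11)) ^ (4 * ν) * Z ≤ W * Z := by
    refine mul_le_mul_of_nonneg_right ?_ hZ0.le
    rw [hW, show 48 * ν = 12 * (4 * ν) by ring, pow_mul Z 12]
    refine pow_le_pow_left₀ (by positivity) ?_ _
    rw [show 2 * 2 / (1 / Z ^ 11) = 4 * Z ^ 11 by field_simp; norm_num, pow_succ Z 11]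
    nlinarith [pow_pos hZ0 11]
  have hfd : DifferentiableOn ℂ f (ball 0 (1 / M)) := fun z hz =>
    (hf.diff.differentiableAt (hf.opn.mem_nhds (h1 z hz).1)).differentiableWithinAt
  have hr : Z * (1 / Z ^ 2) ≤ 1 / M / 2 := by
    rw [show Z * (1 / Z ^ 2) = 1 / Z by field_simp, div_div]
    exact one_div_le_one_div_of_le (by linarith) (by linarith)
  have hM1 : (M + 1) * (1 / Z ^ 8) ≤ 1 / Z ^ 7 := by
    rw [mul_one_div, div_le_div_iff₀ (by positivity) (by positivity), pow_succ Z 7]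
    nlinarith [pow_pos hZ0 7]
  obtain ⟨a, δ, hδ0, haR, hδR, htrap⟩ := h3 W (by linarith)
  refine core2 (ρ := 1 / M) (L := M) (r := 1 / Z ^ 2) (t := 1 / Z ^ 8) (κ := 2 / Z ^ 11)
    (σ := 1 / Z ^ 11) (b := 1 / Z ^ 2) (s := 1 / W ^ 3) (R := W ^ M) (ε := 1 / W ^ (20 * μ))
    (τ := 1 / W ^ (20 * μ + 4)) (ν := ν) hf hlam hf0 hf1 hm
    ((div_le_one (by linarith)).2 (by linarith)) (by linarith) h1 hδ0 haR hδR htrap hq hZ
    (by positivity) hr ?_ (by positivity) (by positivity) ?_ ?_ (by positivity) ?_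
    ((div_le_one (by positivity)).2 (one_le_pow₀ hZ1)) (fun j hj hj' => le_trans ?_ (hdiv j hj hj'))
    hν.ge (by positivity) ?_ rfl (by positivity) ?_ ?_ ?_
  · refine harnack (L := 2 * M) (ρ := 1 / M) hq (by linarith) (by positivity) (by positivity)
      (by rw [← hZ]; refine hr.trans ?_; have : (0 : ℝ) < 1 / M := by positivity
          linarith)
      hfd hf0 hf1 (fun z hz => by linarith [(h1 z hz).2]) h2 hδ
      (hδW.trans ((div_le_one (by positivity)).2 (one_le_pow₀ hW0))) (by positivity) ?_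
    rw [← hZ, one_div_pow, ← pow_mul]
    refine (mul_le_mul (by linarith : 2 * Z ≤ W) hδW (norm_nonneg _) hW0'.le).trans ?_
    rw [mul_one_div, div_le_div_iff₀ (by positivity) (by positivity), ← pow_succ', one_mul]
    exact hWp (by omega)
  · refine hM1.trans ?_
    rw [div_div]
    refine one_div_le_one_div_of_le (by positivity) ?_
    have := hZp (by norm_num : 3 ≤ 7)
    rw [pow_succ Z 2] at this
    nlinarith [pow_pos hZ0 2]
  · calc _ ≤ 2 * Z / (1 / Z ^ 2) * (1 / Z ^ 7) * (1 / Z ^ 7) := by gcongr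
      _ = _ := by field_simp
  · rw [show 1 / Z ^ 11 + 2 * (2 / Z ^ 11) = 5 / Z ^ 11 by ring,
      show 1 / Z ^ 2 * (1 / Z ^ 8) = Z / Z ^ 11 by field_simp]
    gcongr
    linarith
  · refine one_div_le_one_div_of_le (by positivity) ?_
    have h4 : (q : ℝ) ≤ 2 ^ q := by exact_mod_cast (Nat.lt_two_pow_self).le
    have h5 : (2 : ℝ) ≤ 2 ^ q := le_self_pow₀ (by norm_num) (by omega)
    calc 16 * (q : ℝ) ^ 4 = (2 * q) ^ 4 := by ring
      _ ≤ (2 ^ q * 2 ^ q) ^ 4 := by gcongr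
      _ = (16 ^ q) ^ 2 := by
          rw [← mul_pow, ← pow_mul, ← pow_mul, mul_comm q 4, mul_comm q 2, pow_mul, pow_mul]
          norm_num
      _ ≤ Z ^ 2 := by
          rw [hZ]
          gcongr
          linarith
  · have h4 : (2 * (W ^ M) ^ 3 / (1 / Z ^ 11)) ^ (4 * ν) ≤ (W ^ (M * 3 + 1)) ^ (4 * ν) := by
      refine pow_le_pow_left₀ (by positivity) ?_ _
      rw [show 2 * (W ^ M) ^ 3 / (1 / Z ^ 11) = (W ^ M) ^ 3 * (2 * Z ^ 11) by field_simp,
        pow_succ W, pow_mul]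
      refine mul_le_mul_of_nonneg_left ?_ (by positivity)
      linarith [hZW' 11 (by norm_num), pow_pos hZ0 11]
    calc _ ≤ W * W ^ M * (1 / W ^ (20 * μ) * (W ^ (M * 3 + 1)) ^ (4 * ν)) := by
          gcongr
          linarith
      _ = W ^ (M + 1 + (M * 3 + 1) * (4 * ν)) / W ^ (20 * μ) := by
          rw [← pow_mul, pow_add _ (M + 1), pow_succ' W M]
          field_simp
      _ ≤ 1 := by
          rw [div_le_one (by positivity)]
          refine hWp ?_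
          rw [show (M * 3 + 1) * (4 * ν) = 12 * μ + 4 * ν by rw [hμ]; ring]
          omega
  · calc _ ≤ 128 * (W * Z) * (1 / W ^ 3) := by gcongr
      _ = 128 * Z ^ 5 / W / W * (1 / Z ^ 2) ^ 2 := by field_simp
      _ ≤ _ := by
          refine mul_le_of_le_one_left (by positivity) ?_
          rw [div_le_one hW0', div_le_iff₀ hW0']
          nlinarith [hZW' 5 (by norm_num), pow_pos hZ0 5]
  · have h4 : 1 / W ≤ 1 / Z ^ 11 := one_div_le_one_div_of_le (by positivity)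
      (by linarith [hZW' 11 (by norm_num), pow_pos hZ0 11])
    have h5 : 1 / W ^ 3 ≤ 1 / W := one_div_le_one_div_of_le hW0' (by simpa using hWp (by norm_num : 1 ≤ 3))
    have h6 : 1 / W ^ (20 * μ) * ((2 * 2 / (1 / Z ^ 11)) ^ (4 * ν) * Z) ≤ 1 / W := by
      calc _ ≤ 1 / W ^ 3 * (W * W) := by
            refine mul_le_mul (one_div_le_one_div_of_le (by positivity) (hWp (by omega)))
              (hB.trans (mul_le_mul_of_nonneg_left (by linarith) hW0'.le)) (by positivity)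
              (by positivity)
        _ = _ := by field_simp
    have h7 : 4 / Z ^ 11 < 1 / Z ^ 8 / 2 := by
      rw [show 1 / Z ^ 8 / 2 = Z ^ 3 / 2 / Z ^ 11 by field_simp]
      refine div_lt_div_of_pos_right ?_ (by positivity)
      have := hZp (by norm_num : 1 ≤ 3)
      linarith
    have e : 4 / Z ^ 11 = 1 / Z ^ 11 + 2 / Z ^ 11 + 1 / Z ^ 11 := by ring
    linarith
  · rw [show 1 / W ^ (20 * μ) * (1 / W ^ 3) / 32 = W / 32 / W ^ (20 * μ + 4) by field_simp; ring]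
    gcongr
    linarith

lemma FT.bound {U S : Set ℂ} {f : ℂ → ℂ} {lam : ℂ} (hf : FT U f S) (h0 : (0 : ℂ) ∈ U)
    (hf0 : f 0 = 0) (hlam : ‖lam‖ = 1) (hd : deriv f 0 = lam) (ha : Aper f) : Bound lam := by
  obtain ⟨ρ, hρ, hap⟩ := ha
  obtain ⟨ρ', hρ', hloc⟩ : ∃ ρ' > 0, ∀ z ∈ ball (0 : ℂ) ρ', z ∈ U ∧ ‖deriv f z‖ ≤ 2 := by
    have h1 := (hf.diff.analyticAt (hf.opn.mem_nhds h0)).deriv.continuousAt.norm.eventually
      (eventually_le_nhds (b := 2) (by simp only [hd, hlam]; norm_num))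
    exact Metric.mem_nhds_iff.1 (inter_mem (hf.opn.mem_nhds h0) h1)
  obtain ⟨ρ₁, hρ₁, e, htrap⟩ := hf.trap h0 hf0 hlam hd
  obtain ⟨M, hM⟩ := exists_nat_gt (max (max (max 100 (e : ℝ)) (max (1 / ρ₁) (1 / ρ)))
    (max (1 / ρ') (S.ncard)))
  simp only [max_lt_iff] at hM
  obtain ⟨⟨⟨m1, m2⟩, m3, m4⟩, m5, m6⟩ := hM
  have hM0 : (0 : ℝ) < M := by linarith
  have s1 : ball (0 : ℂ) (1 / M) ⊆ ball 0 ρ :=
    ball_subset_ball ((one_div_le hM0 hρ).2 m4.le)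
  have s2 : ball (0 : ℂ) (1 / M) ⊆ ball 0 ρ' :=
    ball_subset_ball ((one_div_le hM0 hρ').2 m5.le)
  refine ⟨2 * M * 2352 * M * (M + 1) ^ 2, by positivity, caseA2 (M := M) hf hlam hf0 hd
    (by exact_mod_cast m6) (by exact_mod_cast m1.le)
    (fun z hz => ⟨(hloc z (s2 hz)).1, by linarith [(hloc z (s2 hz)).2]⟩)
    (fun z hz m hm h => hap z hz m hm fun i => s1 (h i)) fun V hV => ?_⟩
  obtain ⟨a, δ, k1, k2, k3, k4⟩ := htrap V hV
  have k5 : V ^ e ≤ V ^ M := pow_le_pow_right₀ (by linarith) (by exact_mod_cast m2.le)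
  exact ⟨a, δ, k1, k2.trans k5, k3.trans (mul_le_mul_of_nonneg_left k5 k1.le), fun z hz =>
    ⟨((one_div_le hM0 hρ₁).2 m3.le).trans (k4 z hz).1, (k4 z hz).2⟩⟩

theorem FT.linearizable {U S : Set ℂ} {f : ℂ → ℂ} (hf : FT U f S) (h0 : (0 : ℂ) ∈ U)
    (hf0 : f 0 = 0) {α : ℝ} (hα : Irrational α) (hd : deriv f 0 = exp (2 * Real.pi * I * α))
    (ha : Aper f) :
    ∃ h : ℂ → ℂ, ∃ r : ℝ, 0 < r ∧ AnalyticAt ℂ h 0 ∧ h 0 = 0 ∧ deriv h 0 ≠ 0 ∧
      ∀ z ∈ ball (0 : ℂ) r, f (h z) = h (exp (2 * Real.pi * I * α) * z) := by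
  have hlam : ‖exp (2 * Real.pi * I * α)‖ = 1 := by
    rw [show 2 * (Real.pi : ℂ) * I * α = ((2 * Real.pi * α : ℝ) : ℂ) * I by push_cast; ring]
    exact Complex.norm_exp_ofReal_mul_I _
  obtain ⟨C, hC0, hC⟩ := hf.bound h0 hf0 hlam hd ha
  obtain ⟨η, hη, hlin⟩ := linearize hα rfl hC0 hC
  generalize exp (2 * Real.pi * I * α) = lam at *
  have hfd : HasDerivAt f lam 0 :=
    hd ▸ (hf.diff.differentiableAt (hf.opn.mem_nhds h0)).hasDerivAt
  obtain ⟨ρ, hρ, hap⟩ := ha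
  obtain ⟨c, hc, hloc⟩ := Metric.mem_nhds_iff.1
    ((hfd.isLittleO.bound hη).and ((show ∀ᶠ z in 𝓝 (0 : ℂ), z ∈ U from hf.opn.mem_nhds h0).and
      (show ∀ᶠ z in 𝓝 (0 : ℂ), z ∈ ball (0 : ℂ) ρ from ball_mem_nhds 0 hρ)))
  have hc' : (c : ℂ) ≠ 0 := by exact_mod_cast hc.ne'
  have hn : ∀ w : ℂ, ‖(c : ℂ) * w‖ = c * ‖w‖ := fun w => by
    rw [norm_mul, Complex.norm_real, Real.norm_eq_abs, abs_of_pos hc]
  have hm : ∀ w ∈ ball (0 : ℂ) 1, (c : ℂ) * w ∈ ball (0 : ℂ) c := by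
    intro w hw
    rw [mem_ball_zero_iff] at hw ⊢
    rw [hn]; nlinarith
  obtain ⟨h, h1, h2, h3, h4⟩ := hlin (fun w => f (c * w) / c) ⟨fun w hw =>
      (((hf.diff.differentiableAt (hf.opn.mem_nhds (hloc (hm w hw)).2.1)).comp w
        (by fun_prop : DifferentiableAt ℂ (fun w => (c : ℂ) * w) w)).div_const
          _).differentiableWithinAt,
    by simp [hf0],
    by
      have := (HasDerivAt.comp_of_eq 0 hfd ((hasDerivAt_id' 0).const_mul (c : ℂ))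
        (by simp)).div_const (c : ℂ)
      exact this.deriv.trans (by field_simp),
    fun w hw => by
      have h1 := (hloc (hm w hw)).1
      simp only [hf0, sub_zero, smul_eq_mul] at h1
      rw [show f (c * w) / c - lam * w = (f (c * w) - c * w * lam) / c by field_simp, norm_div,
        Complex.norm_real, Real.norm_eq_abs, abs_of_pos hc, div_le_iff₀ hc]
      exact h1.trans (mul_le_mul_of_nonneg_left (mem_ball_zero_iff.1 (hm w hw)).le hη.le),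
    fun z hz m hm1 hi he => by
      have key : ∀ i, f^[i] (c * z) = c * (fun w => f (c * w) / c)^[i] z := by
        intro i
        induction i with
        | zero => rfl
        | succ i ih =>
          rw [Function.iterate_succ_apply', Function.iterate_succ_apply', ih]
          field_simp
      refine hap (c * z) (mul_ne_zero hc' hz) m hm1 (fun i => ?_) (by rw [key, he])
      rw [key]
      exact (hloc (hm _ (hi i))).2.2⟩
  have h5 : AnalyticAt ℂ h 0 := h1.analyticAt (ball_mem_nhds 0 (by norm_num))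
  refine ⟨fun w => c * h w, 1 / 4, by norm_num, analyticAt_const.mul h5, by simp [h2], ?_,
    fun z hz => ?_⟩
  · rw [(h5.differentiableAt.hasDerivAt.const_mul _).deriv]
    exact mul_ne_zero hc' h3
  · have := h4 z hz
    rw [div_eq_iff hc'] at this
    exact this.trans (mul_comm _ _)

theorem FT.small_cycles {V S : Set ℂ} {g : ℂ → ℂ} (hg : FT V g S) {z₀ : ℂ} (h0 : z₀ ∈ V)
    (hfix : g z₀ = z₀) {α : ℝ} (hα : Irrational α)
    (hmul : deriv g z₀ = exp (2 * Real.pi * I * α))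
    (hC : ¬ ∃ φ : ℂ → ℂ, AnalyticAt ℂ φ z₀ ∧ φ z₀ = 0 ∧ deriv φ z₀ ≠ 0 ∧
      ∀ᶠ w in 𝓝 z₀, φ (g w) = exp (2 * Real.pi * I * α) * φ w)
    {U : Set ℂ} (hU : U ∈ 𝓝 z₀) :
    {c : Set ℂ | c ⊆ U ∧ ∃ x : ℂ, ∃ m : ℕ, 1 ≤ m ∧ g^[m] x = x ∧
      c = {y | ∃ k < m, g^[k] x = y}}.Infinite := by
  intro hfin
  set f : ℂ → ℂ := fun z => g (z + z₀) - z₀ with hf
  have hS : (⋃₀ {c : Set ℂ | c ⊆ U ∧ ∃ x : ℂ, ∃ m : ℕ, 1 ≤ m ∧ g^[m] x = x ∧
      c = {y | ∃ k < m, g^[k] x = y}}).Finite := by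
    refine hfin.sUnion ?_
    rintro c ⟨-, x, m, -, -, rfl⟩
    exact ((Set.finite_lt_nat m).image fun k => g^[k] x).subset fun y ⟨k, hk, h⟩ => ⟨k, hk, h⟩
  have hS' := (hS.sdiff (t := {z₀})).isClosed.isOpen_compl.mem_nhds (x := z₀) (fun h => h.2 rfl)
  obtain ⟨ρ, hρ, hloc⟩ := Metric.mem_nhds_iff.1 (Filter.inter_mem hS' hU)
  have hap : Aper f := by
    refine ⟨ρ, hρ, fun z hz m hm hi he => ?_⟩
    have key : ∀ i, g^[i] (z + z₀) = f^[i] z + z₀ := by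
      intro i
      induction i with
      | zero => rfl
      | succ i ih =>
        rw [Function.iterate_succ_apply', Function.iterate_succ_apply', ih, hf]
        simp
    have hin : ∀ i, f^[i] z + z₀ ∈ ball z₀ ρ := fun i => by simpa using hi i
    refine (hloc (hin 0)).1 ⟨⟨{y | ∃ k < m, g^[k] (z + z₀) = y},
      ⟨?_, z + z₀, m, hm, ?_, rfl⟩, 0, hm, rfl⟩, by simpa using hz⟩
    · rintro y ⟨k, -, rfl⟩
      rw [key]
      exact (hloc (hin k)).2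
    · rw [key, he]
  obtain ⟨h, r, hr, h1, h2, h3, h4⟩ := (hg.shift z₀).linearizable (by simpa using h0)
    (by simp [hfix]) hα (by rw [deriv_sub_const, deriv_comp_add_const, zero_add, hmul]) hap
  generalize exp (2 * Real.pi * I * α) = lam at *
  apply hC
  have hφ := h1.analyticAt_localInverse h3
  have hl := h1.hasStrictDerivAt.eventually_left_inverse h3
  have hr' := h1.hasStrictDerivAt.eventually_right_inverse h3
  have hder := (h1.hasStrictDerivAt.to_localInverse h3).hasDerivAt.deriv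
  have h5 := hl.self_of_nhds
  rw [h2] at hφ hr' hder h5
  generalize h1.hasStrictDerivAt.localInverse h (deriv h 0) 0 h3 = φ at *
  have ht : Tendsto φ (𝓝 0) (𝓝 0) := by simpa [h5] using hφ.continuousAt.tendsto
  have ht' : Tendsto (fun w => lam * φ w) (𝓝 0) (𝓝 0) := by simpa using ht.const_mul lam
  have hsh : Tendsto (fun w => w - z₀) (𝓝 z₀) (𝓝 0) := by
    simpa using ((continuous_sub_right z₀).tendsto z₀)
  refine ⟨fun w => φ (w - z₀), AnalyticAt.comp_of_eq (f := fun w => w - z₀) hφ (by fun_prop)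
    (sub_self _), by simp [h5], ?_, ?_⟩
  · rw [deriv_comp_sub_const, sub_self, hder]
    exact inv_ne_zero h3
  · filter_upwards [hsh.eventually hr', hsh.eventually (ht.eventually (Metric.ball_mem_nhds 0 hr)),
      hsh.eventually (ht'.eventually hl)] with w e1 e2 e3
    have e4 := h4 _ e2
    rw [e1, sub_add_cancel] at e4
    rw [← e3, ← e4]

end Pool.Agent.Lib.MP_27cd7e_an
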