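import Mathlib

set_option autoImplicit false

namespace Pool.Agent.Lib.MP_27cd7e_an

open Metric Set Complex Filter Topology

lemma schwarz0 {F : ℂ → ℂ} {c z : ℂ} {R M : ℝ} (hF : DifferentiableOn ℂ F (ball c R))
    (h0 : F c = 0) (hM : ∀ w ∈ ball c R, ‖F w‖ ≤ M) (hz : z ∈ ball c R) :
    ‖F z‖ ≤ M / R * ‖z - c‖ := by
  have := Complex.dist_le_div_mul_dist_of_mapsTo_ball (R₂ := M) hF
    (fun w hw => by simpa [h0] using hM w hw) hz
  simpa [h0, dist_eq_norm] using this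

lemma deriv_bound {F : ℂ → ℂ} {c z : ℂ} {R M s : ℝ} (hF : DifferentiableOn ℂ F (ball c R))
    (hM : ∀ w ∈ ball c R, ‖F w‖ ≤ M) (hs : 0 < s) (hz : ‖z - c‖ + s ≤ R) :
    ‖deriv F z‖ ≤ 2 * M / s := by
  have hsub : ball z s ⊆ ball c R := ball_subset_ball' (by rw [dist_eq_norm]; linarith)
  refine Complex.norm_deriv_le_div_of_mapsTo_ball (hF.mono hsub) (fun w hw => ?_) hs
  rw [mem_closedBall, dist_eq_norm]
  have h1 := hM w (hsub hw)
  have h2 := hM z (hsub (mem_ball_self hs))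
  linarith [norm_sub_le (F w) (F z)]

lemma mvt {F : ℂ → ℂ} {c a b : ℂ} {R C : ℝ} (hF : DifferentiableOn ℂ F (ball c R))
    (hC : ∀ w ∈ ball c R, ‖deriv F w‖ ≤ C) (ha : a ∈ ball c R) (hb : b ∈ ball c R) :
    ‖F a - F b‖ ≤ C * ‖a - b‖ :=
  (convex_ball c R).norm_image_sub_le_of_norm_deriv_le
    (fun w hw => hF.differentiableAt (isOpen_ball.mem_nhds hw)) hC hb ha

lemma diffAt {F : ℂ → ℂ} {c z : ℂ} {R : ℝ} (hF : DifferentiableOn ℂ F (ball c R))
    (hz : z ∈ ball c R) : DifferentiableAt ℂ F z :=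
  hF.differentiableAt (isOpen_ball.mem_nhds hz)

lemma exists_prim {F : ℂ → ℂ} {R : ℝ} (hF : DifferentiableOn ℂ F (ball 0 R)) :
    ∃ A : ℂ → ℂ, A 0 = 0 ∧ ∀ z ∈ ball (0 : ℂ) R, HasDerivAt A (F z) z :=
  hF.isExactOn_ball.with_val_at 0 0

lemma exists_log {U : ℂ → ℂ} {R : ℝ} (hU : DifferentiableOn ℂ U (ball 0 R))
    (h0 : ∀ z ∈ ball (0 : ℂ) R, U z ≠ 0) :
    ∃ v : ℂ → ℂ, DifferentiableOn ℂ v (ball 0 R) ∧ v 0 = 0 ∧
      ∀ z ∈ ball (0 : ℂ) R, U z = U 0 * exp (v z) := by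
  obtain ⟨v, hv0, hv⟩ := exists_prim (F := fun z => deriv U z / U z)
    ((hU.deriv isOpen_ball).div hU h0)
  refine ⟨v, fun z hz => (hv z hz).differentiableAt.differentiableWithinAt, hv0, fun z hz => ?_⟩
  have hd : ∀ w ∈ ball (0 : ℂ) R, HasDerivAt (fun w => U w * exp (-v w)) 0 w := by
    intro w hw
    have h1 := ((diffAt hU hw).hasDerivAt.fun_mul (hv w hw).fun_neg.cexp)
    refine h1.congr_deriv ?_
    have := h0 w hw
    field_simp
    ring
  have hR : (0 : ℂ) ∈ ball (0 : ℂ) R := mem_ball_self (pos_of_mem_ball hz)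
  have h2 := mvt (F := fun w => U w * exp (-v w)) (C := 0)
    (fun w hw => (hd w hw).differentiableAt.differentiableWithinAt)
    (fun w hw => by rw [(hd w hw).deriv]; simp) hz hR
  have h3 : U z * exp (-v z) = U 0 := by
    have : U z * exp (-v z) - U 0 * exp (-v 0) = 0 := by
      simpa using h2
    rw [hv0] at this
    simpa [sub_eq_zero] using this
  rw [← h3, mul_assoc, ← exp_add]
  simp

lemma coeff_bound {F : ℂ → ℂ} {R M : ℝ} (hF : DifferentiableOn ℂ F (ball 0 R))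
    (hM : ∀ w ∈ ball (0 : ℂ) R, ‖F w‖ ≤ M) {s : ℝ} (hs : 0 < s) (hsR : s < R) (n : ℕ) :
    ‖((n.factorial : ℂ))⁻¹ * iteratedDeriv n F 0‖ * s ^ n ≤ M := by
  have h1 := Complex.norm_iteratedDeriv_le_of_forall_mem_sphere_norm_le (c := 0) (R := s) (C := M)
    (f := F) n hs
    ((hF.mono (closedBall_subset_ball hsR)).diffContOnCl_ball subset_rfl)
    (fun z hz => hM z (by rw [mem_sphere_zero_iff_norm] at hz; simpa [hz] using hsR))
  rw [norm_mul, norm_inv, Complex.norm_natCast]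
  have h2 : (0 : ℝ) < n.factorial := by exact_mod_cast n.factorial_pos
  have h3 : 0 < s ^ n := pow_pos hs n
  rw [le_div_iff₀ h3] at h1
  rw [mul_assoc, inv_mul_le_iff₀ h2]
  exact h1

/-- averaging over an approximate rotation symmetry -/
lemma avg {v : ℂ → ℂ} {lam z : ℂ} {R B E b θ : ℝ} {q : ℕ} (hlam : ‖lam‖ = 1)
    (hv : DifferentiableOn ℂ v (ball 0 R)) (hv0 : v 0 = 0)
    (hB : ∀ w ∈ ball (0 : ℂ) R, ‖v w‖ ≤ B) (hE : ∀ w ∈ ball (0 : ℂ) R, ‖v (lam * w) - v w‖ ≤ E)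
    (hb : 0 < b) (hdiv : ∀ k, 1 ≤ k → k < q → b ≤ ‖lam ^ k - 1‖) (hθ : 0 < θ) (hθ1 : θ < 1)
    (hR : 0 < R) (hz : ‖z‖ < (1 - θ) * R) :
    ‖v z‖ ≤ q * (E / b) + B * (1 - θ) ^ q / θ := by
  have h1θ : 0 < 1 - θ := by linarith
  obtain ⟨s, hs1, hs2⟩ : ∃ s, ‖z‖ / (1 - θ) < s ∧ s < R :=
    exists_between (by rw [div_lt_iff₀ h1θ]; linarith)
  have hs0 : 0 < s := lt_of_le_of_lt (by positivity) hs1
  have hzs : ‖z‖ ≤ (1 - θ) * s := by rw [div_lt_iff₀ h1θ] at hs1; linarith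
  have hzR : z ∈ ball (0 : ℂ) R := by
    rw [mem_ball_zero_iff]; nlinarith
  have hB0 : 0 ≤ B := (norm_nonneg _).trans (hB 0 (mem_ball_self hR))
  have hE0 : 0 ≤ E := (norm_nonneg _).trans (hE 0 (mem_ball_self hR))
  set c : ℕ → ℂ := fun n => ((n.factorial : ℂ))⁻¹ * iteratedDeriv n v 0 with hc
  have hsum : HasSum (fun n => c n * z ^ n) (v z) := by
    have := Complex.hasSum_taylorSeries_on_ball hv hzR
    have e : (fun n => c n * z ^ n) =
        fun n : ℕ => (n.factorial : ℂ)⁻¹ • (z - 0) ^ n • iteratedDeriv n v 0 := by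
      funext n
      simp only [hc, sub_zero, smul_eq_mul]
      ring
    rw [e]
    exact this
  have hmaps : MapsTo (fun w => lam * w) (ball (0 : ℂ) R) (ball (0 : ℂ) R) := by
    intro w hw
    rw [mem_ball_zero_iff] at hw ⊢
    rw [norm_mul, hlam, one_mul]; exact hw
  have hvl : DifferentiableOn ℂ (fun w => v (lam * w)) (ball 0 R) :=
    hv.comp (by fun_prop) hmaps
  have hc1 : ∀ n, ‖c n‖ * s ^ n ≤ B := coeff_bound hv hB hs0 hs2
  have hc2 : ∀ n, ‖lam ^ n - 1‖ * (‖c n‖ * s ^ n) ≤ E := by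
    intro n
    have h1 := coeff_bound (hvl.sub hv) hE hs0 hs2 n
    have hva : ContDiffAt ℂ n v 0 := (hv.analyticAt (ball_mem_nhds 0 hR)).contDiffAt
    have hvb : ContDiffAt ℂ n (fun w => v (lam * w)) 0 :=
      (hvl.analyticAt (ball_mem_nhds 0 hR)).contDiffAt
    have h2 : iteratedDeriv n ((fun w => v (lam * w)) - v) 0 =
        (lam ^ n - 1) * iteratedDeriv n v 0 := by
      rw [iteratedDeriv_sub hvb hva]
      have h3 : iteratedDeriv n (fun w => v (lam * w)) 0 = lam ^ n * iteratedDeriv n v 0 := by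
        have h4 := iteratedDerivWithin_comp_const_smul (n := n) (f := v) (s := ball (0 : ℂ) R)
          (x := 0) (mem_ball_self hR) isOpen_ball.uniqueDiffOn
          ((hv.analyticOnNhd isOpen_ball).contDiffOn isOpen_ball.uniqueDiffOn) lam hmaps
        rw [iteratedDerivWithin_of_isOpen isOpen_ball (mem_ball_self hR),
          iteratedDerivWithin_of_isOpen isOpen_ball (by simpa using hR)] at h4
        simpa using h4
      rw [h3]; ring
    rw [h2] at h1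
    calc _ = ‖((n.factorial : ℂ))⁻¹ * ((lam ^ n - 1) * iteratedDeriv n v 0)‖ * s ^ n := by
          simp only [hc, norm_mul]; ring
      _ ≤ E := h1
  have hterm : ∀ n, ‖c n * z ^ n‖ ≤ ‖c n‖ * s ^ n * (1 - θ) ^ n := by
    intro n
    rw [norm_mul, norm_pow, mul_assoc, ← mul_pow]
    gcongr
    linarith
  have hlow : ∀ n ∈ Finset.range q, ‖c n * z ^ n‖ ≤ E / b := by
    intro n hn
    rcases Nat.eq_zero_or_pos n with rfl | hn0
    · simp only [hc, iteratedDeriv_zero, hv0, mul_zero, zero_mul, norm_zero]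
      positivity
    · have h1 := hdiv n hn0 (Finset.mem_range.1 hn)
      have h2 : (1 - θ) ^ n ≤ 1 := pow_le_one₀ h1θ.le (by linarith)
      have h3 : 0 ≤ ‖c n‖ * s ^ n := by positivity
      refine (hterm n).trans ((mul_le_of_le_one_right h3 h2).trans ?_)
      rw [le_div_iff₀ hb]
      nlinarith [hc2 n]
  have hgeo : HasSum (fun n : ℕ => B * (1 - θ) ^ q * (1 - θ) ^ n) (B * (1 - θ) ^ q / θ) := by
    have := (hasSum_geometric_of_lt_one h1θ.le (by linarith)).mul_left (B * (1 - θ) ^ q)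
    rwa [sub_sub_cancel, ← div_eq_mul_inv] at this
  have htail : ‖v z - ∑ n ∈ Finset.range q, c n * z ^ n‖ ≤ B * (1 - θ) ^ q / θ := by
    have h1 := (hasSum_nat_add_iff' q).2 hsum
    refine h1.norm_le_of_bounded hgeo fun n => (hterm _).trans ?_
    rw [pow_add (1 - θ), mul_assoc B, mul_comm ((1 - θ) ^ q)]
    exact mul_le_mul_of_nonneg_right (hc1 _) (by positivity)
  have hhead : ‖∑ n ∈ Finset.range q, c n * z ^ n‖ ≤ q * (E / b) := by
    refine (norm_sum_le _ _).trans ((Finset.sum_le_sum hlow).trans ?_)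
    simp
  linarith [norm_le_norm_sub_add (v z) (∑ n ∈ Finset.range q, c n * z ^ n)]

/-- inverse of a holomorphic map close to the identity -/
lemma exists_inverse {Φ : ℂ → ℂ} {R r c ρ : ℝ} (hΦ : DifferentiableOn ℂ Φ (ball 0 R))
    (h0 : Φ 0 = 0) (hc0 : 0 ≤ c) (hc : c ≤ 1 / 2)
    (hd : ∀ z ∈ ball (0 : ℂ) R, ‖deriv Φ z - 1‖ ≤ c) (hr : 0 < r) (hrR : r < R) (hρ0 : 0 < ρ)
    (hρ : ρ ≤ (1 - c) * r) :
    (∀ a ∈ ball (0 : ℂ) R, ∀ b ∈ ball (0 : ℂ) R, ‖(Φ a - a) - (Φ b - b)‖ ≤ c * ‖a - b‖) ∧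
    ∃ ψ : ℂ → ℂ, DifferentiableOn ℂ ψ (ball 0 1) ∧
      ∀ w ∈ ball (0 : ℂ) 1, ‖ψ w‖ ≤ r ∧ Φ (ψ w) = ρ * w := by
  have hL : ∀ a ∈ ball (0 : ℂ) R, ∀ b ∈ ball (0 : ℂ) R,
      ‖(Φ a - a) - (Φ b - b)‖ ≤ c * ‖a - b‖ := by
    intro a ha b hb
    refine mvt (F := fun z => Φ z - z) (hΦ.sub differentiableOn_id) (fun w hw => ?_) ha hb
    rw [((diffAt hΦ hw).hasDerivAt.fun_sub (hasDerivAt_id' w)).deriv]
    exact hd w hw
  refine ⟨hL, ?_⟩
  lift c to NNReal using hc0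
  have happ : ApproximatesLinearOn Φ
      ((ContinuousLinearEquiv.refl ℂ ℂ : ℂ ≃L[ℂ] ℂ) : ℂ →L[ℂ] ℂ) (ball 0 R) c := by
    intro a ha b hb
    have := hL a ha b hb
    rw [show (Φ a - a) - (Φ b - b) = Φ a - Φ b - (a - b) by ring] at this
    exact this
  have hsurj := happ.surjOn_closedBall_of_nonlinearRightInverse
    (ContinuousLinearEquiv.refl ℂ ℂ).toNonlinearRightInverse hr.le (closedBall_subset_ball hrR)
  have hex : ∀ w : ℂ, ∃ z : ℂ, w ∈ ball (0 : ℂ) 1 → ‖z‖ ≤ r ∧ Φ z = ρ * w := by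
    intro w
    by_cases hw : w ∈ ball (0 : ℂ) 1
    · obtain ⟨z, hz, hz'⟩ := hsurj (a := ρ * w) (by
        rw [h0, mem_closedBall_zero_iff, norm_mul, Complex.norm_real, Real.norm_eq_abs,
          abs_of_pos hρ0]
        rw [mem_ball_zero_iff] at hw
        have : ((ContinuousLinearEquiv.refl ℂ ℂ).toNonlinearRightInverse.nnnorm : ℝ) = 1 := by
          simp [ContinuousLinearEquiv.toNonlinearRightInverse]
        rw [this]
        nlinarith)
      exact ⟨z, fun _ => ⟨mem_closedBall_zero_iff.1 hz, hz'⟩⟩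
    · exact ⟨0, fun h => absurd h hw⟩
  choose ψ hψ using hex
  refine ⟨ψ, ?_, hψ⟩
  have hin : ∀ w ∈ ball (0 : ℂ) 1, ψ w ∈ ball (0 : ℂ) R := fun w hw =>
    mem_ball_zero_iff.2 ((hψ w hw).1.trans_lt hrR)
  have hlip : LipschitzOnWith (2 * ρ).toNNReal ψ (ball 0 1) := by
    refine LipschitzOnWith.of_dist_le' fun a ha b hb => ?_
    have h1 := hL _ (hin a ha) _ (hin b hb)
    rw [(hψ a ha).2, (hψ b hb).2] at h1
    rw [dist_eq_norm, dist_eq_norm]
    have h2 : ψ a - ψ b = ρ * (a - b) - ((ρ * a - ψ a) - (ρ * b - ψ b)) := by ring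
    have h3 : ‖ψ a - ψ b‖ ≤ ρ * ‖a - b‖ + c * ‖ψ a - ψ b‖ := by
      conv_lhs => rw [h2]
      refine (norm_sub_le _ _).trans (add_le_add ?_ h1)
      rw [norm_mul, Complex.norm_real, Real.norm_eq_abs, abs_of_pos hρ0]
    nlinarith [norm_nonneg (ψ a - ψ b)]
  intro w hw
  have hcont : ContinuousAt ψ w := hlip.continuousOn.continuousAt (isOpen_ball.mem_nhds hw)
  have hρ' : (ρ : ℂ) ≠ 0 := by exact_mod_cast hρ0.ne'
  have hne : deriv Φ (ψ w) / ρ ≠ 0 := by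
    refine div_ne_zero (fun h => ?_) hρ'
    have := hd _ (hin w hw)
    rw [h] at this
    simp at this
    linarith
  have := HasDerivAt.of_local_left_inverse (f := fun z => Φ z / ρ) hcont
    ((diffAt hΦ (hin w hw)).hasDerivAt.div_const _) hne
    (by filter_upwards [isOpen_ball.mem_nhds hw] with y hy
        rw [(hψ y hy).2]; field_simp)
  exact this.differentiableAt.differentiableWithinAt

end Pool.Agent.Lib.MP_27cd7e_an
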