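import Pool.Agent.Lib.MP_27cd7e_an.Core

set_option autoImplicit false

namespace Pool.Agent.Lib.MP_27cd7e_an

open Metric Set Complex Filter Topology

lemma harnack {f : ℂ → ℂ} {lam : ℂ} {q : ℕ} {ρ L r τ : ℝ} (hq : 1 ≤ q) (hL : 1 ≤ L) (hρ : 0 < ρ)
    (hr0 : 0 < r) (hr : L ^ q * r ≤ ρ) (hfd : DifferentiableOn ℂ f (ball 0 ρ))
    (hf0 : f 0 = 0) (hf1 : deriv f 0 = lam) (h1 : ∀ z ∈ ball (0 : ℂ) ρ, ‖deriv f z‖ ≤ L)
    (h2 : ∀ z : ℂ, z ≠ 0 → ∀ m, 1 ≤ m → (∀ i, f^[i] z ∈ ball (0 : ℂ) ρ) → f^[m] z ≠ z)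
    (hδ : lam ^ q - 1 ≠ 0) (hδ1 : ‖lam ^ q - 1‖ ≤ 1) (hτ0 : 0 ≤ τ)
    (hτ : 2 * L ^ q * ‖lam ^ q - 1‖ ≤ τ ^ 2) :
    ∀ z ∈ ball (0 : ℂ) (r / 5), ‖f^[q] z - z‖ ≤ τ * ‖z‖ := by
  have hfb : ∀ z ∈ ball (0 : ℂ) ρ, ‖f z‖ ≤ L * ‖z‖ := fun z hz => by
    simpa [hf0] using mvt hfd h1 hz (mem_ball_self hρ)
  have hit := iter_bound (q := q) (r := r) hfd hL hfb hr
  have hfder : HasDerivAt f lam 0 := hf1 ▸ (diffAt hfd (mem_ball_self hρ)).hasDerivAt
  have hZ : 1 ≤ L ^ q := one_le_pow₀ hL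
  have hδp : 0 < ‖lam ^ q - 1‖ := norm_pos_iff.2 hδ
  have hgt : 1 < 2 * L ^ q / ‖lam ^ q - 1‖ := by rw [lt_div_iff₀ hδp]; linarith
  have hexp : Real.exp (Real.log (2 * L ^ q / ‖lam ^ q - 1‖)) = 2 * L ^ q / ‖lam ^ q - 1‖ :=
    Real.exp_log (by linarith)
  have hA := Real.log_pos hgt
  generalize Real.log (2 * L ^ q / ‖lam ^ q - 1‖) = A at hexp hA
  have hexp' : ‖lam ^ q - 1‖ * Real.exp A = 2 * L ^ q := by rw [hexp]; field_simp
  obtain ⟨v, -, -, hv1, hv2⟩ := logX (X := fun z => f^[q] z - z) (δ := lam ^ q - 1)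
    (r := r) (M := 2 * L ^ q) (A := A) hr0 ((hit q le_rfl).2.sub differentiableOn_id)
    (by simp [Function.iterate_fixed hf0])
    ((HasDerivAt.iterate 0 hfder hf0 q).fun_sub (hasDerivAt_id' 0)).deriv hδ
    (fun z hz hz0 h => h2 z hz0 q hq
      (orbit_of_periodic hq (sub_eq_zero.1 h) fun i hi => ((hit i hi).1 z hz).2) (sub_eq_zero.1 h))
    (fun z hz => by
      have h3 := norm_sub_le (f^[q] z) z
      nlinarith [((hit q le_rfl).1 z hz).1, norm_nonneg z]) hA hexp'.ge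
  intro z hz
  have hz' : z ∈ ball (0 : ℂ) r := ball_subset_ball (by linarith) hz
  rw [mem_ball_zero_iff] at hz
  have h3 : (v z).re ≤ A / 2 := by
    refine (Complex.re_le_norm _).trans ((hv2 z hz').trans ?_)
    rw [div_le_iff₀ (by linarith)]
    nlinarith
  have h4 : ‖lam ^ q - 1‖ * Real.exp (A / 2) ≤ τ := by
    refine (pow_le_pow_iff_left₀ (by positivity) hτ0 two_ne_zero).1 (le_trans (le_of_eq ?_) hτ)
    rw [mul_pow, ← Real.exp_nat_mul, ← hexp', show ((2 : ℕ) : ℝ) * (A / 2) = A by push_cast; ring]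
    ring
  have h5 := hv1 z hz'
  rw [h5, norm_mul, norm_mul, Complex.norm_exp, mul_assoc, mul_comm]
  refine mul_le_mul_of_nonneg_right (le_trans ?_ h4) (norm_nonneg _)
  exact mul_le_mul_of_nonneg_left (Real.exp_le_exp.2 h3) hδp.le

lemma caseA {N D f : ℂ → ℂ} {lam : ℂ} {T : Finset ℂ} {M : ℕ}
    (hN : Differentiable ℂ N) (hD : Differentiable ℂ D) (hND : ∀ z, D z = 0 → N z ≠ 0)
    (hf : f = fun z => N z / D z) (hlam : ‖lam‖ = 1) (hf0 : f 0 = 0) (hf1 : deriv f 0 = lam)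
    (hT : ∀ z, D z ≠ 0 → deriv f z = 0 → z ∈ T) (hm : T.card < M) (hM : 100 ≤ M)
    (h1 : ∀ z ∈ ball (0 : ℂ) (1 / M), D z ≠ 0 ∧ ‖deriv f z‖ ≤ M)
    (h2 : ∀ z : ℂ, z ≠ 0 → ∀ m, 1 ≤ m → (∀ i, f^[i] z ∈ ball (0 : ℂ) (1 / M)) → f^[m] z ≠ z)
    (h3 : ∀ z : ℂ, M ≤ ‖z‖ → D z ≠ 0 ∧ ‖f z‖ * ‖z‖ ≤ M)
    (q : ℕ) (hq : 1 ≤ q) (hδ : lam ^ q - 1 ≠ 0)
    (hdiv : ∀ m : ℕ, 1 ≤ m → m < q → 1 / (16 * (q : ℝ) ^ 4) ≤ ‖lam ^ m - 1‖) :
    Real.exp (-(2 * M * 2352 * (M + 1) ^ 2 * q ^ 3)) ≤ ‖lam ^ q - 1‖ := by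
  by_contra hc
  push Not at hc
  have hM' : (100 : ℝ) ≤ M := by exact_mod_cast hM
  obtain ⟨Z, hZ⟩ : ∃ Z : ℝ, Z = (2 * M) ^ q := ⟨_, rfl⟩
  obtain ⟨ν, hν⟩ : ∃ ν : ℕ, ν = (M + 1) * q := ⟨_, rfl⟩
  have hν1 : 1 ≤ ν := by rw [hν]; nlinarith
  have hZM : 2 * M ≤ Z := hZ ▸ le_self_pow₀ (by linarith) (by omega)
  have hZ1 : 1 ≤ Z := by linarith
  obtain ⟨W, hW⟩ : ∃ W : ℝ, W = Z ^ (48 * ν) := ⟨_, rfl⟩
  have hZW : Z ^ 48 ≤ W := hW ▸ pow_le_pow_right₀ hZ1 (by omega)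
  have hZp : ∀ {a b : ℕ}, a ≤ b → Z ^ a ≤ Z ^ b := fun h => pow_le_pow_right₀ hZ1 h
  have hZW' : ∀ a : ℕ, a ≤ 47 → 200 * Z ^ a ≤ W := by
    intro a ha
    have h4 := hZp (by omega : a + 1 ≤ 48)
    rw [pow_succ] at h4
    have : 0 < Z ^ a := by positivity
    nlinarith
  have hW1 : 200 * Z ≤ W := by simpa using hZW' 1 (by norm_num)
  have hW0 : 1 ≤ W := by linarith
  have hWp : ∀ {a b : ℕ}, a ≤ b → W ^ a ≤ W ^ b := fun h => pow_le_pow_right₀ hW0 h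
  have hZ0 : 0 < Z := by linarith
  have hW0' : 0 < W := by linarith
  have hδW : ‖lam ^ q - 1‖ ≤ 1 / W ^ (49 * ν) := by
    refine hc.le.trans ?_
    rw [Real.exp_neg, one_div]
    refine inv_anti₀ (by positivity) ?_
    rw [hW, hZ, ← pow_mul, ← pow_mul]
    calc (2 * M : ℝ) ^ (q * (48 * ν * (49 * ν))) ≤ Real.exp (2 * M) ^ (q * (48 * ν * (49 * ν))) :=
          pow_le_pow_left₀ (by linarith) (by linarith [Real.add_one_le_exp (2 * (M : ℝ))]) _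
      _ = _ := by
          rw [← Real.exp_nat_mul, hν]
          congr 1
          push_cast
          ring
  have hB : (2 * 1 / (1 / Z ^ 11)) ^ (4 * ν) * Z ≤ W * Z := by
    refine mul_le_mul_of_nonneg_right ?_ hZ0.le
    rw [hW, show 48 * ν = 12 * (4 * ν) by ring, pow_mul Z 12]
    refine pow_le_pow_left₀ (by positivity) ?_ _
    rw [show 2 * 1 / (1 / Z ^ 11) = 2 * Z ^ 11 by field_simp, pow_succ Z 11]
    nlinarith [pow_pos hZ0 11]
  have hfd : DifferentiableOn ℂ f (ball 0 (1 / M)) := fun z hz =>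
    (hf ▸ (hN z).div (hD z) (h1 z hz).1 : DifferentiableAt ℂ f z).differentiableWithinAt
  have hr : Z * (1 / Z ^ 2) ≤ 1 / M / 2 := by
    rw [show Z * (1 / Z ^ 2) = 1 / Z by field_simp, div_div]
    exact one_div_le_one_div_of_le (by linarith) (by linarith)
  have hM1 : (M + 1) * (1 / Z ^ 8) ≤ 1 / Z ^ 7 := by
    rw [mul_one_div, div_le_div_iff₀ (by positivity) (by positivity), pow_succ Z 7]
    nlinarith [pow_pos hZ0 7]
  refine core (ρ := 1 / M) (L := M) (r := 1 / Z ^ 2) (t := 1 / Z ^ 8) (κ := 2 / Z ^ 11)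
    (σ := 1 / Z ^ 11) (b := 1 / Z ^ 2) (s := 1 / W ^ 3) (R := W ^ 4) (ε := 1 / W ^ (20 * ν))
    (τ := 1 / W ^ (20 * ν + 4)) (ν := ν) hN hD hND hf hlam hf0 hf1 hT hm
    ((div_le_one (by linarith)).2 (by linarith)) (by linarith) h1 (fun z hz => ?_) hq hZ
    (by positivity) hr ?_ (by positivity) (by positivity) ?_ ?_ (by positivity) ?_
    ((div_le_one (by positivity)).2 (one_le_pow₀ hZ1)) (fun j hj hj' => le_trans ?_ (hdiv j hj hj'))
    hν.ge ?_ (by positivity) ?_ rfl (by positivity) ?_ ?_ ?_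
  · have h4 : W ^ 1 ≤ W ^ 4 := hWp (by norm_num)
    obtain ⟨h5, h6⟩ := h3 z (by linarith)
    refine ⟨h5, ?_⟩
    rw [lt_div_iff₀ (by positivity)]
    have h7 : ‖f z‖ * (W ^ 4 / 4) ≤ M :=
      (mul_le_mul_of_nonneg_left hz (norm_nonneg _)).trans h6
    have h8 : ‖f z‖ * W ^ 3 * W < 1 * W := by nlinarith
    exact lt_of_mul_lt_mul_right h8 hW0'.le
  · refine harnack (L := 2 * M) (ρ := 1 / M) hq (by linarith) (by positivity) (by positivity)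
      (by rw [← hZ]; refine hr.trans ?_; have : (0 : ℝ) < 1 / M := by positivity
          linarith)
      hfd hf0 hf1 (fun z hz => by linarith [(h1 z hz).2]) h2 hδ
      (hδW.trans ((div_le_one (by positivity)).2 (one_le_pow₀ hW0))) (by positivity) ?_
    rw [← hZ, one_div_pow, ← pow_mul]
    refine (mul_le_mul (by linarith : 2 * Z ≤ W) hδW (norm_nonneg _) hW0'.le).trans ?_
    rw [mul_one_div, div_le_div_iff₀ (by positivity) (by positivity), ← pow_succ', one_mul]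
    exact hWp (by omega)
  · refine hM1.trans ?_
    rw [div_div]
    refine one_div_le_one_div_of_le (by positivity) ?_
    have := hZp (by norm_num : 3 ≤ 7)
    rw [pow_succ Z 2] at this
    nlinarith [pow_pos hZ0 2]
  · calc _ ≤ 2 * Z / (1 / Z ^ 2) * (1 / Z ^ 7) * (1 / Z ^ 7) := by gcongr
      _ = _ := by field_simp
  · rw [show 1 / Z ^ 11 + 2 * (2 / Z ^ 11) = 5 / Z ^ 11 by ring,
      show 1 / Z ^ 2 * (1 / Z ^ 8) = Z / Z ^ 11 by field_simp]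
    gcongr
    linarith
  · refine one_div_le_one_div_of_le (by positivity) ?_
    have h4 : (q : ℝ) ≤ 2 ^ q := by exact_mod_cast (Nat.lt_two_pow_self).le
    have h5 : (2 : ℝ) ≤ 2 ^ q := le_self_pow₀ (by norm_num) (by omega)
    calc 16 * (q : ℝ) ^ 4 = (2 * q) ^ 4 := by ring
      _ ≤ (2 ^ q * 2 ^ q) ^ 4 := by gcongr
      _ = (16 ^ q) ^ 2 := by
          rw [← mul_pow, ← pow_mul, ← pow_mul, mul_comm q 4, mul_comm q 2, pow_mul, pow_mul]
          norm_num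
      _ ≤ Z ^ 2 := by
          rw [hZ]
          gcongr
          linarith
  · have h4 : W ^ 1 ≤ W ^ 4 := hWp (by norm_num)
    linarith
  · rw [one_div_mul_eq_div, div_le_one (by positivity), show 20 * ν = 5 * (4 * ν) by ring,
      pow_mul W 5]
    refine pow_le_pow_left₀ (by positivity) ?_ _
    rw [show 2 * (2 * W ^ 4) / (1 / Z ^ 11) = W ^ 4 * (4 * Z ^ 11) by field_simp; ring,
      pow_succ W 4]
    refine mul_le_mul_of_nonneg_left ?_ (by positivity)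
    linarith [hZW' 11 (by norm_num), pow_pos hZ0 11]
  · calc _ ≤ 128 * (W * Z) * (1 / W ^ 3) := by gcongr
      _ = 128 * Z ^ 5 / W / W * (1 / Z ^ 2) ^ 2 := by field_simp
      _ ≤ _ := by
          refine mul_le_of_le_one_left (by positivity) ?_
          rw [div_le_one hW0', div_le_iff₀ hW0']
          nlinarith [hZW' 5 (by norm_num), pow_pos hZ0 5]
  · have h4 : 1 / W ≤ 1 / Z ^ 11 := one_div_le_one_div_of_le (by positivity)
      (by linarith [hZW' 11 (by norm_num), pow_pos hZ0 11])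
    have h5 : 1 / W ^ 3 ≤ 1 / W := one_div_le_one_div_of_le hW0' (by simpa using hWp (by norm_num : 1 ≤ 3))
    have h6 : 1 / W ^ (20 * ν) * ((2 * 1 / (1 / Z ^ 11)) ^ (4 * ν) * Z) ≤ 1 / W := by
      calc _ ≤ 1 / W ^ 3 * (W * W) := by
            refine mul_le_mul (one_div_le_one_div_of_le (by positivity) (hWp (by omega)))
              (hB.trans (mul_le_mul_of_nonneg_left (by linarith) hW0'.le)) (by positivity)
              (by positivity)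
        _ = _ := by field_simp
    have h7 : 4 / Z ^ 11 < 1 / Z ^ 8 / 2 := by
      rw [show 1 / Z ^ 8 / 2 = Z ^ 3 / 2 / Z ^ 11 by field_simp]
      refine div_lt_div_of_pos_right ?_ (by positivity)
      have := hZp (by norm_num : 1 ≤ 3)
      linarith
    have e : 4 / Z ^ 11 = 1 / Z ^ 11 + 2 / Z ^ 11 + 1 / Z ^ 11 := by ring
    linarith
  · rw [show 1 / W ^ (20 * ν) * (1 / W ^ 3) / 32 = W / 32 / W ^ (20 * ν + 4) by field_simp; ring]
    gcongr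
    linarith

end Pool.Agent.Lib.MP_27cd7e_an
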