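import Pool.Agent.Lib.MP_27cd7e_an.Basic

set_option autoImplicit false

namespace Pool.Agent.Lib.MP_27cd7e_an

open Metric Set Complex Filter Topology

/-- a contracted disc attracts a critical point -/
lemma fatou_crit {g : ℂ → ℂ} {Ω K : Set ℂ} {x : ℂ} {s : ℝ} (hΩ : IsOpen Ω)
    (hg : DifferentiableOn ℂ g Ω) (hK : IsCompact K) (hKΩ : K ⊆ Ω) (hs : 0 < s)
    (hV : ∀ z ∈ ball x s, ∀ n, g^[n] z ∈ Ω)
    (hA : ∀ z, (∀ n, g^[n] z ∈ Ω) → (∃ m, g^[m] z ∈ ball x s) → z ∈ K)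
    (hret : ∀ z ∈ ball x s, ∃ m, g^[m + 1] z ∈ ball x s)
    (hsmall : ∀ B : ℝ, 0 < B → ∃ n, g^[n] x ∈ closedBall x (s / 2) ∧ ‖deriv (g^[n]) x‖ * B < 1) :
    ∃ c, (∀ n, g^[n] c ∈ Ω) ∧ (∃ m, g^[m] c ∈ ball x s) ∧ deriv g c = 0 := by
  classical
  by_contra hno
  push Not at hno
  set A : Set ℂ := {z | (∀ n, g^[n] z ∈ Ω) ∧ ∃ m, g^[m] z ∈ ball x s} with hAdef
  have hback : ∀ z ∈ Ω, g z ∈ A → z ∈ A := by
    rintro z hz ⟨h1, m, h2⟩
    refine ⟨fun n => ?_, m + 1, h2⟩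
    cases n with
    | zero => exact hz
    | succ n => exact h1 n
  have hfwd : ∀ z ∈ A, g z ∈ A := by
    rintro z ⟨h1, m, h2⟩
    refine ⟨fun n => h1 (n + 1), ?_⟩
    cases m with
    | zero => exact hret z h2
    | succ m => exact ⟨m, h2⟩
  have hball : ball x s ⊆ A := fun z hz => ⟨hV z hz, 0, hz⟩
  have hAK : A ⊆ K := fun z hz => hA z hz.1 hz.2
  have hga : ∀ z ∈ Ω, DifferentiableAt ℂ g z := fun z hz => hg.differentiableAt (hΩ.mem_nhds hz)
  have hopen : IsOpen A := by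
    have key : ∀ m z, (∀ n, g^[n] z ∈ Ω) → g^[m] z ∈ ball x s → A ∈ 𝓝 z := by
      intro m
      induction m with
      | zero => exact fun z _ h => mem_of_superset (isOpen_ball.mem_nhds h) hball
      | succ m ih =>
        intro z h1 h2
        have h3 := ih (g z) (fun n => h1 (n + 1)) h2
        filter_upwards [hΩ.mem_nhds (h1 0), (hga z (h1 0)).continuousAt h3] with y hy hy'
        exact hback y hy hy'
    rw [isOpen_iff_mem_nhds]
    rintro z ⟨h1, m, h2⟩
    exact key m z h1 h2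
  have hder : ∀ n, ∀ z ∈ A, DifferentiableAt ℂ (g^[n]) z ∧ deriv (g^[n]) z ≠ 0 := by
    intro n
    induction n with
    | zero => exact fun z _ => ⟨differentiableAt_id, by simp⟩
    | succ n ih =>
      intro z hz
      obtain ⟨h1, h2⟩ := ih _ (hfwd z hz)
      have h3 := h1.hasDerivAt.comp z (hga z (hz.1 0)).hasDerivAt
      rw [Function.iterate_succ]
      exact ⟨h3.differentiableAt, by rw [h3.deriv]; exact mul_ne_zero h2 (hno z hz.1 hz.2)⟩
  have : CompactSpace K := isCompact_iff_compactSpace.1 hK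
  have hcov : IsCoveringMapOn (fun k : K => g k.1) A := by
    refine IsCoveringMapOn.of_isLocalHomeomorphOn
      (continuousOn_iff_continuous_domRestrict.1 (hg.continuousOn.mono hKΩ)) ?_
    have h1 : IsLocalHomeomorphOn g A := by
      intro z hz
      have h2 : HasStrictDerivAt g (deriv g z) z :=
        (hg.analyticAt (hΩ.mem_nhds (hz.1 0))).hasStrictDerivAt
      have h3 := h2.hasStrictFDerivAt_equiv (hno z hz.1 hz.2)
      exact ⟨h3.toOpenPartialHomeomorph g, h3.mem_toOpenPartialHomeomorph_source, rfl⟩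
    have h2 : IsLocalHomeomorphOn (Subtype.val : K → ℂ) (Subtype.val ⁻¹' A) := by
      rw [isLocalHomeomorphOn_iff_isOpenEmbedding_restrict]
      intro e he
      refine ⟨Subtype.val ⁻¹' A, (hopen.preimage continuous_subtype_val).mem_nhds he,
        ⟨IsEmbedding.subtypeVal.comp IsEmbedding.subtypeVal, ?_⟩⟩
      have : range ((Subtype.val ⁻¹' A : Set K).domRestrict (Subtype.val : K → ℂ)) = A := by
        ext z
        constructor
        · rintro ⟨e, rfl⟩
          exact e.2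
        · intro hz
          exact ⟨⟨⟨z, hAK hz⟩, hz⟩, rfl⟩
      rw [this]
      exact hopen
    exact (h1.comp h2 fun e he => he).mono fun e he => hback e.1 (hKΩ e.2) he
  obtain ⟨R, hR0, hR⟩ := hK.isBounded.exists_pos_norm_le
  obtain ⟨n, hn1, hn2⟩ := hsmall (2 * R / (s / 2)) (by positivity)
  set ξ := g^[n] x with hξ
  have hsub : ball ξ (s / 2) ⊆ A := by
    refine Subset.trans (ball_subset_ball' ?_) hball
    rw [mem_closedBall] at hn1
    linarith
  have hξm : ξ ∈ ball ξ (s / 2) := mem_ball_self (half_pos hs)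
  have : ContractibleSpace (ball ξ (s / 2)) := (convex_ball ξ (s / 2)).contractibleSpace ⟨ξ, hξm⟩
  have : LocallyPathConnectedSpace (ball ξ (s / 2)) := isOpen_ball.locallyPathConnectedSpace
  have lift : ∀ m, ∀ y ∈ A, g^[m] y = ξ → ∃ σ : C(ball ξ (s / 2), ℂ),
      σ ⟨ξ, hξm⟩ = y ∧ (∀ a, σ a ∈ A) ∧ ∀ a, g^[m] (σ a) = a.1 := by
    intro m
    induction m with
    | zero =>
      exact fun y _ hy => ⟨⟨Subtype.val, continuous_subtype_val⟩, hy.symm, fun a => hsub a.2,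
        fun a => rfl⟩
    | succ m ih =>
      intro y hy hy'
      obtain ⟨σ, h1, h2, h3⟩ := ih (g y) (hfwd y hy) hy'
      obtain ⟨F, ⟨f1, f2⟩, -⟩ := hcov.existsUnique_continuousMap_lifts σ (e₀ := ⟨y, hAK hy⟩)
        (a₀ := ⟨ξ, hξm⟩) h1.symm h2
      have f3 : ∀ a, g (F a).1 = σ a := fun a => congrFun f2 a
      refine ⟨⟨fun a => (F a).1, by fun_prop⟩, by simp [f1], fun a => ?_, fun a => ?_⟩
      · exact hback _ (hKΩ (F a).2) (by rw [ContinuousMap.coe_mk, f3]; exact h2 a)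
      · rw [Function.iterate_succ_apply, ContinuousMap.coe_mk, f3, h3]
  obtain ⟨σ, h1, h2, h3⟩ := lift n x (hball (mem_ball_self hs)) rfl
  obtain ⟨τ, hτ⟩ : ∃ τ : ℂ → ℂ, ∀ a : ball ξ (s / 2), τ a = σ a :=
    ⟨fun z => if hz : z ∈ ball ξ (s / 2) then σ ⟨z, hz⟩ else 0, fun a => dif_pos a.2⟩
  have hτc : ContinuousOn τ (ball ξ (s / 2)) := by
    rw [continuousOn_iff_continuous_domRestrict]
    exact σ.continuous.congr fun a => (hτ a).symm
  have hτA : ∀ w ∈ ball ξ (s / 2), τ w ∈ A := fun w hw => by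
    rw [hτ ⟨w, hw⟩]; exact h2 _
  have hτd : ∀ w ∈ ball ξ (s / 2), HasDerivAt τ (deriv (g^[n]) (τ w))⁻¹ w := by
    intro w hw
    refine HasDerivAt.of_local_left_inverse (hτc.continuousAt (isOpen_ball.mem_nhds hw))
      (hder n _ (hτA w hw)).1.hasDerivAt (hder n _ (hτA w hw)).2 ?_
    filter_upwards [isOpen_ball.mem_nhds hw] with y hy
    rw [hτ ⟨y, hy⟩, h3]
  have h4 := deriv_bound (F := τ) (c := ξ) (z := ξ) (R := s / 2) (M := R) (s := s / 2)
    (fun w hw => (hτd w hw).differentiableAt.differentiableWithinAt)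
    (fun w hw => hR _ (hAK (hτA w hw))) (half_pos hs) (by simp)
  have h5 : τ ξ = x := (hτ ⟨ξ, hξm⟩).trans h1
  rw [(hτd ξ hξm).deriv, h5, norm_inv] at h4
  have h6 : 0 < ‖deriv (g^[n]) x‖ := norm_pos_iff.2 (hder n x (hball (mem_ball_self hs))).2
  rw [inv_le_iff_one_le_mul₀' h6] at h4
  linarith

end Pool.Agent.Lib.MP_27cd7e_an
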