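import Pool.Agent.Lib.MP_27cd7e_an.Perturb
import Pool.Agent.Lib.MP_27cd7e_an.Fatou

set_option autoImplicit false

namespace Pool.Agent.Lib.MP_27cd7e_an

open Metric Set Complex Filter Topology

lemma sep_aux {lam : ℂ} (hlam : ‖lam‖ = 1) {b t : ℝ} {q : ℕ} (ht : 0 < t) (hb1 : b ≤ 1)
    (hdiv : ∀ j, 1 ≤ j → j < q → b ≤ ‖lam ^ j - 1‖) (k l i j : ℕ) (hi : i < q) (hj : j < q)
    (hne : k ≠ l ∨ (1 ≤ k ∧ i ≠ j)) :
    b * t ≤ ‖lam ^ i * ((k * t : ℝ) : ℂ) - lam ^ j * ((l * t : ℝ) : ℂ)‖ := by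
  have hn : ∀ (i k : ℕ), ‖lam ^ i * ((k * t : ℝ) : ℂ)‖ = k * t := by
    intro i k
    rw [norm_mul, norm_pow, hlam, one_pow, one_mul, Complex.norm_real, Real.norm_eq_abs,
      abs_of_nonneg (by positivity)]
  by_cases hkl : k = l
  · subst hkl
    obtain ⟨hk, hij⟩ := hne.resolve_left (fun h => h rfl)
    have hk' : (1 : ℝ) ≤ k := by exact_mod_cast hk
    have key : ∀ i j : ℕ, i < j → j < q → b ≤ ‖lam ^ j - lam ^ i‖ := by
      intro i j h1 h2
      obtain ⟨d, rfl⟩ := Nat.exists_eq_add_of_lt h1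
      have := hdiv (d + 1) (by omega) (by omega)
      rw [show lam ^ (i + d + 1) - lam ^ i = lam ^ i * (lam ^ (d + 1) - 1) by ring, norm_mul,
        norm_pow, hlam, one_pow, one_mul]
      exact this
    have h1 : b ≤ ‖lam ^ i - lam ^ j‖ := by
      rcases lt_or_gt_of_ne hij with h | h
      · rw [norm_sub_rev]; exact key i j h hj
      · exact key j i h hi
    rw [← sub_mul, norm_mul, Complex.norm_real, Real.norm_eq_abs, abs_of_nonneg (by positivity)]
    have h2 : t ≤ k * t := by nlinarith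
    nlinarith [norm_nonneg (lam ^ i - lam ^ j)]
  · have h1 := abs_norm_sub_norm_le (lam ^ i * ((k * t : ℝ) : ℂ)) (lam ^ j * ((l * t : ℝ) : ℂ))
    rw [hn, hn, ← sub_mul, abs_mul, abs_of_pos ht] at h1
    have h2 : (1 : ℝ) ≤ |(k : ℝ) - l| := by
      have : ((k : ℤ) - l) ≠ 0 := by omega
      exact_mod_cast Int.one_le_abs this
    nlinarith

lemma core {N D f : ℂ → ℂ} {lam : ℂ} {T : Finset ℂ} {m q ν : ℕ}
    {ρ L Z r t κ σ b s R ε B τ : ℝ}
    (hN : Differentiable ℂ N) (hD : Differentiable ℂ D) (hND : ∀ z, D z = 0 → N z ≠ 0)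
    (hf : f = fun z => N z / D z) (hlam : ‖lam‖ = 1) (hf0 : f 0 = 0) (hf1 : deriv f 0 = lam)
    (hT : ∀ z, D z ≠ 0 → deriv f z = 0 → z ∈ T) (hm : T.card < m)
    (hρ1 : ρ ≤ 1) (hL : 1 ≤ L) (h1 : ∀ z ∈ ball (0 : ℂ) ρ, D z ≠ 0 ∧ ‖deriv f z‖ ≤ L)
    (h3 : ∀ z : ℂ, R / 4 ≤ ‖z‖ → D z ≠ 0 ∧ ‖f z‖ < s)
    (hq : 1 ≤ q) (hZ : Z = (2 * L) ^ q) (hr0 : 0 < r) (hr : Z * r ≤ ρ / 2)
    (hτ : ∀ z ∈ ball (0 : ℂ) (r / 5), ‖f^[q] z - z‖ ≤ τ * ‖z‖) (hτ0 : 0 ≤ τ)
    (ht0 : 0 < t) (ht : (m + 1) * t ≤ r / 10)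
    (hκ : 2 * Z / r * ((m + 1) * t) * ((m + 1) * t) ≤ κ) (hσ0 : 0 < σ) (hσ : σ + 2 * κ ≤ b * t)
    (hb1 : b ≤ 1) (hdiv : ∀ j, 1 ≤ j → j < q → b ≤ ‖lam ^ j - 1‖) (hν : (m + 1) * q ≤ ν)
    (hR : 4 ≤ R) (hε0 : 0 < ε) (hε : ε * (2 * (2 * R) / σ) ^ (4 * ν) ≤ 1)
    (hB : B = (2 * 1 / σ) ^ (4 * ν) * Z) (hs0 : 0 < s) (hBs : 128 * B * s ≤ r ^ 2)
    (hsum : ε * B + κ + s < t / 2) (hτ1 : τ ≤ ε * s / 32) : False := by
  classical
  have hZ1 : 1 ≤ Z := hZ ▸ one_le_pow₀ (by linarith)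
  have hρ0 : 0 < ρ := by nlinarith
  have hr1 : r ≤ 1 / 2 := by nlinarith
  have hm0 : (0 : ℝ) ≤ m := Nat.cast_nonneg m
  have ht1 : t ≤ r / 10 := by nlinarith
  have hκ0 : 0 ≤ κ := le_trans (by positivity) hκ
  have hB0 : 0 ≤ B := by rw [hB]; positivity
  have hσ1 : σ ≤ 1 := by nlinarith
  have hst : s ≤ t := by nlinarith [mul_nonneg hε0.le hB0]
  have hfa : ∀ z, D z ≠ 0 → DifferentiableAt ℂ f z := fun z hz => hf ▸ (hN z).div (hD z) hz
  have hfd : DifferentiableOn ℂ f (ball 0 ρ) := fun z hz =>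
    (hfa z (h1 z hz).1).differentiableWithinAt
  have hflip : ∀ a ∈ ball (0 : ℂ) ρ, ∀ c ∈ ball (0 : ℂ) ρ, ‖f a - f c‖ ≤ L * ‖a - c‖ :=
    fun a ha c hc => mvt hfd (fun w hw => (h1 w hw).2) ha hc
  have hfb : ∀ z ∈ ball (0 : ℂ) ρ, ‖f z‖ ≤ L * ‖z‖ := fun z hz => by
    simpa [hf0] using hflip z hz 0 (mem_ball_self hρ0)
  have hhalf : ball (0 : ℂ) (ρ / 2) ⊆ ball 0 ρ := ball_subset_ball (by linarith)
  have hfit := iter_bound (q := q) (r := r) (Λ := 2 * L) (hfd.mono hhalf) (by linarith)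
    (fun z hz => by nlinarith [hfb z (hhalf hz), norm_nonneg z]) (hZ ▸ hr)
  have hpow : ∀ i ≤ q, (2 * L) ^ i ≤ Z := fun i hi => hZ ▸ pow_le_pow_right₀ (by linarith) hi
  have hfder : HasDerivAt f lam 0 := hf1 ▸ (diffAt hfd (mem_ball_self hρ0)).hasDerivAt
  have hnl : ∀ i ≤ q, ∀ z : ℂ, ‖z‖ ≤ (m + 1) * t → ‖f^[i] z - lam ^ i * z‖ ≤ κ := by
    intro i hi z hz
    have h4 := schwarz2 (F := fun z => f^[i] z - lam ^ i * z) (R := r) (M := 2 * Z * r) (z := z)
      ((hfit i hi).2.sub (by fun_prop)) (by simp [Function.iterate_fixed hf0])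
      (by rw [((HasDerivAt.iterate 0 hfder hf0 i).fun_sub
        ((hasDerivAt_id' 0).const_mul (lam ^ i))).deriv]; simp)
      (fun w hw => by
        have h5 := ((hfit i hi).1 w hw).1
        have h6 := norm_sub_le (f^[i] w) (lam ^ i * w)
        rw [norm_mul, norm_pow, hlam, one_pow, one_mul] at h6
        rw [mem_ball_zero_iff] at hw
        have h7 := mul_le_mul_of_nonneg_right (hpow i hi) (norm_nonneg w)
        nlinarith [norm_nonneg w])
      (by rw [mem_ball_zero_iff]; linarith)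
    rw [show 2 * Z * r / r / r = 2 * Z / r by field_simp] at h4
    refine h4.trans (le_trans ?_ hκ)
    gcongr
  set x : ℕ → ℂ := fun k => ((k * t : ℝ) : ℂ) with hx
  have hxn : ∀ k, ‖x k‖ = k * t := fun k => by
    simp only [hx]
    rw [Complex.norm_real, Real.norm_eq_abs, abs_of_nonneg (by positivity)]
  have hxm : ∀ k ≤ m, ‖x k‖ + t ≤ (m + 1) * t := by
    intro k hk
    have : (k : ℝ) ≤ m := by exact_mod_cast hk
    rw [hxn]; nlinarith
  have hxr : ∀ k ≤ m, x k ∈ ball (0 : ℂ) r := fun k hk => by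
    rw [mem_ball_zero_iff]; linarith [hxm k hk]
  set O : Finset ℂ := ((Finset.range (m + 1)) ×ˢ (Finset.range q)).image
    fun p => f^[p.2] (x p.1) with hO
  have hOm : ∀ k ≤ m, ∀ i < q, f^[i] (x k) ∈ O := fun k hk i hi =>
    Finset.mem_image.2 ⟨(k, i), by simp [hi, Nat.lt_succ_of_le hk], rfl⟩
  obtain ⟨Q, hQd, hQO, hQb⟩ := hermite O (ν := ν) hσ0 hσ1
    (by
      intro y hy y' hy' hne
      obtain ⟨⟨k, i⟩, hp, rfl⟩ := Finset.mem_image.1 hy
      obtain ⟨⟨l, j⟩, hp', rfl⟩ := Finset.mem_image.1 hy'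
      simp only [Finset.mem_product, Finset.mem_range] at hp hp' hne ⊢
      have h4 := sep_aux hlam ht0 hb1 hdiv k l i j hp.2 hp'.2 (by
        by_contra hc
        push Not at hc
        obtain ⟨rfl, hc⟩ := hc
        rcases Nat.eq_zero_or_pos k with rfl | hk
        · simp [hx, Function.iterate_fixed hf0] at hne
        · exact hne (by rw [hc hk]))
      have h5 := hnl i hp.2.le (x k) (by linarith [hxm k (by omega)])
      have h6 := hnl j hp'.2.le (x l) (by linarith [hxm l (by omega)])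
      have h7 : lam ^ i * x k - lam ^ j * x l = (f^[i] (x k) - f^[j] (x l)) +
          -(f^[i] (x k) - lam ^ i * x k) + (f^[j] (x l) - lam ^ j * x l) := by ring
      change b * t ≤ ‖lam ^ i * x k - lam ^ j * x l‖ at h4
      rw [h7] at h4
      have h8 := h4.trans norm_add₃_le
      rw [norm_neg] at h8
      linarith)
    (by
      intro y hy
      obtain ⟨⟨k, i⟩, hp, rfl⟩ := Finset.mem_image.1 hy
      simp only [Finset.mem_product, Finset.mem_range] at hp ⊢
      have := mem_ball_zero_iff.1 ((hfit i hp.2.le).1 _ (hxr k (by omega))).2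
      linarith)
    (Finset.card_image_le.trans (by simpa using hν)) (le_trans (by nlinarith) hν)
  have hO0 : (0 : ℂ) ∈ O := by simpa [hx] using hOm 0 (Nat.zero_le _) 0 hq
  set H : ℂ → ℂ := fun z => z + ε * Q z with hH
  have hHd : ∀ z, HasDerivAt H (1 + ε * deriv Q z) z := fun z =>
    (hasDerivAt_id' z).fun_add ((hQd z).hasDerivAt.const_mul _)
  have hQ' : ∀ z ∈ ball (0 : ℂ) R, ‖(ε : ℂ) * deriv Q z‖ ≤ 1 / 2 := by
    intro z hz
    rw [mem_ball_zero_iff] at hz
    have h4 := deriv_bound (c := 0) (z := z) (R := 2 * R) (s := R) hQd.differentiableOn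
      (fun w hw => hQb (2 * R) (by linarith) w (mem_ball_zero_iff.1 hw).le) (by linarith)
      (by rw [sub_zero]; linarith)
    rw [le_div_iff₀ (by linarith)] at h4
    rw [norm_mul, Complex.norm_real, Real.norm_eq_abs, abs_of_pos hε0]
    have h5 := mul_le_mul_of_nonneg_left h4 hε0.le
    nlinarith [mul_nonneg hε0.le (norm_nonneg (deriv Q z))]
  have hε1 : ε ≤ 1 / 2 := by
    have := hQ' 0 (mem_ball_self (by linarith))
    rw [(hQO 0 hO0).2] at this
    simpa [abs_of_pos hε0] using this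
  have hHl : ∀ a ∈ ball (0 : ℂ) R, ∀ c ∈ ball (0 : ℂ) R,
      ‖(H a - H c) - (a - c)‖ ≤ 1 / 2 * ‖a - c‖ := by
    intro a ha c hc
    have := mvt (F := fun z => (ε : ℂ) * Q z) (hQd.const_mul _).differentiableOn
      (fun w hw => by rw [((hQd w).hasDerivAt.const_mul _).deriv]; exact hQ' w hw) ha hc
    rw [show (H a - H c) - (a - c) = ε * Q a - ε * Q c by simp only [hH]; ring]
    exact this
  have hHO : ∀ y ∈ O, H y = y := fun y hy => by simp [hH, (hQO y hy).1]
  have hHn : ∀ z ∈ ball (0 : ℂ) R, ‖z‖ / 2 ≤ ‖H z‖ ∧ ‖H z‖ ≤ 3 / 2 * ‖z‖ := by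
    intro z hz
    have h4 := hHl z hz 0 (mem_ball_self (by linarith))
    rw [hHO 0 hO0, sub_zero, sub_zero] at h4
    have h5 := norm_le_norm_sub_add (H z) z
    have h6 := norm_le_norm_sub_add z (H z)
    rw [norm_sub_rev] at h6
    constructor <;> linarith
  have hsR : ball (0 : ℂ) (ρ / 2) ⊆ ball 0 R := ball_subset_ball (by linarith)
  have hHm : ∀ z ∈ ball (0 : ℂ) (ρ / 2), H z ∈ ball (0 : ℂ) ρ := by
    intro z hz
    have := (hHn z (hsR hz)).2
    rw [mem_ball_zero_iff] at hz ⊢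
    linarith
  set g : ℂ → ℂ := fun z => f (H z) with hg
  have hga : ∀ z, D (H z) ≠ 0 → HasDerivAt g (deriv f (H z) * (1 + ε * deriv Q z)) z :=
    fun z hz => (hfa _ hz).hasDerivAt.comp z (hHd z)
  have hgit := iter_bound (g := g) (q := q) (r := r) (Λ := 2 * L) (ρ := ρ / 2)
    (fun z hz => (hga z (h1 _ (hHm z hz)).1).differentiableAt.differentiableWithinAt) (by linarith)
    (fun z hz => by
      have h4 := hfb _ (hHm z hz)
      have h5 := mul_le_mul_of_nonneg_left (hHn z (hsR hz)).2 (by linarith : 0 ≤ L)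
      simp only [hg]
      nlinarith [norm_nonneg z]) (hZ ▸ hr)
  have hpert : ∀ i ≤ q, ∀ z ∈ ball (0 : ℂ) r, ‖g^[i] z - f^[i] z‖ ≤ ε * B := by
    have key : ∀ i ≤ q, ∀ z ∈ ball (0 : ℂ) r,
        ‖g^[i] z - f^[i] z‖ ≤ ε * (2 * 1 / σ) ^ (4 * ν) * (2 * L) ^ i := by
      intro i
      induction i with
      | zero => intro _ z _; simp only [Function.iterate_zero, id, sub_self, norm_zero]; positivity
      | succ i ih =>
        intro hi z hz
        have h4 := ih (by omega) z hz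
        have h5 := ((hgit i (by omega)).1 z hz).2
        have h6 := ((hfit i (by omega)).1 z hz).2
        rw [Function.iterate_succ_apply', Function.iterate_succ_apply']
        refine (hflip _ (hHm _ h5) _ (hhalf h6)).trans ?_
        have h7 := hQb 1 le_rfl (g^[i] z) (by linarith [mem_ball_zero_iff.1 h5])
        have h8 : ‖H (g^[i] z) - f^[i] z‖ ≤ ‖g^[i] z - f^[i] z‖ + ε * (2 * 1 / σ) ^ (4 * ν) := by
          rw [show H (g^[i] z) - f^[i] z = (g^[i] z - f^[i] z) + ε * Q (g^[i] z) by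
            simp only [hH]; ring]
          refine (norm_add_le _ _).trans ?_
          rw [norm_mul, Complex.norm_real, Real.norm_eq_abs, abs_of_pos hε0]
          gcongr
        have h9 : (1 : ℝ) ≤ (2 * L) ^ i := one_le_pow₀ (by linarith)
        have h10 : 0 ≤ ε * (2 * 1 / σ) ^ (4 * ν) := by positivity
        generalize ε * (2 * 1 / σ) ^ (4 * ν) = E at *
        rw [pow_succ]
        have h11 : ‖H (g^[i] z) - f^[i] z‖ ≤ 2 * (E * (2 * L) ^ i) := by nlinarith
        nlinarith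
    intro i hi z hz
    refine (key i hi z hz).trans ?_
    rw [hB, mul_assoc]
    gcongr
    exact hpow i hi
  have hpt : ∀ k ≤ m, ∀ i ≤ q, g^[i] (x k) = f^[i] (x k) ∧
      deriv (g^[i]) (x k) = deriv (f^[i]) (x k) * (((1 - ε) ^ i : ℝ) : ℂ) := by
    intro k hk i
    induction i with
    | zero => intro _; simp
    | succ i ih =>
      intro hi
      obtain ⟨e1, e2⟩ := ih (by omega)
      have hy := hOm k hk i hi
      have hy' := (h1 _ (hhalf ((hfit i (by omega)).1 _ (hxr k hk)).2)).1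
      have d1 := hga (g^[i] (x k)) (by rw [e1, hHO _ hy]; exact hy')
      have d2 := d1.comp (x k) (diffAt (hgit i (by omega)).2 (hxr k hk)).hasDerivAt
      have d3 := (hfa _ hy').hasDerivAt.comp (x k)
        (diffAt (hfit i (by omega)).2 (hxr k hk)).hasDerivAt
      rw [Function.iterate_succ', Function.iterate_succ', d2.deriv, d3.deriv, e2]
      simp only [Function.comp_apply]
      rw [e1, hHO _ hy, (hQO _ hy).2]
      refine ⟨by simp only [hg, hHO _ hy], ?_⟩
      push_cast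
      ring
  have hsub : ∀ k ≤ m, ball (x k) s ⊆ ball 0 r := fun k hk =>
    ball_subset_ball' (by rw [dist_zero_right]; linarith [hxm k hk])
  have hdisc : ∀ k ≤ m, (∀ n, ∀ z ∈ ball (x k) s, (g^[q])^[n] z ∈ ball (x k) s) ∧
      ∀ B : ℝ, 0 < B → ∃ n, (g^[q])^[n] (x k) ∈ closedBall (x k) (s / 2) ∧
        ‖deriv ((g^[q])^[n]) (x k)‖ * B < 1 := by
    intro k hk
    obtain ⟨d1, d2⟩ := disc (a := (1 - ε) ^ q) hr0 (by linarith) hs0 (by linarith) hε0
      (hgit q le_rfl).2 (hfit q le_rfl).2 (hpert q le_rfl) hτ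
      (x := x k) (by linarith [hxm k hk]) (hpt k hk q le_rfl).1 (hpt k hk q le_rfl).2
      (pow_nonneg (by linarith) q) (pow_le_of_le_one (by linarith) (by linarith) (by omega))
      hBs hτ0 hτ1
    exact disc_iter hs0 hε0 (by linarith) ((hgit q le_rfl).2.mono (hsub k hk)) d1 d2
  have hmod : ∀ k ≤ m, ∀ z ∈ ball (x k) s, ∀ n,
      g^[n] z ∈ ball (0 : ℂ) (ρ / 2) ∧ |‖g^[n] z‖ - k * t| < t / 2 := by
    intro k hk z hz n
    have hi : n % q ≤ q := (Nat.mod_lt _ (by omega)).le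
    rw [← Nat.mod_add_div n q, Function.iterate_add_apply, Function.iterate_mul]
    have h4 := (hdisc k hk).1 (n / q) z hz
    generalize (g^[q])^[n / q] z = y at h4
    generalize n % q = i at hi
    refine ⟨((hgit i hi).1 y (hsub k hk h4)).2, ?_⟩
    have h5 := hpert i hi y (hsub k hk h4)
    have h6 : ‖y - x k‖ < s := by rwa [mem_ball, dist_eq_norm] at h4
    have h7 := hnl i hi y (by linarith [norm_le_norm_sub_add y (x k), hxm k hk])
    have h8 := abs_norm_sub_norm_le (g^[i] y) (lam ^ i * x k)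
    rw [norm_mul, norm_pow, hlam, one_pow, one_mul, hxn,
      show g^[i] y - lam ^ i * x k = (g^[i] y - f^[i] y) + (f^[i] y - lam ^ i * y) +
        lam ^ i * (y - x k) by ring] at h8
    have h9 := h8.trans norm_add₃_le
    rw [norm_mul, norm_pow, hlam, one_pow, one_mul] at h9
    linarith
  have hHc : Continuous H := continuous_iff_continuousAt.2 fun z => (hHd z).continuousAt
  have hcrit : ∀ k : ℕ, ∃ c : ℂ, 1 ≤ k → k ≤ m →
      (‖c‖ < R ∧ H c ∈ T) ∧ ∃ n, g^[n] c ∈ ball (x k) s := by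
    intro k
    by_cases hk : 1 ≤ k ∧ k ≤ m
    swap
    · exact ⟨0, fun h h' => absurd ⟨h, h'⟩ hk⟩
    obtain ⟨hk1, hk⟩ := hk
    have hk' : (1 : ℝ) ≤ k := by exact_mod_cast hk1
    have hsmall : ∀ z : ℂ, ‖z‖ < R → (∃ n, ∀ j, t / 2 < ‖g^[j] (g^[n] z)‖) → ‖z‖ ≤ R / 2 := by
      rintro z hz ⟨n, hn⟩
      by_contra hc
      have h4 := (h3 (H z) (by linarith [(hHn z (mem_ball_zero_iff.2 hz)).1])).2
      have h5 := (hmod 0 (Nat.zero_le _) (g z) (by simpa [hx] using h4) n).2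
      have h6 := hn 1
      rw [← Function.iterate_succ_apply, Function.iterate_succ_apply'] at h5
      simp only [Nat.cast_zero, zero_mul, sub_zero, abs_norm, Function.iterate_one] at h5 h6
      linarith
    obtain ⟨c, c1, c2, c3⟩ := fatou_crit (g := g) (x := x k) (s := s)
      (Ω := {z | ‖z‖ < R ∧ D (H z) ≠ 0})
      (K := closedBall 0 (R / 2) ∩ {z | ‖N (H z)‖ ≤ R / 2 * ‖D (H z)‖})
      ((isOpen_lt continuous_norm continuous_const).inter
        (isOpen_ne_fun (hD.continuous.comp hHc) continuous_const))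
      (fun z hz => (hga z hz.2).differentiableAt.differentiableWithinAt)
      ((isCompact_closedBall _ _).inter_right (isClosed_le (hN.continuous.comp hHc).norm
        (continuous_const.mul (hD.continuous.comp hHc).norm)))
      (fun z hz => ⟨by linarith [mem_closedBall_zero_iff.1 hz.1], fun h => by
        have h4 : ‖N (H z)‖ ≤ R / 2 * ‖D (H z)‖ := hz.2
        rw [h, norm_zero, mul_zero] at h4
        exact hND _ h (norm_le_zero_iff.1 h4)⟩) hs0
      (fun z hz n => ⟨mem_ball_zero_iff.1 (hsR (hmod k hk z hz n).1),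
        (h1 _ (hHm _ (hmod k hk z hz n).1)).1⟩)
      (by
        rintro z hz ⟨n, hn⟩
        have h4 : ∀ j, t / 2 < ‖g^[j] (g^[n] z)‖ := by
          intro j
          have := (abs_lt.1 (hmod k hk _ hn j).2).1
          nlinarith
        refine ⟨mem_closedBall_zero_iff.2 (hsmall z (hz 0).1 ⟨n, h4⟩), ?_⟩
        have h5 := hsmall (g z) (hz 1).1 ⟨n, fun j => by
          have := h4 (j + 1)
          rwa [Function.iterate_succ_apply, ← Function.iterate_succ_apply' g n z,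
            Function.iterate_succ_apply] at this⟩
        have h6 : 0 < ‖D (H z)‖ := norm_pos_iff.2 (hz 0).2
        simp only [hg, hf, norm_div] at h5
        exact (div_le_iff₀ h6).1 h5)
      (fun z hz => ⟨q - 1, by
        rw [Nat.sub_add_cancel hq]
        exact (hdisc k hk).1 1 z hz⟩)
      (fun B' hB' => by
        obtain ⟨n, hn⟩ := (hdisc k hk).2 B' hB'
        exact ⟨q * n, by rwa [Function.iterate_mul]⟩)
    refine ⟨c, fun _ _ => ⟨⟨(c1 0).1, hT _ (c1 0).2 ?_⟩, c2⟩⟩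
    rw [(hga c (c1 0).2).deriv] at c3
    refine (mul_eq_zero.1 c3).resolve_right fun h => ?_
    have h4 := hQ' c (mem_ball_zero_iff.2 (c1 0).1)
    rw [show (ε : ℂ) * deriv Q c = -1 by linear_combination h] at h4
    norm_num at h4
  choose c hc using hcrit
  have hcard := Finset.card_le_card_of_injOn (s := Finset.Icc 1 m) (t := T) (fun k => H (c k))
    (fun k hk => (hc k (Finset.mem_Icc.1 hk).1 (Finset.mem_Icc.1 hk).2).1.2)
    (by
      intro k hk l hl hkl
      obtain ⟨k1, k2⟩ := Finset.mem_Icc.1 hk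
      obtain ⟨l1, l2⟩ := Finset.mem_Icc.1 hl
      obtain ⟨⟨a1, -⟩, n, hn⟩ := hc k k1 k2
      obtain ⟨⟨b1, -⟩, n', hn'⟩ := hc l l1 l2
      have h4 := hHl _ (mem_ball_zero_iff.2 a1) _ (mem_ball_zero_iff.2 b1)
      simp only at hkl
      rw [hkl, sub_self, zero_sub, norm_neg] at h4
      have h5 : c k = c l :=
        sub_eq_zero.1 (norm_le_zero_iff.1 (by linarith [norm_nonneg (c k - c l)]))
      have h6 := abs_lt.1 (hmod k k2 _ hn n').2
      have h7 := abs_lt.1 (hmod l l2 _ hn' n).2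
      rw [← Function.iterate_add_apply, h5, add_comm] at h6
      rw [← Function.iterate_add_apply] at h7
      have h8 : (k : ℝ) < l + 1 := by nlinarith
      have h9 : (l : ℝ) < k + 1 := by nlinarith
      have h10 : k < l + 1 := by exact_mod_cast h8
      have h11 : l < k + 1 := by exact_mod_cast h9
      omega)
  simp only [Nat.card_Icc] at hcard
  omega

end Pool.Agent.Lib.MP_27cd7e_an
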