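import Mathlib

set_option autoImplicit false

namespace Pool.Agent.Lib.MP_27cd7e_an.H55

open Polynomial OnePoint

/-- The map `P / Q` of the Riemann sphere `ℂ ∪ {∞}` to itself: a zero of `Q` goes to `∞`, and
`∞` goes to the limit of `P z / Q z` as `z → ∞`. -/
noncomputable def ratMap (P Q : ℂ[X]) (x : OnePoint ℂ) : OnePoint ℂ :=
  OnePoint.elim x
    (if Q.natDegree < P.natDegree then ∞
      else ((P.coeff Q.natDegree / Q.leadingCoeff : ℂ) : OnePoint ℂ))
    (fun z => if Q.eval z = 0 then ∞ else ((P.eval z / Q.eval z : ℂ) : OnePoint ℂ))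

/-- The standard local parameter centred at `z₀`: `w ↦ a + w` if `z₀ = a` is finite, and
`w ↦ 1 / w` (with `0 ↦ ∞`) if `z₀ = ∞`. -/
noncomputable def chart (z₀ : OnePoint ℂ) (w : ℂ) : OnePoint ℂ :=
  OnePoint.elim z₀ (if w = 0 then ∞ else ((w⁻¹ : ℂ) : OnePoint ℂ))
    (fun a => ((a + w : ℂ) : OnePoint ℂ))

/-- The local coordinate inverse to `chart z₀`: `x ↦ x - a` if `z₀ = a` is finite, and
`x ↦ 1 / x` (with `∞ ↦ 0`) if `z₀ = ∞`. The one point outside the chart gets the value `0`. -/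
noncomputable def coord (z₀ x : OnePoint ℂ) : ℂ :=
  OnePoint.elim z₀ (OnePoint.elim x 0 (fun z => z⁻¹))
    (fun a => OnePoint.elim x 0 (fun z => z - a))

/-- A self-map `g` of the sphere read in the local coordinate centred at `z₀`. -/
noncomputable def inChart (z₀ : OnePoint ℂ) (g : OnePoint ℂ → OnePoint ℂ) (w : ℂ) : ℂ :=
  coord z₀ (g (chart z₀ w))

end Pool.Agent.Lib.MP_27cd7e_an.H55
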