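import Pool.Agent.Lib.MP_27cd7e_an.Main
import Pool.Agent.Lib.MP_27cd7e_an.H55Defs

set_option autoImplicit false

namespace Pool.Agent.Lib.MP_27cd7e_an.H55

open Polynomial OnePoint Filter Topology

/-- the point with homogeneous coordinates `a`, `b` -/
noncomputable def pt (a b : ℂ) : OnePoint ℂ :=
  if b = 0 then ∞ else ((a / b : ℂ) : OnePoint ℂ)

/-- `g` is given by a pair of forms of degree `d` without common zero -/
def IsRat (d : ℕ) (g : OnePoint ℂ → OnePoint ℂ) : Prop :=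
  ∃ A B : ℂ[X], A.natDegree ≤ d ∧ B.natDegree ≤ d ∧ (∀ z, B.eval z = 0 → A.eval z ≠ 0) ∧
    (B.coeff d = 0 → A.coeff d ≠ 0) ∧ g ∞ = pt (A.coeff d) (B.coeff d) ∧
    ∀ z : ℂ, g z = pt (A.eval z) (B.eval z)

/-- the form of degree `d` attached to `A` -/
noncomputable def hev (d : ℕ) (A : ℂ[X]) (x y : ℂ) : ℂ :=
  ∑ j ∈ Finset.range (d + 1), A.coeff j * (x ^ j * y ^ (d - j))

lemma hev_ne {d : ℕ} {A : ℂ[X]} (hA : A.natDegree ≤ d) (x : ℂ) {y : ℂ} (hy : y ≠ 0) :
    hev d A x y = y ^ d * A.eval (x / y) := by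
  rw [hev, eval_eq_sum_range' (Nat.lt_succ_of_le hA), Finset.mul_sum]
  refine Finset.sum_congr rfl fun j hj => ?_
  obtain ⟨e, rfl⟩ := Nat.exists_eq_add_of_le (Nat.lt_succ_iff.1 (Finset.mem_range.1 hj))
  simp only [Nat.add_sub_cancel_left, div_pow, pow_add]
  field_simp

lemma hev_zero (d : ℕ) (A : ℂ[X]) (x : ℂ) : hev d A x 0 = x ^ d * A.coeff d := by
  rw [hev, Finset.sum_eq_single d]
  · simp [mul_comm]
  · intro j hj hne
    have := Finset.mem_range.1 hj
    simp [show d - j ≠ 0 by omega]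
  · simp

lemma pt_mul {c : ℂ} (hc : c ≠ 0) (a b : ℂ) : pt (c * a) (c * b) = pt a b := by
  by_cases hb : b = 0
  · simp [pt, hb]
  · simp [pt, hb, hc, mul_div_mul_left _ _ hc]

lemma IsRat.comp {d e : ℕ} {g h : OnePoint ℂ → OnePoint ℂ} (hg : IsRat d g) (hh : IsRat e h) :
    IsRat (d * e) (g ∘ h) := by
  obtain ⟨A, B, a1, b1, n1, l1, i1, f1⟩ := hg
  obtain ⟨C', D, a2, b2, n2, l2, i2, f2⟩ := hh
  have key : ∀ x y : ℂ, (y = 0 → x ≠ 0) →
      (hev d B x y = 0 → hev d A x y ≠ 0) ∧ g (pt x y) = pt (hev d A x y) (hev d B x y) := by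
    intro x y hxy
    by_cases hy : y = 0
    · subst hy
      have hx := pow_ne_zero d (hxy rfl)
      rw [hev_zero, hev_zero, pt_mul hx]
      refine ⟨fun h => mul_ne_zero hx (l1 ((mul_eq_zero.1 h).resolve_left hx)), ?_⟩
      rw [← i1]; simp [pt]
    · have hy' := pow_ne_zero d hy
      rw [hev_ne a1 x hy, hev_ne b1 x hy, pt_mul hy']
      refine ⟨fun h => mul_ne_zero hy' (n1 _ ((mul_eq_zero.1 h).resolve_left hy')), ?_⟩
      rw [← f1]; simp [pt, hy]
  have sub : ∀ E : ℂ[X], ∃ S : ℂ[X], S.natDegree ≤ d * e ∧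
      S.coeff (d * e) = hev d E (C'.coeff e) (D.coeff e) ∧
      ∀ z, S.eval z = hev d E (C'.eval z) (D.eval z) := by
    intro E
    have hd : ∀ j ∈ Finset.range (d + 1), (C' ^ j * D ^ (d - j)).natDegree ≤ d * e ∧
        (C' ^ j * D ^ (d - j)).coeff (d * e) = C'.coeff e ^ j * D.coeff e ^ (d - j) := by
      intro j hj
      obtain ⟨k, rfl⟩ := Nat.exists_eq_add_of_le (Nat.lt_succ_iff.1 (Finset.mem_range.1 hj))
      have p1 : (C' ^ j).natDegree ≤ j * e := natDegree_pow_le_of_le j a2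
      have p2 : (D ^ k).natDegree ≤ k * e := natDegree_pow_le_of_le k b2
      rw [Nat.add_sub_cancel_left, add_mul]
      refine ⟨natDegree_mul_le.trans (add_le_add p1 p2), ?_⟩
      rw [coeff_mul_add_eq_of_natDegree_le p1 p2, coeff_pow_of_natDegree_le a2,
        coeff_pow_of_natDegree_le b2]
    refine ⟨∑ j ∈ Finset.range (d + 1), C (E.coeff j) * (C' ^ j * D ^ (d - j)),
      natDegree_sum_le_of_forall_le _ _ fun j hj => (natDegree_C_mul_le _ _).trans (hd j hj).1,
      ?_, fun z => ?_⟩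
    · rw [finsetSum_coeff, hev]
      exact Finset.sum_congr rfl fun j hj => by rw [coeff_C_mul, (hd j hj).2]
    · rw [eval_finsetSum, hev]
      exact Finset.sum_congr rfl fun j _ => by simp
  obtain ⟨S, s1, s2, s3⟩ := sub A
  obtain ⟨T, t1, t2, t3⟩ := sub B
  refine ⟨S, T, s1, t1, fun z => ?_, ?_, ?_, fun z => ?_⟩
  · rw [s3, t3]; exact (key _ _ (n2 z)).1
  · rw [s2, t2]; exact (key _ _ l2).1
  · rw [s2, t2, Function.comp_apply, i2]; exact (key _ _ l2).2
  · rw [s3, t3, Function.comp_apply, f2]; exact (key _ _ (n2 z)).2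

lemma isRat_id : IsRat 1 id :=
  ⟨X, 1, by simp, by simp, by simp, by simp, by simp [pt, coeff_one], by simp [pt]⟩

lemma IsRat.iterate {d : ℕ} {g : OnePoint ℂ → OnePoint ℂ} (hg : IsRat d g) (n : ℕ) :
    IsRat (d ^ n) g^[n] := by
  induction n with
  | zero => simpa using isRat_id
  | succ n ih => rw [pow_succ, Function.iterate_succ]; exact ih.comp hg

lemma isRat_ratMap {P Q : ℂ[X]} (hPQ : IsCoprime P Q) (hdeg : 2 ≤ max P.natDegree Q.natDegree) :
    IsRat (max P.natDegree Q.natDegree) (ratMap P Q) := by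
  have hP : P ≠ 0 := by
    rintro rfl
    rw [isCoprime_zero_left] at hPQ
    simp [natDegree_eq_zero_of_isUnit hPQ] at hdeg
  have hQ : Q ≠ 0 := by
    rintro rfl
    rw [isCoprime_zero_right] at hPQ
    simp [natDegree_eq_zero_of_isUnit hPQ] at hdeg
  refine ⟨P, Q, le_max_left _ _, le_max_right _ _, fun z h1 h2 => ?_, ?_, ?_, fun z => ?_⟩
  · obtain ⟨A, B, h⟩ := hPQ
    have h3 := congrArg (Polynomial.eval z) h
    simp [h1, h2] at h3
  · rcases le_total P.natDegree Q.natDegree with h | h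
    · rw [max_eq_right h]
      exact fun h1 => absurd h1 (leadingCoeff_ne_zero.2 hQ)
    · rw [max_eq_left h]
      exact fun _ => leadingCoeff_ne_zero.2 hP
  · by_cases h : Q.natDegree < P.natDegree
    · rw [max_eq_left h.le]
      simp [ratMap, pt, h, coeff_eq_zero_of_natDegree_lt h]
    · rw [max_eq_right (not_lt.1 h)]
      simp [ratMap, pt, h, hQ]
  · simp [ratMap, pt]

/-- forget the point at infinity -/
noncomputable def toC (x : OnePoint ℂ) : ℂ := OnePoint.elim x 0 (fun z => z)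

lemma toC_pt (a b : ℂ) : toC (pt a b) = a / b := by
  by_cases hb : b = 0 <;> simp [toC, pt, hb]

lemma exists_mob (z₀ : OnePoint ℂ) : ∃ M M' : OnePoint ℂ → OnePoint ℂ, IsRat 1 M ∧ IsRat 1 M' ∧
    (∀ x, M (M' x) = x) ∧ (∀ x, M' (M x) = x) ∧ (∀ w : ℂ, M w = chart z₀ w) ∧
    (∀ x, coord z₀ x = toC (M' x)) := by
  induction z₀ using OnePoint.rec with
  | infty =>
    let M : OnePoint ℂ → OnePoint ℂ := fun x =>
      OnePoint.elim x ((0 : ℂ) : OnePoint ℂ) (fun z => pt 1 z)
    have hM : IsRat 1 M :=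
      ⟨1, X, by simp, by simp, by simp, by simp, by simp [M, pt, coeff_one], by simp [M]⟩
    have hMM : ∀ x, M (M x) = x := by
      intro x
      induction x using OnePoint.rec with
      | infty => simp [M, pt]
      | coe z => by_cases hz : z = 0 <;> simp [M, pt, hz]
    refine ⟨M, M, hM, hM, hMM, hMM, fun w => ?_, fun x => ?_⟩
    · simp [M, pt, chart]
    · induction x using OnePoint.rec with
      | infty => simp [M, coord, toC]
      | coe z => simp [M, coord, toC_pt]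
  | coe a =>
    let M : ℂ → OnePoint ℂ → OnePoint ℂ := fun c x =>
      OnePoint.elim x ∞ (fun z => ((c + z : ℂ) : OnePoint ℂ))
    have hM : ∀ c, IsRat 1 (M c) := fun c =>
      ⟨X + C c, 1, by simp, by simp, by simp, by simp, by simp [M, pt, coeff_one],
        by simp [M, pt, add_comm]⟩
    refine ⟨M a, M (-a), hM a, hM (-a), fun x => ?_, fun x => ?_, fun w => ?_, fun x => ?_⟩
    · induction x using OnePoint.rec <;> simp [M]
    · induction x using OnePoint.rec <;> simp [M]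
    · simp [M, chart]
    · induction x using OnePoint.rec with
      | infty => simp [M, coord, toC]
      | coe z => simp [M, coord, toC, sub_eq_neg_add]

lemma chart_zero (z₀ : OnePoint ℂ) : chart z₀ 0 = z₀ := by
  induction z₀ using OnePoint.rec <;> simp [chart]

lemma tendsto_chart (z₀ : OnePoint ℂ) : Tendsto (chart z₀) (𝓝 0) (𝓝 z₀) := by
  induction z₀ using OnePoint.rec with
  | infty =>
    rw [← nhdsNE_sup_pure (0 : ℂ), tendsto_sup]
    constructor
    · have h1 : Tendsto (fun w : ℂ => ((w⁻¹ : ℂ) : OnePoint ℂ)) (𝓝[≠] 0) (𝓝 ∞) := by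
        refine OnePoint.tendsto_coe_infty.comp ?_
        rw [Filter.coclosedCompact_eq_cocompact, ← Metric.cobounded_eq_cocompact]
        exact tendsto_inv₀_nhdsNE_zero
      refine h1.congr' ?_
      filter_upwards [self_mem_nhdsWithin] with w hw
      have hw' : w ≠ 0 := hw
      simp [chart, hw']
    · have := tendsto_pure_nhds (chart ∞) 0
      rwa [chart_zero] at this
  | coe a =>
    have h1 : Continuous fun w : ℂ => ((a + w : ℂ) : OnePoint ℂ) :=
      OnePoint.continuous_coe.comp (continuous_const.add continuous_id)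
    have h2 := h1.tendsto 0
    simp only [add_zero] at h2
    exact h2

theorem small_cycles {d : ℕ} (hd : 2 ≤ d) {g : OnePoint ℂ → OnePoint ℂ} (hg : IsRat d g)
    {z₀ : OnePoint ℂ} (hfix : g z₀ = z₀) {α : ℝ} (hα : Irrational α)
    (hmul : deriv (inChart z₀ g) 0 = Complex.exp (2 * Real.pi * Complex.I * α))
    (hC : ¬ ∃ φ : ℂ → ℂ, AnalyticAt ℂ φ 0 ∧ φ 0 = 0 ∧ deriv φ 0 ≠ 0 ∧
      ∀ᶠ w in 𝓝 (0 : ℂ), φ (inChart z₀ g w) = Complex.exp (2 * Real.pi * Complex.I * α) * φ w)
    {U : Set (OnePoint ℂ)} (hU : U ∈ 𝓝 z₀) :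
    {c : Set (OnePoint ℂ) | c ⊆ U ∧ ∃ x : OnePoint ℂ, ∃ m : ℕ, 1 ≤ m ∧ g^[m] x = x ∧
      c = {y | ∃ k < m, g^[k] x = y}}.Infinite := by
  intro hfin
  obtain ⟨M, M', hM, hM', hMM', hM'M, hch, hco⟩ := exists_mob z₀
  obtain ⟨A, B, a1, b1, n1, l1, -, f1⟩ := hM'.comp (hg.comp hM)
  simp only [one_mul, mul_one] at a1 b1 l1
  have hin : inChart z₀ g = fun w => A.eval w / B.eval w := by
    funext w
    rw [inChart, hco, ← hch, ← toC_pt, ← f1]
    rfl
  have h0 : pt (A.eval 0) (B.eval 0) = ((0 : ℂ) : OnePoint ℂ) := by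
    rw [← f1]
    have : M ((0 : ℂ) : OnePoint ℂ) = z₀ := by rw [hch, chart_zero]
    simp only [Function.comp_apply]
    rw [this, hfix, ← this, hM'M]
  have hB0 : B.eval 0 ≠ 0 := by
    intro h
    simp [pt, h] at h0
  have hA0 : A.eval 0 = 0 := by
    simpa [pt, hB0] using h0
  have hdeg : 2 ≤ max A.natDegree B.natDegree := by
    by_cases h : B.coeff d = 0
    · exact hd.trans ((le_natDegree_of_ne_zero (l1 h)).trans (le_max_left _ _))
    · exact hd.trans ((le_natDegree_of_ne_zero h).trans (le_max_right _ _))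
  rw [hin] at hmul hC
  set f : ℂ → ℂ := fun w => A.eval w / B.eval w with hf
  have hS : (⋃₀ {c : Set (OnePoint ℂ) | c ⊆ U ∧ ∃ x : OnePoint ℂ, ∃ m : ℕ, 1 ≤ m ∧ g^[m] x = x ∧
      c = {y | ∃ k < m, g^[k] x = y}}).Finite := by
    refine hfin.sUnion ?_
    rintro c ⟨-, x, m, -, -, rfl⟩
    exact ((Set.finite_lt_nat m).image fun k => g^[k] x).subset fun y ⟨k, hk, h⟩ => ⟨k, hk, h⟩
  have hS' := ((hS.image fun x => toC (M' x)).sdiff (t := {0})).isClosed.isOpen_compl.mem_nhds
    (x := 0) (fun h => h.2 rfl)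
  obtain ⟨ρ, hρ, hloc⟩ := Metric.mem_nhds_iff.1
    (Filter.inter_mem hS' (Filter.inter_mem (B.continuous.continuousAt.eventually_ne hB0)
      ((tendsto_chart z₀).eventually hU)))
  have hap : Aper f := by
    refine ⟨ρ, hρ, fun z hz m hm hi he => ?_⟩
    have key : ∀ i, g^[i] (M z) = M (f^[i] z : ℂ) := by
      intro i
      induction i with
      | zero => rfl
      | succ i ih =>
        have hb : B.eval (f^[i] z) ≠ 0 := (hloc (hi i)).2.1
        rw [Function.iterate_succ_apply', Function.iterate_succ_apply', ih, ← hMM' (g _)]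
        have := f1 (f^[i] z)
        simp only [Function.comp_apply] at this
        rw [this, pt, if_neg hb]
    refine (hloc (hi 0)).1 ⟨⟨M z, ⟨{y | ∃ k < m, g^[k] (M z) = y}, ⟨?_, M z, m, hm, ?_, rfl⟩,
      0, hm, rfl⟩, ?_⟩, hz⟩
    · rintro y ⟨k, -, rfl⟩
      rw [key, hch]
      exact (hloc (hi k)).2.2
    · rw [key, he]
    · simp [hM'M, toC]
  obtain ⟨h, r, hr, h1, h2, h3, h4⟩ := linearizable A B n1 hdeg hA0 hα hmul hap
  generalize Complex.exp (2 * Real.pi * Complex.I * α) = lam at *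
  apply hC
  have hφ := h1.analyticAt_localInverse h3
  have hl := h1.hasStrictDerivAt.eventually_left_inverse h3
  have hr' := h1.hasStrictDerivAt.eventually_right_inverse h3
  have hder := (h1.hasStrictDerivAt.to_localInverse h3).hasDerivAt.deriv
  have h5 := hl.self_of_nhds
  rw [h2] at hφ hr' hder h5
  generalize h1.hasStrictDerivAt.localInverse h (deriv h 0) 0 h3 = φ at *
  have ht : Tendsto φ (𝓝 0) (𝓝 0) := by simpa [h5] using hφ.continuousAt.tendsto
  have ht' : Tendsto (fun w => lam * φ w) (𝓝 0) (𝓝 0) := by simpa using ht.const_mul lam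
  refine ⟨φ, hφ, h5, by rw [hder]; exact inv_ne_zero h3, ?_⟩
  filter_upwards [hr', ht.eventually (Metric.ball_mem_nhds 0 hr), ht'.eventually hl] with w e1 e2 e3
  have e4 := h4 _ e2
  rw [e1] at e4
  rw [← e3, ← e4]

end Pool.Agent.Lib.MP_27cd7e_an.H55
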