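import Pool.Agent.Lib.MP_27cd7e_an.Stage2

set_option autoImplicit false

namespace Pool.Agent.Lib.MP_27cd7e_an

open Metric Set Complex Filter Topology

lemma rot_bounds (x : ℝ) :
    4 * |x - round x| ≤ ‖exp (2 * Real.pi * I * x) - 1‖ ∧
      ‖exp (2 * Real.pi * I * x) - 1‖ ≤ 7 * |x - round x| := by
  have e : exp (2 * Real.pi * I * x) = exp (I * ((2 * Real.pi * (x - round x) : ℝ) : ℂ)) := by
    have h1 := Complex.exp_int_mul_two_pi_mul_I (round x)
    rw [← mul_one (exp (I * _)), ← h1, ← exp_add]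
    congr 1
    push_cast
    ring
  rw [e, Complex.norm_exp_I_mul_ofReal_sub_one, Real.norm_eq_abs, abs_mul, abs_two]
  have hd := abs_sub_round x
  generalize x - round x = d at hd
  rw [show 2 * Real.pi * d / 2 = Real.pi * d by ring]
  have hpi := Real.pi_pos
  have h2 : |Real.sin (Real.pi * d)| = Real.sin (Real.pi * |d|) := by
    rcases le_total 0 d with h | h
    · rw [abs_of_nonneg h] at hd ⊢
      exact abs_of_nonneg (Real.sin_nonneg_of_nonneg_of_le_pi (by positivity) (by nlinarith))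
    · rw [abs_of_nonpos h] at hd ⊢
      rw [← abs_neg, ← Real.sin_neg, ← mul_neg]
      exact abs_of_nonneg (Real.sin_nonneg_of_nonneg_of_le_pi (by nlinarith) (by nlinarith))
  rw [h2]
  have h0 := abs_nonneg d
  constructor
  · have := Real.mul_le_sin (x := Real.pi * |d|) (by positivity) (by nlinarith)
    rw [show 2 / Real.pi * (Real.pi * |d|) = 2 * |d| by field_simp] at this
    linarith
  · have := Real.sin_le (x := Real.pi * |d|) (by positivity)
    nlinarith [Real.pi_lt_d2]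

/-- `x ^ 2` is the error of a good rational approximation of `α` -/
def Good (α x : ℝ) : Prop :=
  0 < x ∧ ∃ (q : ℕ) (p : ℤ), 1 ≤ q ∧ |q * α - p| = x ^ 2 ∧ q * x ^ 2 ≤ 2

lemma exists_best {α : ℝ} (hα : Irrational α) {y : ℝ} (hy : 0 < y) (hy1 : y ≤ 1) :
    ∃ (q : ℕ) (x : ℝ), 1 ≤ q ∧ 0 < x ∧ |q * α - round (q * α)| = x ^ 2 ∧ x ^ 2 < y ∧ q * y ≤ 1 ∧
      ∀ k : ℕ, 1 ≤ k → k < q → y ≤ |k * α - round (k * α)| := by
  classical
  have hn : 0 < ⌊1 / y⌋₊ := Nat.floor_pos.2 (by rw [le_div_iff₀ hy]; linarith)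
  obtain ⟨k, hk0, hk1, hk2⟩ := Real.exists_nat_abs_mul_sub_round_le α hn
  have hk3 : |k * α - round (k * α)| < y := by
    refine hk2.trans_lt ?_
    rw [div_lt_iff₀ (by positivity)]
    have := Nat.lt_floor_add_one (1 / y)
    rw [div_lt_iff₀ hy] at this
    linarith
  have hex : ∃ k : ℕ, 1 ≤ k ∧ |k * α - round (k * α)| < y := ⟨k, hk0, hk3⟩
  have h1 := Nat.find_spec hex
  have h2 : Nat.find hex ≤ k := Nat.find_min' hex ⟨hk0, hk3⟩
  have h3 : ∀ k : ℕ, 1 ≤ k → k < Nat.find hex → y ≤ |k * α - round (k * α)| := by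
    intro j hj hj'
    by_contra h
    exact Nat.find_min hex hj' ⟨hj, not_le.1 h⟩
  generalize Nat.find hex = q at h1 h2 h3
  have hpos : 0 < |q * α - round (q * α)| := by
    rw [abs_pos, sub_ne_zero]
    exact (hα.natCast_mul (by omega : q ≠ 0)).ne_int _
  refine ⟨q, √|q * α - round (q * α)|, h1.1, Real.sqrt_pos.2 hpos,
    (Real.sq_sqrt hpos.le).symm, by rw [Real.sq_sqrt hpos.le]; exact h1.2, ?_, h3⟩
  have h4 : (q : ℝ) ≤ 1 / y :=
    le_trans (by exact_mod_cast h2.trans hk1) (Nat.floor_le (by positivity))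
  rwa [le_div_iff₀ hy] at h4

lemma good_next {α x : ℝ} (hα : Irrational α) (hx : Good α x) (hx1 : x ≤ 1 / 2) :
    ∃ (q : ℕ) (x' : ℝ), Good α x' ∧ x' ≤ x ^ 4 ∧ 1 ≤ q ∧ q * x ^ 8 ≤ 1 ∧ 1 ≤ 2 * q * x ^ 2 ∧
      (∀ k : ℕ, 1 ≤ k → k < q → x ^ 8 ≤ ‖exp (2 * Real.pi * I * α) ^ k - 1‖) ∧
      exp (2 * Real.pi * I * α) ^ q - 1 ≠ 0 ∧
      ‖exp (2 * Real.pi * I * α) ^ q - 1‖ ≤ 7 * x' ^ 2 := by
  obtain ⟨hx0, q0, p0, hq0, h0, h0'⟩ := hx
  obtain ⟨q, x', hq, hx', h1, h2, h3, h4⟩ := exists_best hα (y := x ^ 8) (by positivity)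
    (pow_le_one₀ hx0.le (by linarith))
  have hq' : (1 : ℝ) ≤ q := by exact_mod_cast hq
  have hq0' : (1 : ℝ) ≤ q0 := by exact_mod_cast hq0
  have hpow : ∀ k : ℕ, exp (2 * Real.pi * I * α) ^ k =
      exp (2 * Real.pi * I * ((k * α : ℝ) : ℂ)) := by
    intro k
    rw [← Complex.exp_nat_mul]
    congr 1
    push_cast
    ring
  have hx6 : x ^ 4 ≤ 1 / 16 := by
    have := pow_le_pow_left₀ hx0.le hx1 4
    linarith
  refine ⟨q, x', ⟨hx', q, _, hq, h1, by nlinarith⟩, ?_, hq, h3, ?_, fun k hk hk' => ?_, ?_, ?_⟩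
  · exact (pow_lt_pow_iff_left₀ hx'.le (by positivity) two_ne_zero).1 (by nlinarith) |>.le
  · have e : ((q0 * round (q * α) - q * p0 : ℤ) : ℝ) =
        q * (q0 * α - p0) - q0 * (q * α - round (q * α)) := by push_cast; ring
    have b1 : |(q : ℝ) * (q0 * α - p0)| = q * x ^ 2 := by
      rw [abs_mul, h0, abs_of_nonneg (by linarith)]
    have b2 : |(q0 : ℝ) * (q * α - round (q * α))| < q * x ^ 2 := by
      rw [abs_mul, h1, abs_of_nonneg (by linarith)]
      have c1 : (q0 : ℝ) * x' ^ 2 < q0 * x ^ 8 := mul_lt_mul_of_pos_left h2 (by linarith)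
      have c2 : (q0 : ℝ) * x ^ 8 = q0 * x ^ 2 * x ^ 4 * x ^ 2 := by ring
      have c3 : (q0 : ℝ) * x ^ 2 * x ^ 4 ≤ 2 * (1 / 16) :=
        mul_le_mul h0' hx6 (by positivity) (by norm_num)
      have c4 : 0 < x ^ 2 := by positivity
      nlinarith
    have hne : (q0 * round (q * α) - q * p0 : ℤ) ≠ 0 := by
      intro h
      rw [h, Int.cast_zero, eq_comm, sub_eq_zero] at e
      rw [← e, b1] at b2
      exact lt_irrefl _ b2
    have h5 : (1 : ℝ) ≤ |((q0 * round (q * α) - q * p0 : ℤ) : ℝ)| := by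
      exact_mod_cast Int.one_le_abs hne
    rw [e] at h5
    have := abs_sub ((q : ℝ) * (q0 * α - p0)) ((q0 : ℝ) * (q * α - round (q * α)))
    linarith
  · rw [hpow]
    have := (rot_bounds (k * α)).1
    have h5 := h4 k hk hk'
    linarith [abs_nonneg (k * α - round (k * α))]
  · rw [hpow, ← norm_pos_iff]
    have := (rot_bounds (q * α)).1
    rw [h1] at this
    nlinarith
  · rw [hpow, ← h1]
    exact (rot_bounds (q * α)).2

lemma numeric {C : ℝ} (hC : 0 ≤ C) : ∃ x0 : ℝ, 0 < x0 ∧ x0 ≤ 1 / 7200 ∧ ∀ x : ℝ, 0 < x → x ≤ x0 →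
    ∀ q : ℕ, q * x ^ 8 ≤ 1 → 1 ≤ 2 * q * x ^ 2 → ∀ η : ℝ, 0 ≤ η → η ≤ x ^ 50 →
      q * η ≤ x / 12 ∧
      q * ((24 * η / x ^ 2 + 4 * (C * q ^ 3 + 2) * η / x ^ 2) / x ^ 8) +
        2 * (C * q ^ 3 + 2) / x * (1 - x) ^ q / x ≤ x / 20 := by
  set K : ℝ := 2 * (C + 2) * ((Nat.factorial 28 : ℕ) * 2 ^ 28) with hK
  have hK0 : 0 < K := by positivity
  refine ⟨min (1 / 7200) (1 / (20 * (4 * C + 32 + K))), by positivity, min_le_left _ _, ?_⟩
  intro x hx hx0 q hq1 hq2 η hη0 hη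
  have hx1 : x ≤ 1 / 7200 := hx0.trans (min_le_left _ _)
  have hx2 : x * (20 * (4 * C + 32 + K)) ≤ 1 := by
    have := hx0.trans (min_le_right _ _)
    rwa [le_div_iff₀ (by positivity)] at this
  have hle : ∀ {a b : ℕ}, a ≤ b → x ^ b ≤ x ^ a := fun h =>
    pow_le_pow_of_le_one hx.le (by linarith) h
  have hq0 : (0 : ℝ) ≤ q := Nat.cast_nonneg q
  have hA : (C * q ^ 3 + 2) * x ^ 24 ≤ C + 2 := by
    have h1 : ((q : ℝ) * x ^ 8) ^ 3 ≤ 1 := pow_le_one₀ (by positivity) hq1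
    have h2 : x ^ 24 ≤ 1 := by simpa using hle (Nat.zero_le 24)
    have e : (C * q ^ 3 + 2) * x ^ 24 = C * ((q : ℝ) * x ^ 8) ^ 3 + 2 * x ^ 24 := by ring
    nlinarith
  have hqη : q * η ≤ x ^ 42 := by
    have h1 : (q : ℝ) * η ≤ q * x ^ 50 := mul_le_mul_of_nonneg_left hη hq0
    have e : (q : ℝ) * x ^ 50 = q * x ^ 8 * x ^ 42 := by ring
    have h2 : 0 < x ^ 42 := by positivity
    nlinarith
  constructor
  · have h1 : x ^ 42 ≤ x ^ 2 := hle (by norm_num)
    nlinarith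
  · have t1 : q * ((24 * η / x ^ 2 + 4 * (C * q ^ 3 + 2) * η / x ^ 2) / x ^ 8) ≤
        (4 * C + 32) * x ^ 2 := by
      have e : q * ((24 * η / x ^ 2 + 4 * (C * q ^ 3 + 2) * η / x ^ 2) / x ^ 8) =
          q * η * (24 * x ^ 24 + 4 * ((C * q ^ 3 + 2) * x ^ 24)) / x ^ 34 := by
        field_simp
      rw [e, div_le_iff₀ (by positivity)]
      have h2 : x ^ 24 ≤ 1 := by simpa using hle (Nat.zero_le 24)
      have h3 : x ^ 42 ≤ x ^ 36 := hle (by norm_num)
      calc _ ≤ x ^ 36 * (4 * C + 32) :=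
            mul_le_mul (hqη.trans h3) (by linarith) (by positivity) (by positivity)
        _ = _ := by ring
    have t2 : 2 * (C * q ^ 3 + 2) / x * (1 - x) ^ q / x ≤ K * x ^ 2 := by
      have h1 : (1 - x) ^ q ≤ Real.exp (-(1 / (2 * x))) := by
        calc (1 - x) ^ q ≤ Real.exp (-x) ^ q :=
              pow_le_pow_left₀ (by linarith) (by linarith [Real.add_one_le_exp (-x)]) q
          _ = Real.exp (q * -x) := (Real.exp_nat_mul _ _).symm
          _ ≤ _ := by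
              rw [Real.exp_le_exp, mul_neg, neg_le_neg_iff, div_le_iff₀ (by positivity)]
              nlinarith
      have h2 : Real.exp (-(1 / (2 * x))) ≤ ((Nat.factorial 28 : ℕ) * 2 ^ 28) * x ^ 28 := by
        have h3 := Real.pow_div_factorial_le_exp (1 / (2 * x)) (by positivity) 28
        rw [Real.exp_neg, inv_le_comm₀ (Real.exp_pos _) (by positivity)]
        refine le_trans (le_of_eq ?_) h3
        field_simp
      have e : 2 * (C * q ^ 3 + 2) / x * (1 - x) ^ q / x =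
          2 * ((C * q ^ 3 + 2) * x ^ 24) * (1 - x) ^ q / x ^ 26 := by
        field_simp
      rw [e, div_le_iff₀ (by positivity)]
      calc _ ≤ 2 * (C + 2) * (((Nat.factorial 28 : ℕ) * 2 ^ 28) * x ^ 28) :=
            mul_le_mul (by linarith) (h1.trans h2) (pow_nonneg (by linarith) q) (by positivity)
        _ = _ := by rw [hK]; ring
    nlinarith

theorem linearize {α : ℝ} (hα : Irrational α) {lam : ℂ} (hl : lam = exp (2 * Real.pi * I * α))
    {C : ℝ} (hC0 : 0 ≤ C)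
    (hC : ∀ q : ℕ, 1 ≤ q → lam ^ q - 1 ≠ 0 →
      (∀ m : ℕ, 1 ≤ m → m < q → 1 / (16 * (q : ℝ) ^ 4) ≤ ‖lam ^ m - 1‖) →
      Real.exp (-(C * q ^ 3)) ≤ ‖lam ^ q - 1‖) :
    ∃ η : ℝ, 0 < η ∧ ∀ g : ℂ → ℂ, Nice lam g η → ∃ h : ℂ → ℂ,
      DifferentiableOn ℂ h (ball 0 (1 / 2)) ∧ h 0 = 0 ∧ deriv h 0 ≠ 0 ∧
        ∀ w ∈ ball (0 : ℂ) (1 / 4), g (h w) = h (lam * w) := by
  have hlam : ‖lam‖ = 1 := by
    rw [hl, show 2 * (Real.pi : ℂ) * I * α = ((2 * Real.pi * α : ℝ) : ℂ) * I by push_cast; ring]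
    exact Complex.norm_exp_ofReal_mul_I _
  obtain ⟨x0, hx0, hx1, hnum⟩ := numeric hC0
  have step : ∀ s : {s : (ℂ → ℂ) × ℝ // Good α s.2 ∧ s.2 ≤ x0 ∧ Nice lam s.1 (s.2 ^ 50)},
      ∃ s' : {s : (ℂ → ℂ) × ℝ // Good α s.2 ∧ s.2 ≤ x0 ∧ Nice lam s.1 (s.2 ^ 50)},
        ∃ ψ : ℂ → ℂ, Conj s.1.1 s'.1.1 ψ (450 * s.1.2) ∧ s'.1.2 ≤ s.1.2 / 2 := by
    rintro ⟨⟨g, x⟩, hgood, hx, hg⟩
    simp only at hgood hx hg ⊢
    obtain ⟨q, x', hgood', h1, hq, h2, h3, h4, h5, h6⟩ := good_next hα hgood (by linarith)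
    rw [← hl] at h4 h5 h6
    have hxp := hgood.1
    have hxp' := hgood'.1
    have hx2 : x ^ 2 ≤ 1 / 200 := by nlinarith
    have hx4 : x ^ 4 ≤ x ^ 2 / 200 := by nlinarith [sq_nonneg x]
    have hxx : x' ≤ x / 2 := by nlinarith
    have hq' : (1 : ℝ) ≤ q := by exact_mod_cast hq
    have hδ := hC q hq h5 fun m hm hm' => le_trans (by
      rw [div_le_iff₀ (by positivity)]
      have := pow_le_pow_left₀ zero_le_one h3 4
      nlinarith) (h4 m hm hm')
    have hAδ : 3 ≤ ‖lam ^ q - 1‖ * Real.exp (C * q ^ 3 + 2) := by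
      have e : Real.exp (-(C * q ^ 3)) * Real.exp (C * q ^ 3 + 2) = Real.exp 2 := by
        rw [← Real.exp_add]; congr 1; ring
      have := mul_le_mul_of_nonneg_right hδ (Real.exp_pos (C * q ^ 3 + 2)).le
      linarith [Real.add_one_le_exp 2]
    have rep : ∀ m : ℕ, ∃ g' ψ : ℂ → ℂ, Nice lam g' (x' ^ m * x ^ 50) ∧ Conj g g' ψ (9 * m * x) := by
      intro m
      induction m with
      | zero => exact ⟨g, id, by simpa using hg, by simpa using Conj.refl g⟩
      | succ m ih =>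
        obtain ⟨g1, ψ1, n1, c1⟩ := ih
        have hm : x' ^ m ≤ 1 := pow_le_one₀ hxp'.le (by linarith)
        obtain ⟨k1, k2⟩ := hnum x hxp hx q h2 h3 (x' ^ m * x ^ 50) (by positivity)
          (mul_le_of_le_one_left (by positivity) hm)
        obtain ⟨g2, ψ2, n2, c2⟩ := stage hlam n1 hq hxp (by linarith) (by positivity) k1 h5
          (by positivity) hAδ (by positivity) h4 k2
        refine ⟨g2, ψ1 ∘ ψ2, n2.mono ?_, (c1.trans c2).mono (by push_cast; linarith)⟩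
        rw [div_le_iff₀ (by positivity)]
        have k3 : 16 * ‖lam ^ q - 1‖ ≤ x' * x ^ 2 := by nlinarith
        calc _ ≤ x' * x ^ 2 * (x' ^ m * x ^ 50) :=
              mul_le_mul_of_nonneg_right k3 (by positivity)
          _ = _ := by ring
    obtain ⟨g', ψ, n, c⟩ := rep 50
    refine ⟨⟨(g', x'), hgood', by linarith, n.mono ?_⟩, ψ, c.mono (by push_cast; linarith), hxx⟩
    exact mul_le_of_le_one_right (by positivity) (pow_le_one₀ hxp.le (by linarith))
  choose next psi hconj hhalf using step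
  obtain ⟨q0, y, hq0, hy, b1, b2, b3, -⟩ := exists_best hα (y := x0 ^ 2) (by positivity)
    (by nlinarith)
  have hy0 : y ≤ x0 := ((pow_lt_pow_iff_left₀ hy.le hx0.le two_ne_zero).1 b2).le
  have hgy : Good α y := ⟨hy, q0, _, hq0, b1, by
    have : (q0 : ℝ) * y ^ 2 ≤ q0 * x0 ^ 2 := mul_le_mul_of_nonneg_left b2.le (Nat.cast_nonneg _)
    linarith⟩
  refine ⟨y ^ 50, by positivity, fun g hg => ?_⟩
  let s : ℕ → _ := fun n => next^[n] ⟨(g, y), hgy, hy0, hg⟩
  have hs : ∀ n, s (n + 1) = next (s n) := fun n => Function.iterate_succ_apply' _ _ _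
  have hpos : ∀ n, 0 < (s n).1.2 := fun n => (s n).2.1.1
  have hgeo : ∀ n, (s n).1.2 ≤ x0 * (1 / 2) ^ n := by
    intro n
    induction n with
    | zero => simpa using (s 0).2.2.1
    | succ n ih => rw [hs, pow_succ]; linarith [hhalf (s n)]
  let Ψ : ℕ → ℂ → ℂ := fun n => Nat.rec id (fun n F => F ∘ psi (s n)) n
  have hΨ : ∀ n, Ψ (n + 1) = Ψ n ∘ psi (s n) := fun n => rfl
  have hc : ∀ n, Conj g (s n).1.1 (Ψ n) (900 * x0 - 900 * (s n).1.2) := by
    intro n
    induction n with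
    | zero => exact (Conj.refl g).mono (by have := (s 0).2.2.1; linarith)
    | succ n ih =>
      rw [hΨ, hs]
      exact (ih.trans (hconj (s n))).mono (by linarith [hhalf (s n)])
  have hlip : ∀ n, ∀ a ∈ ball (0 : ℂ) (3 / 4), ∀ b ∈ ball (0 : ℂ) (3 / 4),
      ‖Ψ n a - Ψ n b‖ ≤ 8 * ‖a - b‖ := by
    intro n a ha b hb
    refine mvt ((hc n).diff.mono (ball_subset_ball (by norm_num))) (fun w hw => ?_) ha hb
    rw [mem_ball_zero_iff] at hw
    have := deriv_bound (M := 1) (s := 1 / 4) (z := w) (hc n).diff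
      (fun u hu => (mem_ball_zero_iff.1 ((hc n).maps hu)).le) (by norm_num)
      (by rw [sub_zero]; linarith)
    linarith
  have hd : ∀ w ∈ ball (0 : ℂ) (1 / 2), ∀ n, dist (Ψ n w) (Ψ (n + 1) w) ≤ 1 * (1 / 2) ^ n := by
    intro w hw n
    have h1 := (hconj (s n)).near w (ball_subset_ball (by norm_num) hw)
    have h2 := (s n).2.2.1
    have h3 := hgeo n
    have h4 : psi (s n) w ∈ ball (0 : ℂ) (3 / 4) := by
      rw [mem_ball_zero_iff] at hw ⊢
      linarith [norm_le_norm_sub_add (psi (s n) w) w]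
    have h5 := hlip n _ h4 w (ball_subset_ball (by norm_num) hw)
    rw [dist_comm, dist_eq_norm, hΨ, Function.comp_apply]
    have h6 : (0 : ℝ) < (1 / 2) ^ n := by positivity
    nlinarith
  have hex : ∀ w : ℂ, ∃ a : ℂ, w ∈ ball (0 : ℂ) (1 / 2) → Tendsto (fun n => Ψ n w) atTop (𝓝 a) := by
    intro w
    by_cases hw : w ∈ ball (0 : ℂ) (1 / 2)
    · obtain ⟨a, ha⟩ := cauchySeq_tendsto_of_complete
        (cauchySeq_of_le_geometric (1 / 2) 1 (by norm_num) (hd w hw))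
      exact ⟨a, fun _ => ha⟩
    · exact ⟨0, fun h => absurd h hw⟩
  choose h hh using hex
  have hz : Tendsto (fun n : ℕ => (1 / 2 : ℝ) ^ n) atTop (𝓝 0) :=
    tendsto_pow_atTop_nhds_zero_of_lt_one (by norm_num) (by norm_num)
  have hunif : TendstoUniformlyOn Ψ h atTop (ball 0 (1 / 2)) := by
    rw [Metric.tendstoUniformlyOn_iff]
    intro ε hε
    filter_upwards [hz.eventually (gt_mem_nhds (half_pos hε))] with n hn w hw
    have := dist_le_of_le_geometric_of_tendsto (1 / 2) 1 (by norm_num) (hd w hw) (hh w hw) n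
    rw [dist_comm]
    refine this.trans_lt ?_
    rw [div_lt_iff₀ (by norm_num)]
    linarith
  have hdiff : DifferentiableOn ℂ h (ball 0 (1 / 2)) :=
    hunif.tendstoLocallyUniformlyOn.differentiableOn
      (Eventually.of_forall fun n => (hc n).diff.mono (ball_subset_ball (by norm_num))) isOpen_ball
  have hnear : ∀ w ∈ ball (0 : ℂ) (1 / 2), ‖h w - w‖ ≤ 1 / 8 := by
    intro w hw
    refine le_of_tendsto' ((hh w hw).sub_const w).norm fun n => ?_
    have := (hc n).near w (ball_subset_ball (by norm_num) hw)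
    linarith [hpos n]
  have h0 : h 0 = 0 := by
    refine tendsto_nhds_unique (hh 0 (mem_ball_self (by norm_num))) ?_
    simp only [fun n => (hc n).zero]
    exact tendsto_const_nhds
  refine ⟨h, hdiff, h0, fun hd0 => ?_, fun w hw => ?_⟩
  · have h1 := deriv_bound (F := fun w => h w - w) (z := 0) (s := 1 / 2)
      (hdiff.sub differentiableOn_id) hnear (by norm_num) (by simp)
    rw [((diffAt hdiff (mem_ball_self (by norm_num))).hasDerivAt.fun_sub
      (hasDerivAt_id' 0)).deriv, hd0] at h1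
    norm_num at h1
  · have hw2 : w ∈ ball (0 : ℂ) (1 / 2) := ball_subset_ball (by norm_num) hw
    have hw1 : w ∈ ball (0 : ℂ) 1 := ball_subset_ball (by norm_num) hw
    have hlw : ‖lam * w‖ < 1 / 4 := by
      rw [norm_mul, hlam, one_mul]; exact mem_ball_zero_iff.1 hw
    have hsm : ∀ n, ‖(s n).1.1 w - lam * w‖ ≤ 1 / 4 * (1 / 2) ^ n := by
      intro n
      have h1 := (s n).2.2.2.near w hw1
      have h2 : (s n).1.2 ^ 50 ≤ (s n).1.2 ^ 1 :=
        pow_le_pow_of_le_one (hpos n).le (by linarith [(s n).2.2.1]) (by norm_num)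
      have h3 := hgeo n
      have h6 : (0 : ℝ) < (1 / 2) ^ n := by positivity
      nlinarith
    have hin : ∀ n, (s n).1.1 w ∈ ball (0 : ℂ) (3 / 4) := by
      intro n
      have h6 : (1 / 2 : ℝ) ^ n ≤ 1 := pow_le_one₀ (by norm_num) (by norm_num)
      rw [mem_ball_zero_iff]
      linarith [norm_le_norm_sub_add ((s n).1.1 w) (lam * w), hsm n]
    have t1 : Tendsto (fun n => g (Ψ n w)) atTop (𝓝 (g (h w))) := by
      refine (diffAt hg.diff ?_).continuousAt.tendsto.comp (hh w hw2)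
      rw [mem_ball_zero_iff] at hw ⊢
      linarith [norm_le_norm_sub_add (h w) w, hnear w hw2]
    have t2 : Tendsto (fun n => g (Ψ n w) - Ψ n (lam * w)) atTop (𝓝 0) := by
      refine squeeze_zero_norm (a := fun n => 2 * (1 / 2) ^ n) (fun n => ?_)
        (by simpa using hz.const_mul 2)
      rw [← (hc n).conj w hw1 (ball_subset_ball (by norm_num) (hin n))]
      have := hlip n _ (hin n) (lam * w) (by rw [mem_ball_zero_iff]; linarith)
      linarith [hsm n]
    have t3 := t1.sub (hh (lam * w) (by rw [mem_ball_zero_iff]; linarith))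
    exact sub_eq_zero.1 (tendsto_nhds_unique t3 t2)

end Pool.Agent.Lib.MP_27cd7e_an
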