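import Pool.Agent.Lib.MP_27cd7e_an.CaseA
import Pool.Agent.Lib.MP_27cd7e_an.Linearize

set_option autoImplicit false

namespace Pool.Agent.Lib.MP_27cd7e_an

open Metric Set Complex Filter Topology Polynomial

/-- the arithmetic bound forced on the multiplier -/
def Bound (lam : ℂ) : Prop :=
  ∃ C : ℝ, 0 ≤ C ∧ ∀ q : ℕ, 1 ≤ q → lam ^ q - 1 ≠ 0 →
    (∀ m : ℕ, 1 ≤ m → m < q → 1 / (16 * (q : ℝ) ^ 4) ≤ ‖lam ^ m - 1‖) →
    Real.exp (-(C * q ^ 3)) ≤ ‖lam ^ q - 1‖

/-- no periodic orbit other than `0` in some disc around `0` -/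
def Aper (f : ℂ → ℂ) : Prop :=
  ∃ ρ : ℝ, 0 < ρ ∧ ∀ z : ℂ, z ≠ 0 → ∀ m, 1 ≤ m → (∀ i, f^[i] z ∈ ball (0 : ℂ) ρ) → f^[m] z ≠ z

lemma rat_deriv (P Q : ℂ[X]) {z : ℂ} (hz : Q.eval z ≠ 0) :
    HasDerivAt (fun z => P.eval z / Q.eval z)
      ((derivative P * Q - P * derivative Q).eval z / Q.eval z ^ 2) z := by
  simpa using (P.hasDerivAt z).fun_div (Q.hasDerivAt z) hz

lemma rat_analytic (P Q : ℂ[X]) {z : ℂ} (hz : Q.eval z ≠ 0) :
    AnalyticAt ℂ (fun z => P.eval z / Q.eval z) z :=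
  (P.differentiable.analyticAt z).div (Q.differentiable.analyticAt z) hz

lemma bound_of_degree_lt (P Q : ℂ[X]) (hND : ∀ z, Q.eval z = 0 → P.eval z ≠ 0)
    (hdeg : P.natDegree < Q.natDegree) (hP0 : P.eval 0 = 0) {lam : ℂ} (hlam : ‖lam‖ = 1)
    (hd : deriv (fun z => P.eval z / Q.eval z) 0 = lam) (ha : Aper fun z => P.eval z / Q.eval z) :
    Bound lam := by
  classical
  have hQ0 : Q.eval 0 ≠ 0 := fun h => hND 0 h hP0
  have hW : derivative P * Q - P * derivative Q ≠ 0 := by
    intro h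
    rw [(rat_deriv P Q hQ0).deriv, h] at hd
    simp [← hd] at hlam
  obtain ⟨ρ, hρ, hap⟩ := ha
  obtain ⟨ρ', hρ', hloc⟩ : ∃ ρ' > 0, ∀ z ∈ ball (0 : ℂ) ρ',
      Q.eval z ≠ 0 ∧ ‖deriv (fun z => P.eval z / Q.eval z) z‖ ≤ 2 := by
    have h1 := (rat_analytic P Q hQ0).deriv.continuousAt.norm.eventually
      (eventually_le_nhds (b := 2) (by simp only [hd, hlam]; norm_num))
    have h2 := Q.continuous.continuousAt.eventually_ne hQ0
    exact Metric.mem_nhds_iff.1 (h2.and h1)
  obtain ⟨c, R, hR⟩ : ∃ c R : ℝ, ∀ z : ℂ, R ≤ ‖z‖ → ‖z * P.eval z‖ ≤ c * ‖Q.eval z‖ := by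
    have hQ : Q ≠ 0 := by rintro rfl; simp at hQ0
    have h1 : (X * P).degree ≤ Q.degree := by
      rw [degree_eq_natDegree hQ]
      refine degree_le_of_natDegree_le (natDegree_mul_le.trans ?_)
      rw [natDegree_X]; omega
    obtain ⟨c, hc⟩ := (isBigO_cobounded_of_degree_le h1).bound
    rw [← comap_norm_atTop, eventually_comap, eventually_atTop] at hc
    obtain ⟨R, hR⟩ := hc
    exact ⟨c, R, fun z hz => by simpa using hR _ hz z rfl⟩
  obtain ⟨M, hM⟩ := exists_nat_gt (max (max (max 100 c) (max R (1 / ρ)))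
    (max (1 / ρ') ((derivative P * Q - P * derivative Q).roots.toFinset.card)))
  simp only [max_lt_iff] at hM
  obtain ⟨⟨⟨m1, m2⟩, m3, m4⟩, m5, m6⟩ := hM
  have hM0 : (0 : ℝ) < M := by linarith
  have s1 : ball (0 : ℂ) (1 / M) ⊆ ball 0 ρ :=
    ball_subset_ball ((one_div_le hM0 hρ).2 m4.le)
  have s2 : ball (0 : ℂ) (1 / M) ⊆ ball 0 ρ' :=
    ball_subset_ball ((one_div_le hM0 hρ').2 m5.le)
  refine ⟨2 * M * 2352 * (M + 1) ^ 2, by positivity, caseA (M := M)
    (T := (derivative P * Q - P * derivative Q).roots.toFinset) P.differentiable Q.differentiable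
    hND rfl hlam (by simp [hP0]) hd (fun z hz h => ?_) (by exact_mod_cast m6)
    (by exact_mod_cast m1.le) (fun z hz => ⟨(hloc z (s2 hz)).1, by linarith [(hloc z (s2 hz)).2]⟩)
    (fun z hz m hm h => hap z hz m hm fun i => s1 (h i)) fun z hz => ?_⟩
  · rw [(rat_deriv P Q hz).deriv, div_eq_zero_iff] at h
    rw [Multiset.mem_toFinset, mem_roots hW]
    exact h.resolve_right (pow_ne_zero _ hz)
  · have h1 := hR z (by linarith)
    have h2 : Q.eval z ≠ 0 := by
      intro h
      rw [h, norm_zero, mul_zero, norm_le_zero_iff] at h1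
      refine mul_ne_zero ?_ (hND z h) h1
      rintro rfl
      rw [norm_zero] at hz
      linarith
    have h3 := norm_pos_iff.2 h2
    refine ⟨h2, ?_⟩
    rw [norm_div, div_mul_eq_mul_div, div_le_iff₀ h3, ← norm_mul, mul_comm (P.eval z)]
    nlinarith

lemma mob (P : ℂ[X]) (d : ℕ) (hd : P.natDegree ≤ d) (a : ℂ) :
    ∃ S : ℂ[X], S.natDegree ≤ d ∧ S.coeff d = P.eval a ∧
      (∀ w, a + w ≠ 0 → S.eval w = (a + w) ^ d * P.eval (a * w / (a + w))) ∧
      S.eval (-a) = P.coeff d * (a ^ d * (-a) ^ d) := by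
  have hmon : ∀ j ∈ Finset.range (d + 1), (X ^ j * (X + C a) ^ (d - j) : ℂ[X]).Monic ∧
      (X ^ j * (X + C a) ^ (d - j) : ℂ[X]).natDegree = d := by
    intro j hj
    have h1 := monic_X_pow (R := ℂ) j
    have h2 := (monic_X_add_C a).pow (d - j)
    refine ⟨h1.mul h2, ?_⟩
    rw [h1.natDegree_mul h2, natDegree_X_pow, (monic_X_add_C a).natDegree_pow, natDegree_X_add_C]
    have := Finset.mem_range.1 hj
    omega
  refine ⟨∑ j ∈ Finset.range (d + 1), C (P.coeff j * a ^ j) * (X ^ j * (X + C a) ^ (d - j)),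
    natDegree_sum_le_of_forall_le _ _ fun j hj => (natDegree_C_mul_le _ _).trans (hmon j hj).2.le,
    ?_, fun w hw => ?_, ?_⟩
  · rw [finsetSum_coeff, eval_eq_sum_range' (Nat.lt_succ_of_le hd)]
    refine Finset.sum_congr rfl fun j hj => ?_
    have := (hmon j hj).1.coeff_natDegree
    rw [(hmon j hj).2] at this
    rw [coeff_C_mul, this, mul_one]
  · rw [eval_finsetSum, eval_eq_sum_range' (Nat.lt_succ_of_le hd), Finset.mul_sum]
    refine Finset.sum_congr rfl fun j hj => ?_
    obtain ⟨e, rfl⟩ := Nat.exists_eq_add_of_le (Nat.lt_succ_iff.1 (Finset.mem_range.1 hj))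
    simp only [eval_mul, eval_C, eval_pow, eval_X, eval_add, Nat.add_sub_cancel_left, div_pow,
      mul_pow, pow_add, add_comm w a]
    field_simp
  · rw [eval_finsetSum, Finset.sum_eq_single d]
    · simp [mul_assoc]
    · intro j hj hne
      have := Finset.mem_range.1 hj
      simp [show d - j ≠ 0 by omega]
    · simp

lemma bound_rat (P Q : ℂ[X]) (hND : ∀ z, Q.eval z = 0 → P.eval z ≠ 0)
    (hdeg : 2 ≤ max P.natDegree Q.natDegree) (hP0 : P.eval 0 = 0) {lam : ℂ} (hlam : ‖lam‖ = 1)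
    (hd : deriv (fun z => P.eval z / Q.eval z) 0 = lam) (ha : Aper fun z => P.eval z / Q.eval z) :
    Bound lam := by
  have hQ0 : Q.eval 0 ≠ 0 := fun h => hND 0 h hP0
  by_cases hex : ∃ a, a ≠ 0 ∧ P.eval a = 0
  swap
  · push Not at hex
    refine bound_of_degree_lt P Q hND ?_ hP0 hlam hd ha
    obtain ⟨P1, rfl⟩ : X ∣ P := X_dvd_iff.2 (by rw [coeff_zero_eq_eval_zero, hP0])
    have h1 : P1.degree = 0 := by
      by_contra h
      obtain ⟨a, h2⟩ := IsAlgClosed.exists_root P1 h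
      have h2' : P1.eval a = 0 := h2
      by_cases h3 : a = 0
      · rw [(rat_deriv _ Q hQ0).deriv] at hd
        rw [h3] at h2'
        simp [← hd, h2'] at hlam
      · exact hex a h3 (by simp [h2'])
    have h2 : (X * P1).natDegree ≤ 1 := by
      refine natDegree_mul_le.trans ?_
      rw [natDegree_X, natDegree_eq_zero_iff_degree_le_zero.2 h1.le]
    omega
  obtain ⟨a, ha0, hPa⟩ := hex
  have hQa : Q.eval a ≠ 0 := fun h => hND a h hPa
  obtain ⟨S, s1, s2, s3, s4⟩ := mob P _ (le_max_left P.natDegree Q.natDegree) a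
  obtain ⟨U, u1, u2, u3, u4⟩ := mob Q _ (le_max_right P.natDegree Q.natDegree) a
  have hlead : P.coeff (max P.natDegree Q.natDegree) ≠ 0 ∨
      Q.coeff (max P.natDegree Q.natDegree) ≠ 0 := by
    rcases le_total P.natDegree Q.natDegree with h | h
    · right
      rw [max_eq_right h]
      exact leadingCoeff_ne_zero.2 (by rintro rfl; simp at hQ0)
    · left
      rw [max_eq_left h] at hdeg ⊢
      exact leadingCoeff_ne_zero.2 (by rintro rfl; simp at hdeg)
  generalize max P.natDegree Q.natDegree = d at *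
  set f : ℂ → ℂ := fun z => P.eval z / Q.eval z with hf
  have hf0 : f 0 = 0 := by simp [hf, hP0]
  have hfd : HasDerivAt f lam 0 := hd ▸ (rat_analytic P Q hQ0).differentiableAt.hasDerivAt
  have hμ : HasDerivAt (fun w => a * w / (a + w)) 1 0 :=
    (((hasDerivAt_id' 0).const_mul a).fun_div ((hasDerivAt_id' 0).const_add a)
      (by simpa using ha0)).congr_deriv (by simp only [add_zero, sub_zero]; field_simp; ring)
  have hν : HasDerivAt (fun y => a * y / (a - y)) 1 0 :=
    (((hasDerivAt_id' 0).const_mul a).fun_div ((hasDerivAt_id' 0).const_sub a)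
      (by simpa using ha0)).congr_deriv (by simp only [add_zero, sub_zero]; field_simp; ring)
  have hfμ : HasDerivAt (fun w => f (a * w / (a + w))) (lam * 1) 0 :=
    HasDerivAt.comp_of_eq 0 hfd hμ (by simp)
  have hμ0 : Tendsto (fun w => a * w / (a + w)) (𝓝 0) (𝓝 0) := by
    simpa using hμ.continuousAt.tendsto
  have hev : ∀ᶠ w in 𝓝 (0 : ℂ), a + w ≠ 0 ∧ a - f (a * w / (a + w)) ≠ 0 ∧
      (C a * S).eval w / (C a * U - S).eval w =
        a * f (a * w / (a + w)) / (a - f (a * w / (a + w))) := by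
    have e1 : ∀ᶠ w in 𝓝 (0 : ℂ), a + w ≠ 0 :=
      (by fun_prop : ContinuousAt (fun w => a + w) 0).eventually_ne (by simpa using ha0)
    have e2 : ∀ᶠ w in 𝓝 (0 : ℂ), a - f (a * w / (a + w)) ≠ 0 :=
      (hfμ.continuousAt.const_sub a).eventually_ne (by simpa [hf0] using ha0)
    have e3 := hμ0.eventually (Q.continuous.continuousAt.eventually_ne hQ0)
    filter_upwards [e1, e2, e3] with w h1 h2 h3
    refine ⟨h1, h2, ?_⟩
    simp only [eval_mul, eval_C, eval_sub, s3 w h1, u3 w h1, hf] at h2 ⊢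
    have h4 : a * Q.eval (a * w / (a + w)) - P.eval (a * w / (a + w)) ≠ 0 := by
      intro h
      apply h2
      field_simp
      linear_combination h
    have h5 : (a + w) ^ d ≠ 0 := pow_ne_zero _ h1
    rw [show a * ((a + w) ^ d * Q.eval (a * w / (a + w))) - (a + w) ^ d * P.eval (a * w / (a + w)) =
      (a + w) ^ d * (a * Q.eval (a * w / (a + w)) - P.eval (a * w / (a + w))) by ring]
    field_simp
  refine bound_of_degree_lt (C a * S) (C a * U - S) (fun z h1 h2 => ?_) ?_ ?_ hlam ?_ ?_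
  · simp only [eval_mul, eval_C, eval_sub, mul_eq_zero, ha0, false_or] at h1 h2
    rw [h2, sub_zero, mul_eq_zero] at h1
    have h3 := h1.resolve_left ha0
    by_cases h4 : a + z = 0
    · rw [show z = -a by linear_combination h4] at h2 h3
      have h5 : a ^ d * (-a) ^ d ≠ 0 :=
        mul_ne_zero (pow_ne_zero _ ha0) (pow_ne_zero _ (neg_ne_zero.2 ha0))
      rw [s4] at h2
      rw [u4] at h3
      rcases hlead with h | h
      · exact mul_ne_zero h h5 h2
      · exact mul_ne_zero h h5 h3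
    · rw [s3 z h4] at h2
      rw [u3 z h4] at h3
      exact hND _ ((mul_eq_zero.1 h3).resolve_left (pow_ne_zero _ h4))
        ((mul_eq_zero.1 h2).resolve_left (pow_ne_zero _ h4))
  · have h1 : d ≤ (C a * U - S).natDegree := le_natDegree_of_ne_zero (by
      rw [coeff_sub, coeff_C_mul, s2, u2, hPa, sub_zero]
      exact mul_ne_zero ha0 hQa)
    have h2 : S.natDegree < d := by
      refine lt_of_le_of_ne s1 fun h => ?_
      rw [hPa, ← h, coeff_natDegree, leadingCoeff_eq_zero] at s2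
      rw [s2, natDegree_zero] at h
      omega
    exact ((natDegree_C_mul_le _ _).trans_lt h2).trans_le h1
  · simp [s3 0 (by simpa using ha0), hP0]
  · have h1 : HasDerivAt (fun w => a * f (a * w / (a + w)) / (a - f (a * w / (a + w))))
        (1 * (lam * 1)) 0 := HasDerivAt.comp_of_eq 0 hν hfμ (by simp [hf0])
    rw [(h1.congr_of_eventuallyEq (hev.mono fun w hw => hw.2.2)).deriv]
    ring
  · obtain ⟨ρ, hρ, hap⟩ := ha
    obtain ⟨ρ', hρ', hloc⟩ := Metric.mem_nhds_iff.1 (hev.and (hμ0.eventually (ball_mem_nhds 0 hρ)))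
    refine ⟨ρ', hρ', fun z hz m hm hi he => ?_⟩
    set F : ℂ → ℂ := fun z => (C a * S).eval z / (C a * U - S).eval z with hF
    have key : ∀ i, f^[i] (a * z / (a + z)) = a * F^[i] z / (a + F^[i] z) := by
      intro i
      induction i with
      | zero => rfl
      | succ i ih =>
        obtain ⟨⟨h1, h2, h3⟩, -⟩ := hloc (hi i)
        rw [Function.iterate_succ_apply', Function.iterate_succ_apply', ih]
        change F (F^[i] z) = _ at h3
        rw [h3]
        generalize f (a * F^[i] z / (a + F^[i] z)) = y at h2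
        rw [show a + a * y / (a - y) = a * a / (a - y) by field_simp; ring]
        field_simp
    refine hap (a * z / (a + z)) (div_ne_zero (mul_ne_zero ha0 hz) (hloc (hi 0)).1.1) m hm
      (fun i => ?_) (by rw [key, he])
    rw [key]
    exact (hloc (hi i)).2

theorem linearizable (P Q : ℂ[X]) (hND : ∀ z, Q.eval z = 0 → P.eval z ≠ 0)
    (hdeg : 2 ≤ max P.natDegree Q.natDegree) (hP0 : P.eval 0 = 0) {α : ℝ} (hα : Irrational α)
    (hd : deriv (fun z => P.eval z / Q.eval z) 0 = exp (2 * Real.pi * I * α))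
    (ha : Aper fun z => P.eval z / Q.eval z) :
    ∃ h : ℂ → ℂ, ∃ r : ℝ, 0 < r ∧ AnalyticAt ℂ h 0 ∧ h 0 = 0 ∧ deriv h 0 ≠ 0 ∧
      ∀ z ∈ ball (0 : ℂ) r, P.eval (h z) / Q.eval (h z) = h (exp (2 * Real.pi * I * α) * z) := by
  have hQ0 : Q.eval 0 ≠ 0 := fun h => hND 0 h hP0
  have hlam : ‖exp (2 * Real.pi * I * α)‖ = 1 := by
    rw [show 2 * (Real.pi : ℂ) * I * α = ((2 * Real.pi * α : ℝ) : ℂ) * I by push_cast; ring]
    exact Complex.norm_exp_ofReal_mul_I _
  obtain ⟨C, hC0, hC⟩ := bound_rat P Q hND hdeg hP0 hlam hd ha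
  obtain ⟨η, hη, hlin⟩ := linearize hα rfl hC0 hC
  generalize exp (2 * Real.pi * I * α) = lam at *
  set f : ℂ → ℂ := fun z => P.eval z / Q.eval z with hf
  have hf0 : f 0 = 0 := by simp [hf, hP0]
  have hfd : HasDerivAt f lam 0 := hd ▸ (rat_analytic P Q hQ0).differentiableAt.hasDerivAt
  obtain ⟨ρ, hρ, hap⟩ := ha
  obtain ⟨c, hc, hloc⟩ := Metric.mem_nhds_iff.1
    ((hfd.isLittleO.bound hη).and ((Q.continuous.continuousAt.eventually_ne hQ0).and
      (show ∀ᶠ z in 𝓝 (0 : ℂ), z ∈ ball (0 : ℂ) ρ from ball_mem_nhds 0 hρ)))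
  have hc' : (c : ℂ) ≠ 0 := by exact_mod_cast hc.ne'
  have hn : ∀ w : ℂ, ‖(c : ℂ) * w‖ = c * ‖w‖ := fun w => by
    rw [norm_mul, Complex.norm_real, Real.norm_eq_abs, abs_of_pos hc]
  have hm : ∀ w ∈ ball (0 : ℂ) 1, (c : ℂ) * w ∈ ball (0 : ℂ) c := by
    intro w hw
    rw [mem_ball_zero_iff] at hw ⊢
    rw [hn]; nlinarith
  obtain ⟨h, h1, h2, h3, h4⟩ := hlin (fun w => f (c * w) / c) ⟨fun w hw =>
      (((rat_analytic P Q (hloc (hm w hw)).2.1).differentiableAt.comp w
        (by fun_prop : DifferentiableAt ℂ (fun w => (c : ℂ) * w) w)).div_const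
          _).differentiableWithinAt,
    by simp [hf0],
    by
      have := (HasDerivAt.comp_of_eq 0 hfd ((hasDerivAt_id' 0).const_mul (c : ℂ))
        (by simp)).div_const (c : ℂ)
      exact this.deriv.trans (by field_simp),
    fun w hw => by
      have h1 := (hloc (hm w hw)).1
      simp only [hf0, sub_zero, smul_eq_mul] at h1
      rw [show f (c * w) / c - lam * w = (f (c * w) - c * w * lam) / c by field_simp, norm_div,
        Complex.norm_real, Real.norm_eq_abs, abs_of_pos hc, div_le_iff₀ hc]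
      exact h1.trans (mul_le_mul_of_nonneg_left (mem_ball_zero_iff.1 (hm w hw)).le hη.le),
    fun z hz m hm1 hi he => by
      have key : ∀ i, f^[i] (c * z) = c * (fun w => f (c * w) / c)^[i] z := by
        intro i
        induction i with
        | zero => rfl
        | succ i ih =>
          rw [Function.iterate_succ_apply', Function.iterate_succ_apply', ih]
          field_simp
      refine hap (c * z) (mul_ne_zero hc' hz) m hm1 (fun i => ?_) (by rw [key, he])
      rw [key]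
      exact (hloc (hm _ (hi i))).2.2⟩
  have h5 : AnalyticAt ℂ h 0 := h1.analyticAt (ball_mem_nhds 0 (by norm_num))
  refine ⟨fun w => c * h w, 1 / 4, by norm_num, analyticAt_const.mul h5, by simp [h2], ?_,
    fun z hz => ?_⟩
  · rw [(h5.differentiableAt.hasDerivAt.const_mul _).deriv]
    exact mul_ne_zero hc' h3
  · have := h4 z hz
    rw [div_eq_iff hc'] at this
    exact this.trans (mul_comm _ _)

end Pool.Agent.Lib.MP_27cd7e_an
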