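import Pool.Agent.Lib.MP_27cd7e_an.Stage

set_option autoImplicit false

namespace Pool.Agent.Lib.MP_27cd7e_an

open Metric Set Complex Filter Topology

lemma schwarz2 {F : ℂ → ℂ} {z : ℂ} {R M : ℝ} (hF : DifferentiableOn ℂ F (ball 0 R))
    (h0 : F 0 = 0) (h1 : deriv F 0 = 0) (hM : ∀ w ∈ ball (0 : ℂ) R, ‖F w‖ ≤ M)
    (hz : z ∈ ball (0 : ℂ) R) : ‖F z‖ ≤ M / R / R * ‖z‖ * ‖z‖ := by
  have hR := pos_of_mem_ball hz
  have h2 := schwarz0 (F := dslope F 0) (M := M / R)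
    ((differentiableOn_dslope (ball_mem_nhds 0 hR)).2 hF) (by rw [dslope_same, h1])
    (fun w hw => Complex.norm_dslope_le_div_of_mapsTo_ball hF
      (fun y hy => by simpa [h0] using hM y hy) hw) hz
  have h3 := sub_smul_dslope F 0 z
  simp only [sub_zero, smul_eq_mul, h0] at h3 h2
  rw [← h3, norm_mul, mul_comm]
  exact mul_le_mul_of_nonneg_right h2 (norm_nonneg _)

lemma hermite (O : Finset ℂ) {σ : ℝ} {ν : ℕ} (hσ : 0 < σ) (hσ1 : σ ≤ 1)
    (hsep : ∀ y ∈ O, ∀ y' ∈ O, y ≠ y' → σ ≤ ‖y - y'‖) (hO : ∀ y ∈ O, ‖y‖ ≤ 1)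
    (hν : O.card ≤ ν) (hν1 : 1 ≤ ν) :
    ∃ Q : ℂ → ℂ, Differentiable ℂ Q ∧ (∀ y ∈ O, Q y = 0 ∧ deriv Q y = -1) ∧
      ∀ S : ℝ, 1 ≤ S → ∀ z : ℂ, ‖z‖ ≤ S → ‖Q z‖ ≤ (2 * S / σ) ^ (4 * ν) := by
  classical
  set l : ℂ → ℂ → ℂ := fun y z => ∏ y' ∈ O.erase y, (z - y') / (y - y') with hl
  have hld : ∀ y, Differentiable ℂ (l y) := by
    intro y
    simp only [hl]
    fun_prop
  have hl1 : ∀ y, l y y = 1 := by
    intro y
    refine Finset.prod_eq_one fun y' hy' => div_self ?_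
    exact sub_ne_zero.2 (Finset.ne_of_mem_erase hy').symm
  have hl0 : ∀ y, ∀ y' ∈ O, y ≠ y' → l y y' = 0 := by
    intro y y' hy' hne
    exact Finset.prod_eq_zero (Finset.mem_erase.2 ⟨hne.symm, hy'⟩) (by simp)
  have hd : ∀ z, HasDerivAt (fun z => -∑ y ∈ O, (z - y) * (l y z * l y z))
      (-∑ y ∈ O, (1 * (l y z * l y z) +
        (z - y) * (deriv (l y) z * l y z + l y z * deriv (l y) z))) z := fun z =>
    (HasDerivAt.fun_sum fun y _ => ((hasDerivAt_id' z).sub_const y).fun_mul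
      ((hld y z).hasDerivAt.fun_mul (hld y z).hasDerivAt)).fun_neg
  refine ⟨fun z => -∑ y ∈ O, (z - y) * (l y z * l y z), fun z => (hd z).differentiableAt,
    fun y' hy' => ⟨?_, ?_⟩, fun S hS z hz => ?_⟩
  · simp only [neg_eq_zero]
    refine Finset.sum_eq_zero fun y _ => ?_
    by_cases h : y = y'
    · simp [h]
    · simp [hl0 y y' hy' h]
  · rw [(hd y').deriv, Finset.sum_eq_single y']
    · simp [hl1]
    · intro y _ h
      simp [hl0 y y' hy' h]
    · intro h; exact absurd hy' h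
  · have hB : 2 ≤ 2 * S / σ := by rw [le_div_iff₀ hσ]; nlinarith
    have hB' : 2 * S ≤ 2 * S / σ := by rw [le_div_iff₀ hσ]; nlinarith
    have h1 : ∀ y ∈ O, ‖z - y‖ ≤ 2 * S := fun y hy => by
      linarith [norm_sub_le z y, hO y hy]
    have h2 : ∀ y ∈ O, ‖l y z‖ ≤ (2 * S / σ) ^ ν := by
      intro y hy
      simp only [hl, norm_prod]
      calc _ ≤ ∏ _y' ∈ O.erase y, (2 * S / σ) := by
            refine Finset.prod_le_prod (fun _ _ => norm_nonneg _) fun y' hy' => ?_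
            rw [norm_div]
            exact div_le_div₀ (by linarith) (h1 y' (Finset.mem_of_mem_erase hy')) hσ
              (hsep y hy y' (Finset.mem_of_mem_erase hy') (Finset.ne_of_mem_erase hy').symm)
        _ = (2 * S / σ) ^ (O.erase y).card := Finset.prod_const _
        _ ≤ _ := pow_le_pow_right₀ (by linarith) (Finset.card_erase_le.trans hν)
    have h3 : (O.card : ℝ) ≤ (2 * S / σ) ^ ν := by
      calc (O.card : ℝ) ≤ ν := by exact_mod_cast hν
        _ ≤ 2 ^ ν := by exact_mod_cast (Nat.lt_two_pow_self).le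
        _ ≤ _ := pow_le_pow_left₀ (by norm_num) hB ν
    have h4 : 2 * S ≤ (2 * S / σ) ^ ν :=
      hB'.trans (le_self_pow₀ (by linarith) (by omega))
    have h5 : (0 : ℝ) ≤ (2 * S / σ) ^ ν := by positivity
    simp only [norm_neg]
    calc _ ≤ ∑ y ∈ O, ‖(z - y) * (l y z * l y z)‖ := norm_sum_le _ _
      _ ≤ ∑ _y ∈ O, (2 * S / σ) ^ ν * ((2 * S / σ) ^ ν * (2 * S / σ) ^ ν) := by
          refine Finset.sum_le_sum fun y hy => ?_
          rw [norm_mul, norm_mul]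
          exact mul_le_mul ((h1 y hy).trans h4)
            (mul_le_mul (h2 y hy) (h2 y hy) (norm_nonneg _) h5) (by positivity) h5
      _ = O.card * ((2 * S / σ) ^ ν * ((2 * S / σ) ^ ν * (2 * S / σ) ^ ν)) := by simp
      _ ≤ (2 * S / σ) ^ ν * ((2 * S / σ) ^ ν * ((2 * S / σ) ^ ν * (2 * S / σ) ^ ν)) :=
          mul_le_mul_of_nonneg_right h3 (by positivity)
      _ = _ := by ring

/-- the perturbed return map contracts a disc around an interpolation point -/
lemma disc {G F : ℂ → ℂ} {x : ℂ} {r s ε a τ B : ℝ} (hr : 0 < r) (hr1 : r ≤ 1) (hs : 0 < s)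
    (hs1 : s ≤ 1) (hε : 0 < ε) (hG : DifferentiableOn ℂ G (ball 0 r))
    (hF : DifferentiableOn ℂ F (ball 0 r))
    (hK : ∀ z ∈ ball (0 : ℂ) r, ‖G z - F z‖ ≤ ε * B)
    (hτ : ∀ z ∈ ball (0 : ℂ) (r / 5), ‖F z - z‖ ≤ τ * ‖z‖) (hx : ‖x‖ + s ≤ r / 10)
    (h0 : G x = F x) (h1 : deriv G x = deriv F x * a) (ha0 : 0 ≤ a) (ha : a ≤ 1 - ε)
    (hB : 128 * B * s ≤ r ^ 2) (hτ0 : 0 ≤ τ) (hτ1 : τ ≤ ε * s / 32) :
    (∀ z ∈ ball x s, ‖deriv G z‖ ≤ 1 - ε / 2) ∧
      ∀ z ∈ ball x s, ‖G z - x‖ ≤ (1 - ε / 2) * ‖z - x‖ + ε * s / 32 := by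
  have hsub : ∀ c : ℝ, r / 10 ≤ c → ball x s ⊆ ball 0 c := fun c hc =>
    ball_subset_ball' (by rw [dist_zero_right]; linarith)
  have hxs : x ∈ ball x s := mem_ball_self hs
  have hKd : DifferentiableOn ℂ (fun z => G z - F z) (ball 0 r) := hG.sub hF
  have hK1 : ∀ z ∈ ball (0 : ℂ) (r / 2), ‖deriv (fun z => G z - F z) z‖ ≤ 2 * (ε * B) / (r / 2) := by
    intro z hz
    rw [mem_ball_zero_iff] at hz
    exact deriv_bound hKd hK (by linarith) (by rw [sub_zero]; linarith)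
  have hK2 : ∀ z ∈ ball (0 : ℂ) (r / 4), ‖deriv (deriv (fun z => G z - F z)) z‖ ≤
      2 * (2 * (ε * B) / (r / 2)) / (r / 4) := by
    intro z hz
    rw [mem_ball_zero_iff] at hz
    exact deriv_bound ((hKd.deriv isOpen_ball).mono (ball_subset_ball (by linarith))) hK1
      (by linarith) (by rw [sub_zero]; linarith)
  have hh : ∀ z ∈ ball x s, ‖deriv F z - 1‖ ≤ 4 * τ := by
    intro z hz
    have h2 := mem_ball_zero_iff.1 (hsub _ le_rfl hz)
    have h3 := deriv_bound (F := fun z => F z - z) (z := z) (M := τ * (r / 5)) (s := r / 10)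
      ((hF.mono (ball_subset_ball (by linarith))).sub differentiableOn_id)
      (fun w hw => (hτ w hw).trans
        (mul_le_mul_of_nonneg_left (mem_ball_zero_iff.1 hw).le hτ0)) (by linarith)
      (by rw [sub_zero]; linarith)
    rw [((diffAt hF (hsub r (by linarith) hz)).hasDerivAt.fun_sub (hasDerivAt_id' z)).deriv] at h3
    refine h3.trans (le_of_eq ?_)
    field_simp
    ring
  have hKe : ∀ z ∈ ball x s, deriv (fun z => G z - F z) z = deriv G z - deriv F z := fun z hz =>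
    ((diffAt hG (hsub r (by linarith) hz)).hasDerivAt.fun_sub
      (diffAt hF (hsub r (by linarith) hz)).hasDerivAt).deriv
  have hd : ∀ z ∈ ball x s, ‖deriv G z‖ ≤ 1 - ε / 2 := by
    intro z hz
    have h2 := mvt ((hKd.deriv isOpen_ball).mono (ball_subset_ball (by linarith))) hK2
      (hsub _ (by linarith) hz) (hsub _ (by linarith) hxs)
    rw [hKe z hz, hKe x hxs, h1] at h2
    have h3 : 2 * (2 * (ε * B) / (r / 2)) / (r / 4) * ‖z - x‖ ≤ ε / 4 := by
      have hB0 : 0 ≤ ε * B := (norm_nonneg _).trans (hK 0 (mem_ball_self hr))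
      have h4 : ‖z - x‖ ≤ s := by rw [← dist_eq_norm]; exact (mem_ball.1 hz).le
      refine (mul_le_mul_of_nonneg_left h4 (by positivity)).trans ?_
      have e : 2 * (2 * (ε * B) / (r / 2)) / (r / 4) * s = ε / 4 * (128 * B * s / r ^ 2) := by
        field_simp; ring
      rw [e]
      exact mul_le_of_le_one_right (by positivity) ((div_le_one (by positivity)).2 hB)
    have e : deriv G z = (deriv G z - deriv F z - (deriv F x * a - deriv F x)) + (deriv F z - 1) +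
        ((a : ℂ) + (deriv F x - 1) * ((a - 1 : ℝ) : ℂ)) := by push_cast; ring
    have h4 : ‖(a : ℂ) + (deriv F x - 1) * ((a - 1 : ℝ) : ℂ)‖ ≤ a + 4 * τ := by
      refine (norm_add_le _ _).trans ?_
      rw [norm_mul, Complex.norm_real, Complex.norm_real, Real.norm_eq_abs, Real.norm_eq_abs,
        abs_of_nonneg ha0, abs_of_nonpos (by linarith)]
      nlinarith [hh x hxs, norm_nonneg (deriv F x - 1)]
    rw [e]
    refine (norm_add₃_le).trans ?_
    nlinarith [hh z hz]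
  refine ⟨hd, fun z hz => ?_⟩
  have h2 := mvt (hG.mono (hsub r (by linarith))) hd hz hxs
  have h3 := hτ x (hsub _ (by linarith) hxs)
  have h4 : G z - x = (G z - G x) + (F x - x) := by rw [h0]; ring
  rw [h4]
  refine (norm_add_le _ _).trans (add_le_add h2 (h3.trans ?_))
  nlinarith [norm_nonneg x]

lemma disc_iter {G : ℂ → ℂ} {x : ℂ} {s ε : ℝ} (hs : 0 < s) (hε : 0 < ε) (hε1 : ε ≤ 1)
    (hG : DifferentiableOn ℂ G (ball x s))
    (h1 : ∀ z ∈ ball x s, ‖deriv G z‖ ≤ 1 - ε / 2)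
    (h2 : ∀ z ∈ ball x s, ‖G z - x‖ ≤ (1 - ε / 2) * ‖z - x‖ + ε * s / 32) :
    (∀ m, ∀ z ∈ ball x s, G^[m] z ∈ ball x s) ∧
      ∀ B : ℝ, 0 < B → ∃ m, G^[m] x ∈ closedBall x (s / 2) ∧ ‖deriv (G^[m]) x‖ * B < 1 := by
  have hm : MapsTo G (ball x s) (ball x s) := by
    intro z hz
    have := h2 z hz
    rw [mem_ball, dist_eq_norm] at hz ⊢
    nlinarith [mul_pos hε hs]
  have hm' : MapsTo G (closedBall x (s / 2)) (closedBall x (s / 2)) := by
    intro z hz
    have := h2 z (closedBall_subset_ball (by linarith) hz)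
    rw [mem_closedBall, dist_eq_norm] at hz ⊢
    nlinarith [mul_pos hε hs]
  refine ⟨fun m z hz => hm.iterate m hz, fun B hB => ?_⟩
  have key : ∀ m, DifferentiableAt ℂ (G^[m]) x ∧ ‖deriv (G^[m]) x‖ ≤ (1 - ε / 2) ^ m := by
    intro m
    induction m with
    | zero => exact ⟨differentiableAt_id, by simp⟩
    | succ m ih =>
      have h3 := hm.iterate m (mem_ball_self hs)
      have h4 := (diffAt hG h3).hasDerivAt.comp x ih.1.hasDerivAt
      rw [Function.iterate_succ']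
      refine ⟨h4.differentiableAt, ?_⟩
      rw [h4.deriv, norm_mul, pow_succ']
      exact mul_le_mul (h1 _ h3) ih.2 (norm_nonneg _) (by linarith)
  obtain ⟨m, hm2⟩ := exists_pow_lt_of_lt_one (x := B⁻¹) (y := 1 - ε / 2) (by positivity)
    (by linarith)
  refine ⟨m, hm'.iterate m (mem_closedBall_self (by linarith)), ?_⟩
  have := (key m).2.trans_lt hm2
  calc _ < B⁻¹ * B := mul_lt_mul_of_pos_right this hB
    _ = 1 := inv_mul_cancel₀ hB.ne'

end Pool.Agent.Lib.MP_27cd7e_an
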