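import Pool.Agent.Lib.MP_27cd7e_an.Basic

set_option autoImplicit false

namespace Pool.Agent.Lib.MP_27cd7e_an

open Metric Set Complex Filter Topology

lemma iter_bound {g : ℂ → ℂ} {ρ r Λ : ℝ} {q : ℕ} (hg : DifferentiableOn ℂ g (ball 0 ρ))
    (hΛ : 1 ≤ Λ) (hb : ∀ z ∈ ball (0 : ℂ) ρ, ‖g z‖ ≤ Λ * ‖z‖) (hr : Λ ^ q * r ≤ ρ) :
    ∀ i ≤ q, (∀ z ∈ ball (0 : ℂ) r, ‖g^[i] z‖ ≤ Λ ^ i * ‖z‖ ∧ g^[i] z ∈ ball (0 : ℂ) ρ) ∧
      DifferentiableOn ℂ (g^[i]) (ball 0 r) := by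
  have key : ∀ i ≤ q, ∀ z ∈ ball (0 : ℂ) r, ∀ w : ℂ, ‖w‖ ≤ Λ ^ i * ‖z‖ → w ∈ ball (0 : ℂ) ρ := by
    intro i hi z hz w hw
    rw [mem_ball_zero_iff] at hz ⊢
    have h1 : Λ ^ i ≤ Λ ^ q := pow_le_pow_right₀ hΛ hi
    have h2 : 0 < Λ ^ i := by positivity
    have h3 : 0 ≤ r := (norm_nonneg z).trans hz.le
    nlinarith
  intro i
  induction i with
  | zero =>
    intro hi
    exact ⟨fun z hz => ⟨by simp, key 0 hi z hz _ (by simp)⟩, differentiableOn_id⟩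
  | succ i ih =>
    intro hi
    obtain ⟨h1, h2⟩ := ih (by omega)
    constructor
    · intro z hz
      have h3 : ‖g^[i + 1] z‖ ≤ Λ ^ (i + 1) * ‖z‖ := by
        rw [Function.iterate_succ_apply', pow_succ', mul_assoc]
        exact (hb _ (h1 z hz).2).trans (mul_le_mul_of_nonneg_left (h1 z hz).1 (by linarith))
      exact ⟨h3, key _ hi z hz _ h3⟩
    · rw [Function.iterate_succ']
      exact hg.comp h2 fun z hz => (h1 z hz).2

lemma logX {X : ℂ → ℂ} {δ : ℂ} {r M A : ℝ} (hr : 0 < r) (hX : DifferentiableOn ℂ X (ball 0 r))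
    (h0 : X 0 = 0) (hδ : deriv X 0 = δ) (hδ0 : δ ≠ 0)
    (hne : ∀ z ∈ ball (0 : ℂ) r, z ≠ 0 → X z ≠ 0)
    (hM : ∀ z ∈ ball (0 : ℂ) r, ‖X z‖ ≤ M * ‖z‖) (hA : 0 < A) (hMA : M ≤ ‖δ‖ * Real.exp A) :
    ∃ v : ℂ → ℂ, DifferentiableOn ℂ v (ball 0 r) ∧ v 0 = 0 ∧
      (∀ z ∈ ball (0 : ℂ) r, X z = z * δ * exp (v z)) ∧
      ∀ z ∈ ball (0 : ℂ) r, ‖v z‖ ≤ 2 * A * ‖z‖ / (r - ‖z‖) := by
  have hU : DifferentiableOn ℂ (dslope X 0) (ball 0 r) :=
    (differentiableOn_dslope (ball_mem_nhds 0 hr)).2 hX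
  have hXU : ∀ z, X z = z * dslope X 0 z := by
    intro z
    have := sub_smul_dslope X 0 z
    simp only [sub_zero, smul_eq_mul, h0] at this
    exact this.symm
  obtain ⟨v, hv, hv0, hv1⟩ := exists_log hU (fun z hz h => by
    by_cases hz0 : z = 0
    · rw [hz0, dslope_same, hδ] at h
      exact hδ0 h
    · exact hne z hz hz0 (by rw [hXU z, h, mul_zero]))
  have hv2 : ∀ z ∈ ball (0 : ℂ) r, X z = z * δ * exp (v z) := by
    intro z hz
    rw [hXU z, hv1 z hz, dslope_same, hδ, mul_assoc]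
  refine ⟨v, hv, hv0, hv2, fun z hz => Complex.borelCaratheodory_zero hA hv ?_ hr hz hv0⟩
  intro w hw
  show (v w).re ≤ A
  by_cases hw0 : w = 0
  · rw [hw0, hv0]; simpa using hA.le
  · have h1 := hM w hw
    rw [hv2 w hw, norm_mul, norm_mul, Complex.norm_exp] at h1
    have h2 : 0 < ‖w‖ * ‖δ‖ := mul_pos (norm_pos_iff.2 hw0) (norm_pos_iff.2 hδ0)
    have h3 : ‖w‖ * ‖δ‖ * Real.exp (v w).re ≤ ‖w‖ * ‖δ‖ * Real.exp A := by
      nlinarith [norm_nonneg w]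
    exact Real.exp_le_exp.1 (le_of_mul_le_mul_left h3 h2)

/-- a map of the unit disc close to a rotation and without periodic orbits other than `0` -/
structure Nice (lam : ℂ) (g : ℂ → ℂ) (η : ℝ) : Prop where
  diff : DifferentiableOn ℂ g (ball 0 1)
  zero : g 0 = 0
  der : deriv g 0 = lam
  near : ∀ z ∈ ball (0 : ℂ) 1, ‖g z - lam * z‖ ≤ η
  aper : ∀ z : ℂ, z ≠ 0 → ∀ m, 1 ≤ m → (∀ i, g^[i] z ∈ ball (0 : ℂ) 1) → g^[m] z ≠ z

/-- `ψ` conjugates `g'` to `g` and is `c`-close to the identity -/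
structure Conj (g g' ψ : ℂ → ℂ) (c : ℝ) : Prop where
  diff : DifferentiableOn ℂ ψ (ball 0 1)
  zero : ψ 0 = 0
  maps : MapsTo ψ (ball 0 1) (ball 0 1)
  ne : ∀ w ∈ ball (0 : ℂ) 1, w ≠ 0 → ψ w ≠ 0
  near : ∀ w ∈ ball (0 : ℂ) 1, ‖ψ w - w‖ ≤ c
  conj : ∀ w ∈ ball (0 : ℂ) 1, g' w ∈ ball (0 : ℂ) 1 → ψ (g' w) = g (ψ w)

lemma Conj.refl (g : ℂ → ℂ) : Conj g g id 0 :=
  ⟨differentiableOn_id, rfl, mapsTo_id _, fun _ _ h => h, fun _ _ => by simp, fun _ _ _ => rfl⟩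

lemma Conj.trans {g g' g'' ψ ψ' : ℂ → ℂ} {c c' : ℝ} (h : Conj g g' ψ c) (h' : Conj g' g'' ψ' c') :
    Conj g g'' (ψ ∘ ψ') (c + c') := by
  refine ⟨h.diff.comp h'.diff h'.maps, by simp [h.zero, h'.zero], h.maps.comp h'.maps,
    fun w hw h0 => h.ne _ (h'.maps hw) (h'.ne w hw h0), fun w hw => ?_, fun w hw h1 => ?_⟩
  · have h1 := h.near _ (h'.maps hw)
    have h2 := h'.near w hw
    have h3 : (ψ ∘ ψ') w - w = (ψ (ψ' w) - ψ' w) + (ψ' w - w) := by simp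
    rw [h3]
    exact (norm_add_le _ _).trans (add_le_add h1 h2)
  · have h2 := h'.conj w hw h1
    simp only [Function.comp_apply]
    rw [← h.conj _ (h'.maps hw) (h2 ▸ h'.maps h1), h2]

lemma Conj.mono {g g' ψ : ℂ → ℂ} {c c' : ℝ} (h : Conj g g' ψ c) (hc : c ≤ c') : Conj g g' ψ c' :=
  ⟨h.diff, h.zero, h.maps, h.ne, fun w hw => (h.near w hw).trans hc, h.conj⟩

lemma Nice.mono {lam : ℂ} {g : ℂ → ℂ} {η η' : ℝ} (h : Nice lam g η) (hc : η ≤ η') :
    Nice lam g η' :=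
  ⟨h.diff, h.zero, h.der, fun w hw => (h.near w hw).trans hc, h.aper⟩

lemma Conj.aper {lam : ℂ} {g g' ψ : ℂ → ℂ} {c η : ℝ} (h : Conj g g' ψ c) (hg : Nice lam g η) :
    ∀ z : ℂ, z ≠ 0 → ∀ m, 1 ≤ m → (∀ i, g'^[i] z ∈ ball (0 : ℂ) 1) → g'^[m] z ≠ z := by
  intro z hz m hm hi he
  have key : ∀ i, g^[i] (ψ z) = ψ (g'^[i] z) := by
    intro i
    induction i with
    | zero => rfl
    | succ i ih =>
      rw [Function.iterate_succ_apply', ih, Function.iterate_succ_apply', h.conj _ (hi i)]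
      have := hi (i + 1)
      rwa [Function.iterate_succ_apply'] at this
  refine hg.aper (ψ z) (h.ne z (hi 0) hz) m hm (fun i => ?_) (by rw [key, he])
  rw [key]
  exact h.maps (hi i)

lemma orbit_of_periodic {g : ℂ → ℂ} {z : ℂ} {q : ℕ} (hq : 1 ≤ q) (h : g^[q] z = z) {S : Set ℂ}
    (hS : ∀ i ≤ q, g^[i] z ∈ S) (i : ℕ) : g^[i] z ∈ S := by
  have hp : Function.IsPeriodicPt g q z := h
  rw [← hp.iterate_mod_apply]
  exact hS _ (Nat.mod_lt _ (by omega)).le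

/-- first half of a stage: the displacement of the `q`-th iterate is almost linear -/
lemma stage_one {lam : ℂ} {g : ℂ → ℂ} {η θ A b κ : ℝ} {q : ℕ} (hlam : ‖lam‖ = 1)
    (hg : Nice lam g η) (hq : 1 ≤ q) (hθ : 0 < θ) (hθ1 : θ ≤ 1 / 100) (hη : 0 ≤ η)
    (hqη : q * η ≤ θ / 12) (hδ : lam ^ q - 1 ≠ 0) (hA : 0 < A)
    (hAδ : 3 ≤ ‖lam ^ q - 1‖ * Real.exp A) (hb : 0 < b)
    (hdiv : ∀ k, 1 ≤ k → k < q → b ≤ ‖lam ^ k - 1‖)
    (hκ : q * ((24 * η / θ ^ 2 + 4 * A * η / θ ^ 2) / b) + 2 * A / θ * (1 - θ) ^ q / θ ≤ κ) :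
    (∀ z ∈ ball (0 : ℂ) 1, ‖g z - lam * z‖ ≤ η * ‖z‖) ∧
    (∀ z ∈ ball (0 : ℂ) (1 - θ), ‖deriv (fun w => g w - lam * w) z‖ ≤ 2 * η / θ) ∧
    (∀ z ∈ ball (0 : ℂ) (1 - 2 * θ), ‖g^[q] z‖ ≤ (1 + θ) * ‖z‖) ∧
    ∃ v : ℂ → ℂ, DifferentiableOn ℂ v (ball 0 (1 - 2 * θ)) ∧ v 0 = 0 ∧
      (∀ z ∈ ball (0 : ℂ) (1 - 2 * θ), g^[q] z - z = z * (lam ^ q - 1) * exp (v z)) ∧
      ∀ z ∈ ball (0 : ℂ) (1 - 6 * θ), ‖v z‖ ≤ κ := by
  have hq' : (1 : ℝ) ≤ q := by exact_mod_cast hq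
  have hηθ : η ≤ θ / 12 := by nlinarith
  have hE : DifferentiableOn ℂ (fun w => g w - lam * w) (ball 0 1) := hg.diff.sub (by fun_prop)
  have hE1 : ∀ z ∈ ball (0 : ℂ) 1, ‖g z - lam * z‖ ≤ η * ‖z‖ := by
    intro z hz
    have := schwarz0 hE (by simp [hg.zero]) hg.near hz
    simpa using this
  have hE2 : ∀ z ∈ ball (0 : ℂ) (1 - θ), ‖deriv (fun w => g w - lam * w) z‖ ≤ 2 * η / θ := by
    intro z hz
    rw [mem_ball_zero_iff] at hz
    exact deriv_bound hE hg.near hθ (by rw [sub_zero]; linarith)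
  have hup : ∀ z ∈ ball (0 : ℂ) 1, ‖g z‖ ≤ (1 + η) * ‖z‖ := by
    intro z hz
    have h1 := norm_le_norm_sub_add (g z) (lam * z)
    rw [norm_mul, hlam] at h1
    linarith [hE1 z hz]
  have hlow : ∀ z ∈ ball (0 : ℂ) 1, ‖z‖ / 2 ≤ ‖g z‖ := by
    intro z hz
    have h1 := norm_le_norm_sub_add (lam * z) (g z)
    rw [norm_mul, hlam, norm_sub_rev] at h1
    nlinarith [hE1 z hz, norm_nonneg z]
  have hpow : (1 + η) ^ q ≤ 1 + θ := by
    have h1 : (1 + η) ^ q ≤ Real.exp (q * η) := by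
      rw [Real.exp_nat_mul]
      exact pow_le_pow_left₀ (by linarith) (by linarith [Real.add_one_le_exp η]) q
    have h2 : Real.exp (q * η) ≤ 1 + 2 * (q * η) := by
      have h3 : |(q : ℝ) * η| ≤ 1 := by rw [abs_of_nonneg (by positivity)]; linarith
      have := Real.abs_exp_sub_one_le h3
      rw [abs_of_nonneg (by positivity : (0 : ℝ) ≤ q * η)] at this
      linarith [le_abs_self (Real.exp (q * η) - 1)]
    linarith
  have hit := iter_bound (q := q) (r := 1 - 2 * θ) hg.diff (by linarith) hup (by nlinarith)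
  have hq1 : ∀ z ∈ ball (0 : ℂ) (1 - 2 * θ), ‖g^[q] z‖ ≤ (1 + θ) * ‖z‖ := fun z hz =>
    ((hit q le_rfl).1 z hz).1.trans (mul_le_mul_of_nonneg_right hpow (norm_nonneg _))
  refine ⟨hE1, hE2, hq1, ?_⟩
  have hgd : HasDerivAt g lam 0 := hg.der ▸ (diffAt hg.diff (mem_ball_self one_pos)).hasDerivAt
  obtain ⟨v, hv, hv0, hv1, hv2⟩ := logX (X := fun z => g^[q] z - z) (δ := lam ^ q - 1)
    (r := 1 - 2 * θ) (M := 3) (A := A) (by linarith) ((hit q le_rfl).2.sub differentiableOn_id)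
    (by simp [Function.iterate_fixed hg.zero])
    ((HasDerivAt.iterate 0 hgd hg.zero q).fun_sub (hasDerivAt_id' 0)).deriv hδ
    (fun z hz hz0 h => hg.aper z hz0 q hq
      (orbit_of_periodic hq (sub_eq_zero.1 h) fun i hi => ((hit i hi).1 z hz).2) (sub_eq_zero.1 h))
    (fun z hz => by
      have h1 := norm_sub_le (g^[q] z) z
      nlinarith [hq1 z hz, norm_nonneg z]) hA hAδ
  refine ⟨v, hv, hv0, hv1, ?_⟩
  have hB : ∀ z ∈ ball (0 : ℂ) (1 - 3 * θ), ‖v z‖ ≤ 2 * A / θ := by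
    intro z hz
    have h1 := hv2 z (ball_subset_ball (by linarith) hz)
    rw [mem_ball_zero_iff] at hz
    refine h1.trans ?_
    rw [div_le_div_iff₀ (by linarith) hθ]
    have h2 : ‖z‖ * θ ≤ 1 - 2 * θ - ‖z‖ := by nlinarith
    nlinarith
  have hv3 : DifferentiableOn ℂ v (ball 0 (1 - 3 * θ)) := hv.mono (ball_subset_ball (by linarith))
  have hB' : ∀ z ∈ ball (0 : ℂ) (1 - 4 * θ), ‖deriv v z‖ ≤ 2 * (2 * A / θ) / θ := by
    intro z hz
    rw [mem_ball_zero_iff] at hz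
    exact deriv_bound hv3 hB hθ (by rw [sub_zero]; linarith)
  have hgm : ∀ s : ℝ, s ≤ 1 → ∀ z ∈ ball (0 : ℂ) s, g z ∈ ball (0 : ℂ) (s + θ) := by
    intro s hs z hz
    have h1 := hup z (ball_subset_ball hs hz)
    rw [mem_ball_zero_iff] at hz ⊢
    nlinarith [norm_nonneg z]
  have hm4 : MapsTo g (ball (0 : ℂ) (1 - 4 * θ)) (ball (0 : ℂ) (1 - 2 * θ)) := fun z hz =>
    ball_subset_ball (by linarith) (hgm _ (by linarith) z hz)
  have hD : DifferentiableOn ℂ (fun z => v (g z) - v z) (ball 0 (1 - 4 * θ)) :=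
    (hv.comp (hg.diff.mono (ball_subset_ball (by linarith))) hm4).sub
      (hv.mono (ball_subset_ball (by linarith)))
  have hJ : ∀ z ∈ ball (0 : ℂ) (1 - 4 * θ), ‖exp (v (g z) - v z) - 1‖ ≤ 6 * η / θ := by
    intro z hz
    by_cases hz0 : z = 0
    · simp only [hz0, hg.zero, sub_self, exp_zero, norm_zero]; positivity
    have hz2 : z ∈ ball (0 : ℂ) (1 - 2 * θ) := ball_subset_ball (by linarith) hz
    have hz1 : z ∈ ball (0 : ℂ) (1 - θ) := ball_subset_ball (by linarith) hz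
    have hz' : z ∈ ball (0 : ℂ) 1 := ball_subset_ball (by linarith) hz
    have hqz : g^[q] z ∈ ball (0 : ℂ) (1 - θ) := by
      have h1 := hq1 z hz2
      rw [mem_ball_zero_iff] at hz ⊢
      nlinarith
    have h1 := mvt (hE.mono (ball_subset_ball (by linarith))) hE2 hqz hz1
    have h2 := hv1 z hz2
    have h3 := hv1 _ (hm4 hz)
    rw [← Function.iterate_succ_apply, Function.iterate_succ_apply'] at h3
    have h4 : g (g^[q] z) - lam * g^[q] z - (g z - lam * z) =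
        (g^[q] z - z) / z * (g z * (exp (v (g z) - v z) - 1) + (g z - lam * z)) := by
      have e1 : g (g^[q] z) = g z + g z * (lam ^ q - 1) * exp (v (g z)) := by
        rw [← h3]; ring
      have e2 : g^[q] z = z + z * (lam ^ q - 1) * exp (v z) := by rw [← h2]; ring
      rw [e1, e2, exp_sub]
      have := exp_ne_zero (v z)
      field_simp
      ring
    rw [h4, norm_mul, norm_div] at h1
    have hXne : 0 < ‖g^[q] z - z‖ := by
      rw [h2]
      exact norm_pos_iff.2 (mul_ne_zero (mul_ne_zero hz0 hδ) (exp_ne_zero _))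
    have hzp : 0 < ‖z‖ := norm_pos_iff.2 hz0
    have h5 : ‖g z * (exp (v (g z) - v z) - 1) + (g z - lam * z)‖ ≤ 2 * η / θ * ‖z‖ := by
      rw [div_mul_eq_mul_div, div_le_iff₀ hzp] at h1
      nlinarith
    have h6 := norm_le_norm_add_norm_sub' (g z * (exp (v (g z) - v z) - 1))
      (g z * (exp (v (g z) - v z) - 1) + (g z - lam * z))
    rw [show g z * (exp (v (g z) - v z) - 1) -
      (g z * (exp (v (g z) - v z) - 1) + (g z - lam * z)) = -(g z - lam * z) by ring, norm_neg,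
      norm_mul] at h6
    have h7 := hE1 z hz'
    have h8 := hlow z hz'
    have h9 : η ≤ η / θ := by rw [le_div_iff₀ hθ]; nlinarith
    have h10 : ‖z‖ / 2 * ‖exp (v (g z) - v z) - 1‖ ≤ 3 * (η / θ) * ‖z‖ := by
      have := mul_le_mul_of_nonneg_right h8 (norm_nonneg (exp (v (g z) - v z) - 1))
      have e : 2 * η / θ = 2 * (η / θ) := by ring
      rw [e] at h5
      nlinarith
    have e : 6 * η / θ = 6 * (η / θ) := by ring
    rw [e]
    nlinarith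
  have hsm : 6 * η / θ ≤ 1 / 2 := by rw [div_le_iff₀ hθ]; linarith
  have hD' : ∀ z ∈ ball (0 : ℂ) (1 - 5 * θ), ‖deriv (fun z => v (g z) - v z) z‖ ≤
      24 * η / θ ^ 2 := by
    intro z hz
    have hz4 : z ∈ ball (0 : ℂ) (1 - 4 * θ) := ball_subset_ball (by linarith) hz
    rw [mem_ball_zero_iff] at hz
    have h1 := deriv_bound (F := fun z => exp (v (g z) - v z) - 1) (z := z)
      (hD.cexp.sub_const 1) hJ hθ (by rw [sub_zero]; linarith)
    rw [((diffAt hD hz4).hasDerivAt.cexp.sub_const 1).deriv, norm_mul] at h1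
    have h2 : 1 / 2 ≤ ‖exp (v (g z) - v z)‖ := by
      have h3 := norm_le_norm_sub_add (1 : ℂ) (exp (v (g z) - v z))
      rw [norm_sub_rev, norm_one] at h3
      linarith [hJ z hz4]
    have e : 24 * η / θ ^ 2 = 2 * (2 * (6 * η / θ) / θ) := by field_simp; ring
    rw [e]
    nlinarith [norm_nonneg (deriv (fun z => v (g z) - v z) z)]
  have hW : ∀ z ∈ ball (0 : ℂ) (1 - 5 * θ), ‖v (lam * z) - v z‖ ≤
      24 * η / θ ^ 2 + 4 * A * η / θ ^ 2 := by
    intro z hz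
    have h1 := mvt (hD.mono (ball_subset_ball (by linarith))) hD' hz (mem_ball_self (by linarith))
    simp only [hg.zero, sub_self, sub_zero] at h1
    have hz1 : ‖z‖ ≤ 1 := by rw [mem_ball_zero_iff] at hz; linarith
    have h2 := mvt (a := lam * z) (b := g z) (hv.mono (ball_subset_ball (by linarith))) hB'
      (by rw [mem_ball_zero_iff] at hz ⊢; rw [norm_mul, hlam]; linarith)
      (ball_subset_ball (by linarith) (hgm _ (by linarith) z hz))
    have h3 := hg.near z (ball_subset_ball (by linarith) hz)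
    rw [norm_sub_rev] at h3
    have h4 : 2 * (2 * A / θ) / θ * ‖lam * z - g z‖ ≤ 4 * A * η / θ ^ 2 := by
      have e : 4 * A * η / θ ^ 2 = 2 * (2 * A / θ) / θ * η := by field_simp; ring
      rw [e]
      exact mul_le_mul_of_nonneg_left h3 (by positivity)
    have h5 : 24 * η / θ ^ 2 * ‖z‖ ≤ 24 * η / θ ^ 2 :=
      mul_le_of_le_one_right (by positivity) hz1
    have h6 : v (lam * z) - v z = (v (g z) - v z) + (v (lam * z) - v (g z)) := by ring
    rw [h6]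
    linarith [norm_add_le (v (g z) - v z) (v (lam * z) - v (g z))]
  intro z hz
  rw [mem_ball_zero_iff] at hz
  refine le_trans (avg (R := 1 - 5 * θ) hlam (hv.mono (ball_subset_ball (by linarith))) hv0
    (fun w hw => hB w (ball_subset_ball (by linarith) hw)) hW hb hdiv hθ (by linarith)
    (by linarith) (by nlinarith)) hκ

end Pool.Agent.Lib.MP_27cd7e_an
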