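import Pool.Agent.Lib.MP_27cd7e_an.Stage

set_option autoImplicit false

namespace Pool.Agent.Lib.MP_27cd7e_an

open Metric Set Complex Filter Topology

lemma taylor2 {F : ℂ → ℂ} {c a b : ℂ} {R C : ℝ} (hF : DifferentiableOn ℂ F (ball c R))
    (hC : ∀ w ∈ ball c R, ‖deriv (deriv F) w‖ ≤ C) (ha : a ∈ ball c R) (hb : b ∈ ball c R) :
    ‖F b - F a - deriv F a * (b - a)‖ ≤ C * ‖b - a‖ ^ 2 := by
  have hC0 : 0 ≤ C := (norm_nonneg _).trans (hC a ha)
  have hd : ∀ w ∈ ball c R, HasDerivAt (fun t => F t - deriv F a * t) (deriv F w - deriv F a) w :=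
    fun w hw => ((diffAt hF hw).hasDerivAt.fun_sub
      ((hasDerivAt_id' w).const_mul (deriv F a))).congr_deriv (by ring)
  have h1 := ((convex_ball c R).inter (convex_closedBall a ‖b - a‖)).norm_image_sub_le_of_norm_deriv_le
    (f := fun t => F t - deriv F a * t) (C := C * ‖b - a‖) (x := a) (y := b)
    (fun w hw => (hd w hw.1).differentiableAt)
    (fun w hw => by
      rw [(hd w hw.1).deriv]
      refine (mvt (hF.deriv isOpen_ball) hC hw.1 ha).trans ?_
      have := hw.2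
      rw [mem_closedBall, dist_eq_norm] at this
      exact mul_le_mul_of_nonneg_left this hC0)
    ⟨ha, mem_closedBall_self (norm_nonneg _)⟩ ⟨hb, by rw [mem_closedBall, dist_eq_norm]⟩
  rw [show F b - deriv F a * b - (F a - deriv F a * a) = F b - F a - deriv F a * (b - a) by ring]
    at h1
  nlinarith

lemma deriv_le_of_ne {F : ℂ → ℂ} {R C : ℝ} (hF : DifferentiableOn ℂ F (ball 0 R))
    (hC : ∀ w ∈ ball (0 : ℂ) R, w ≠ 0 → ‖deriv F w‖ ≤ C) :
    ∀ w ∈ ball (0 : ℂ) R, ‖deriv F w‖ ≤ C := by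
  intro w hw
  by_cases h0 : w = 0
  · subst h0
    have h1 : ContinuousAt (deriv F) 0 := (diffAt (hF.deriv isOpen_ball) hw).continuousAt
    have h2 : Tendsto (fun w => ‖deriv F w‖) (𝓝[≠] 0) (𝓝 ‖deriv F 0‖) :=
      (h1.norm.tendsto).mono_left nhdsWithin_le_nhds
    refine le_of_tendsto h2 ?_
    filter_upwards [mem_nhdsWithin_of_mem_nhds (isOpen_ball.mem_nhds hw), self_mem_nhdsWithin]
      with y hy hy0
    exact hC y hy hy0
  · exact hC w hw h0

/-- one stage of the linearisation scheme -/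
lemma stage {lam : ℂ} {g : ℂ → ℂ} {η θ A b : ℝ} {q : ℕ} (hlam : ‖lam‖ = 1)
    (hg : Nice lam g η) (hq : 1 ≤ q) (hθ : 0 < θ) (hθ1 : θ ≤ 1 / 100) (hη : 0 ≤ η)
    (hqη : q * η ≤ θ / 12) (hδ : lam ^ q - 1 ≠ 0) (hA : 0 < A)
    (hAδ : 3 ≤ ‖lam ^ q - 1‖ * Real.exp A) (hb : 0 < b)
    (hdiv : ∀ k, 1 ≤ k → k < q → b ≤ ‖lam ^ k - 1‖)
    (hκ : q * ((24 * η / θ ^ 2 + 4 * A * η / θ ^ 2) / b) + 2 * A / θ * (1 - θ) ^ q / θ ≤ θ / 20) :
    ∃ g' ψ : ℂ → ℂ, Nice lam g' (16 * ‖lam ^ q - 1‖ * η / θ ^ 2) ∧ Conj g g' ψ (9 * θ) := by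
  obtain ⟨hE1, hE2, hq1, v, hv, hv0, hv1, hv2⟩ :=
    stage_one hlam hg hq hθ hθ1 hη hqη hδ hA hAδ hb hdiv hκ
  set δ := lam ^ q - 1 with hδdef
  have hq' : (1 : ℝ) ≤ q := by exact_mod_cast hq
  have hηθ : η ≤ θ / 12 := by nlinarith
  have hlam0 : lam ≠ 0 := by rw [← norm_pos_iff, hlam]; exact one_pos
  have h6 : 0 < 1 - 6 * θ := by linarith
  have hv6 : DifferentiableOn ℂ v (ball 0 (1 - 6 * θ)) := hv.mono (ball_subset_ball (by linarith))
  have he6 : DifferentiableOn ℂ (fun z => exp (-v z)) (ball 0 (1 - 6 * θ)) := hv6.fun_neg.cexp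
  have ha : DifferentiableOn ℂ (dslope (fun z => exp (-v z)) 0) (ball 0 (1 - 6 * θ)) :=
    (differentiableOn_dslope (ball_mem_nhds 0 h6)).2 he6
  have ha1 : ∀ z ∈ ball (0 : ℂ) (1 - 6 * θ), ‖dslope (fun z => exp (-v z)) 0 z‖ ≤ θ / 5 := by
    intro z hz
    refine (Complex.norm_dslope_le_div_of_mapsTo_ball (R₂ := θ / 10) he6 (fun w hw => ?_) hz).trans ?_
    · rw [mem_closedBall, dist_eq_norm, hv0, neg_zero, exp_zero]
      have h1 := hv2 w hw
      have h2 := Complex.norm_exp_sub_one_le (x := -v w) (by rw [norm_neg]; linarith)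
      rw [norm_neg] at h2
      linarith
    · rw [div_le_iff₀ h6]; nlinarith
  have ha2 : ∀ z, z * dslope (fun z => exp (-v z)) 0 z = exp (-v z) - 1 := by
    intro z
    have := sub_smul_dslope (fun z => exp (-v z)) 0 z
    simpa [hv0] using this
  obtain ⟨P, hP0, hP⟩ := exists_prim ha
  have hPd : DifferentiableOn ℂ P (ball 0 (1 - 6 * θ)) := fun z hz =>
    (hP z hz).differentiableAt.differentiableWithinAt
  have hP1 : ∀ z ∈ ball (0 : ℂ) (1 - 6 * θ), ‖P z‖ ≤ θ / 5 := by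
    intro z hz
    have h1 := mvt hPd (fun w hw => by rw [(hP w hw).deriv]; exact ha1 w hw) hz (mem_ball_self h6)
    rw [hP0, sub_zero, sub_zero] at h1
    rw [mem_ball_zero_iff] at hz
    nlinarith [norm_nonneg z]
  have hΦ : ∀ z ∈ ball (0 : ℂ) (1 - 6 * θ),
      HasDerivAt (fun z => z * exp (P z)) (exp (P z) * exp (-v z)) z := by
    intro z hz
    refine ((hasDerivAt_id' z).fun_mul (hP z hz).cexp).congr_deriv ?_
    linear_combination exp (P z) * ha2 z
  have hΦd : DifferentiableOn ℂ (fun z => z * exp (P z)) (ball 0 (1 - 6 * θ)) := fun z hz =>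
    (hΦ z hz).differentiableAt.differentiableWithinAt
  obtain ⟨hL, ψ, hψd, hψ⟩ := exists_inverse (c := θ / 2) (r := 1 - 7 * θ) (ρ := 1 - 8 * θ) hΦd
    (by simp) (by linarith) (by linarith)
    (fun z hz => by
      rw [(hΦ z hz).deriv, ← exp_add]
      have h1 := norm_add_le (P z) (-v z)
      rw [norm_neg] at h1
      have h2 := hP1 z hz
      have h3 := hv2 z hz
      have h4 := Complex.norm_exp_sub_one_le (x := P z + -v z) (by linarith)
      linarith)
    (by linarith) (by linarith) (by linarith) (by nlinarith)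
  have hinj : ∀ a ∈ ball (0 : ℂ) (1 - 6 * θ), ∀ b ∈ ball (0 : ℂ) (1 - 6 * θ),
      a * exp (P a) = b * exp (P b) → a = b := by
    intro a ha b hb h
    have h1 := hL a ha b hb
    simp only [h] at h1
    rw [show b * exp (P b) - a - (b * exp (P b) - b) = -(a - b) by ring, norm_neg] at h1
    have : ‖a - b‖ ≤ 0 := by nlinarith [norm_nonneg (a - b)]
    exact sub_eq_zero.1 (norm_le_zero_iff.1 this)
  have hup : ∀ z ∈ ball (0 : ℂ) 1, ‖g z‖ ≤ (1 + η) * ‖z‖ := by
    intro z hz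
    have h1 := norm_le_norm_sub_add (g z) (lam * z)
    rw [norm_mul, hlam] at h1
    linarith [hE1 z hz]
  have hm : MapsTo g (ball (0 : ℂ) (1 - 13 / 2 * θ)) (ball (0 : ℂ) (1 - 6 * θ)) := by
    intro z hz
    have h1 := hup z (ball_subset_ball (by linarith) hz)
    rw [mem_ball_zero_iff] at hz ⊢
    nlinarith [norm_nonneg z]
  have hsub : ball (0 : ℂ) (1 - 13 / 2 * θ) ⊆ ball 0 (1 - 6 * θ) := ball_subset_ball (by linarith)
  have hsub1 : ball (0 : ℂ) (1 - 13 / 2 * θ) ⊆ ball 0 1 := ball_subset_ball (by linarith)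
  have hgs : ∀ z, g z = z * dslope g 0 z := by
    intro z
    have := sub_smul_dslope g 0 z
    simp only [sub_zero, smul_eq_mul, hg.zero] at this
    exact this.symm
  set Ψ : ℂ → ℂ := fun z => dslope g 0 z / lam * exp (P (g z) - P z) with hΨ
  have hΨd : DifferentiableOn ℂ Ψ (ball 0 (1 - 13 / 2 * θ)) :=
    ((((differentiableOn_dslope (ball_mem_nhds 0 one_pos)).2 hg.diff).mono hsub1).div_const
      lam).mul ((hPd.comp (hg.diff.mono hsub1) hm).sub (hPd.mono hsub)).cexp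
  have hΨ0 : Ψ 0 = 1 := by simp [hΨ, hg.zero, hg.der, hlam0]
  have hΨ1 : ∀ z, g z * exp (P (g z)) = lam * (z * exp (P z)) * Ψ z := by
    intro z
    simp only [hΨ, exp_sub]
    have := exp_ne_zero (P z)
    have h1 := hgs z
    field_simp
    exact h1
  have hΨ2 : ∀ z ∈ ball (0 : ℂ) (1 - 13 / 2 * θ), ‖Ψ z‖ ≤ 2 := by
    intro z hz
    have h1 : ‖dslope g 0 z‖ ≤ 1 + η := by
      by_cases h0 : z = 0
      · rw [h0, dslope_same, hg.der, hlam]; linarith
      · have h2 := hup z (hsub1 hz)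
        rw [hgs z, norm_mul, mul_comm] at h2
        exact le_of_mul_le_mul_right h2 (norm_pos_iff.2 h0)
    have h2 := norm_sub_le (P (g z)) (P z)
    have h3 := hP1 _ (hm hz)
    have h4 := hP1 _ (hsub hz)
    have h5 := Complex.norm_exp_sub_one_le (x := P (g z) - P z) (by linarith)
    have h6 := norm_le_norm_sub_add (exp (P (g z) - P z)) 1
    rw [norm_one] at h6
    simp only [hΨ, norm_mul, norm_div, hlam, div_one]
    have h7 : ‖exp (P (g z) - P z)‖ ≤ 3 / 2 := by linarith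
    calc _ ≤ (1 + η) * (3 / 2) := mul_le_mul h1 h7 (norm_nonneg _) (by linarith)
      _ ≤ 2 := by linarith
  have hE : DifferentiableOn ℂ (fun w => g w - lam * w) (ball 0 1) := hg.diff.sub (by fun_prop)
  have hE3 : ∀ z ∈ ball (0 : ℂ) (1 - 2 * θ),
      ‖deriv (deriv (fun w => g w - lam * w)) z‖ ≤ 2 * (2 * η / θ) / θ := by
    intro z hz
    rw [mem_ball_zero_iff] at hz
    exact deriv_bound ((hE.deriv isOpen_ball).mono (ball_subset_ball (by linarith))) hE2 hθ
      (by rw [sub_zero]; linarith)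
  have hΨ3 : ∀ z ∈ ball (0 : ℂ) (1 - 13 / 2 * θ), ‖deriv Ψ z‖ ≤ 16 * ‖δ‖ * η / θ ^ 2 := by
    refine deriv_le_of_ne hΨd fun z hz hz0 => ?_
    have hz2 : z ∈ ball (0 : ℂ) (1 - 2 * θ) := ball_subset_ball (by linarith) hz
    have hgz2 : g z ∈ ball (0 : ℂ) (1 - 2 * θ) := ball_subset_ball (by linarith) (hm hz)
    have hqz : g^[q] z ∈ ball (0 : ℂ) (1 - 2 * θ) := by
      have h1 := hq1 z hz2
      rw [mem_ball_zero_iff] at hz ⊢
      nlinarith
    have hgd := (diffAt hg.diff (hsub1 hz)).hasDerivAt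
    have d1 := (hΦ _ (hm hz)).comp z hgd
    have d2 := ((hΦ z (hsub hz)).const_mul lam).fun_mul (diffAt hΨd hz).hasDerivAt
    have e0 : ((fun z => z * exp (P z)) ∘ g) = fun z => lam * (z * exp (P z)) * Ψ z :=
      funext hΨ1
    rw [e0] at d1
    have hd := d1.unique d2
    have x1 := hv1 z hz2
    have y1 := hv1 _ hgz2
    rw [← Function.iterate_succ_apply, Function.iterate_succ_apply'] at y1
    have t1 := taylor2 (hE.mono (ball_subset_ball (by linarith))) hE3 hz2 hqz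
    have t2 := mvt (hE.mono (ball_subset_ball (by linarith))) hE2
      (ball_subset_ball (by linarith) hqz) (ball_subset_ball (by linarith) hz2)
    rw [(hgd.fun_sub ((hasDerivAt_id' z).const_mul lam)).deriv] at t1
    generalize g^[q] z = z' at x1 y1 t1 t2
    have hx : z' - z ≠ 0 := by
      rw [x1]; exact mul_ne_zero (mul_ne_zero hz0 hδ) (exp_ne_zero _)
    have hxp : 0 < ‖z' - z‖ := norm_pos_iff.2 hx
    have hy : ‖z' - z‖ / 2 ≤ ‖g z' - g z‖ := by
      have h1 := norm_le_norm_add_norm_sub' (lam * (z' - z)) (g z' - g z)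
      rw [show lam * (z' - z) - (g z' - g z) = -(g z' - lam * z' - (g z - lam * z)) by ring,
        norm_neg, norm_mul, hlam] at h1
      have h2 : 2 * η / θ ≤ 1 / 2 := by rw [div_le_iff₀ hθ]; linarith
      nlinarith
    have key : deriv Ψ z * ((z' - z) * (g z' - g z)) =
        -(Ψ z * δ * (g z' - lam * z' - (g z - lam * z) - (deriv g z - lam * 1) * (z' - z))) := by
      have h1 := hΨ1 z
      have n1 := exp_ne_zero (P z)
      have n2 : exp (-v z) * exp (v z) = 1 := by rw [← exp_add]; simp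
      have n3 : exp (-v (g z)) * exp (v (g z)) = 1 := by rw [← exp_add]; simp
      have h2 : lam * z * exp (P z) * (deriv Ψ z * ((z' - z) * (g z' - g z)) -
          Ψ z * δ * (deriv g z * (z' - z) - (g z' - g z))) = 0 := by
        rw [x1, y1]
        linear_combination (-(z * δ * exp (v z)) * (g z * δ * exp (v (g z)))) * hd +
          (deriv g z * z * δ * δ * exp (v z) * exp (-v (g z)) * exp (v (g z))) * h1 +
          (lam * z * exp (P z) * Ψ z * δ * deriv g z * z * δ * exp (v z)) * n3 -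
          (lam * exp (P z) * Ψ z * z * δ * g z * δ * exp (v (g z))) * n2
      have h3 := (mul_eq_zero.1 h2).resolve_left (mul_ne_zero (mul_ne_zero hlam0 hz0) n1)
      linear_combination h3
    have k2 := congrArg norm key
    rw [norm_neg, norm_mul, norm_mul, norm_mul, norm_mul] at k2
    have k3 : ‖Ψ z‖ * ‖δ‖ * ‖g z' - lam * z' - (g z - lam * z) - (deriv g z - lam * 1) * (z' - z)‖
        ≤ 2 * ‖δ‖ * (2 * (2 * η / θ) / θ * ‖z' - z‖ ^ 2) :=
      mul_le_mul (mul_le_mul_of_nonneg_right (hΨ2 z hz) (norm_nonneg _)) t1 (norm_nonneg _)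
        (by positivity)
    have k4 : ‖deriv Ψ z‖ * (‖z' - z‖ * (‖z' - z‖ / 2)) ≤
        ‖deriv Ψ z‖ * (‖z' - z‖ * ‖g z' - g z‖) := by gcongr
    have e : 2 * ‖δ‖ * (2 * (2 * η / θ) / θ * ‖z' - z‖ ^ 2) =
        16 * ‖δ‖ * η / θ ^ 2 * (‖z' - z‖ * (‖z' - z‖ / 2)) := by field_simp; ring
    exact le_of_mul_le_mul_right (k4.trans (k2 ▸ e ▸ k3)) (by positivity)
  have hΨ4 : ∀ z ∈ ball (0 : ℂ) (1 - 13 / 2 * θ), ‖Ψ z - 1‖ ≤ 16 * ‖δ‖ * η / θ ^ 2 := by
    intro z hz
    have h1 := mvt hΨd hΨ3 hz (mem_ball_self (by linarith))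
    rw [hΨ0, sub_zero] at h1
    have h2 : ‖z‖ ≤ 1 := (mem_ball_zero_iff.1 (hsub1 hz)).le
    exact h1.trans (mul_le_of_le_one_right (by positivity) h2)
  have hψm : MapsTo ψ (ball (0 : ℂ) 1) (ball (0 : ℂ) (1 - 13 / 2 * θ)) := fun w hw =>
    mem_ball_zero_iff.2 ((hψ w hw).1.trans_lt (by linarith))
  have hρ : ((1 - 8 * θ : ℝ) : ℂ) ≠ 0 := by exact_mod_cast (by linarith : (1 - 8 * θ : ℝ) ≠ 0)
  have hψ0 : ψ 0 = 0 := by
    have := (hψ 0 (mem_ball_self one_pos)).2
    simpa [exp_ne_zero] using this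
  have hconj : Conj g (fun w => lam * w * Ψ (ψ w)) ψ (9 * θ) := by
    refine ⟨hψd, hψ0, fun w hw => hsub1 (hψm hw), fun w hw h0 h => ?_, fun w hw => ?_,
      fun w hw hw' => ?_⟩
    · have := (hψ w hw).2
      simp only [h, zero_mul] at this
      exact mul_ne_zero hρ h0 this.symm
    · have h1 := hL _ (hsub (hψm hw)) 0 (mem_ball_self h6)
      simp only [zero_mul, sub_zero, (hψ w hw).2] at h1
      have h2 : ψ w - w = -(((1 - 8 * θ : ℝ) : ℂ) * w - ψ w) - ((8 * θ : ℝ) : ℂ) * w := by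
        push_cast; ring
      rw [h2]
      refine (norm_sub_le _ _).trans ?_
      rw [norm_neg, norm_mul, Complex.norm_real, Real.norm_eq_abs, abs_of_pos (by linarith)]
      have h3 := (hψ w hw).1
      rw [mem_ball_zero_iff] at hw
      nlinarith [norm_nonneg (ψ w), norm_nonneg w]
    · refine hinj _ (hsub (hψm hw')) _ (hm (hψm hw)) ?_
      have h1 := (hψ _ hw').2
      have h2 := (hψ w hw).2
      rw [h1, hΨ1, h2]
      ring
  have hg'd : DifferentiableOn ℂ (fun w => Ψ (ψ w)) (ball 0 1) := hΨd.comp hψd hψm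
  refine ⟨fun w => lam * w * Ψ (ψ w), ψ,
    ⟨(by fun_prop : DifferentiableOn ℂ (fun w => lam * w) (ball 0 1)).mul hg'd,
    by simp, ?_, fun w hw => ?_, hconj.aper hg⟩, hconj⟩
  · rw [(((hasDerivAt_id' 0).const_mul lam).fun_mul
      (diffAt hg'd (mem_ball_self one_pos)).hasDerivAt).deriv]
    simp [hψ0, hΨ0]
  · rw [show lam * w * Ψ (ψ w) - lam * w = lam * w * (Ψ (ψ w) - 1) by ring, norm_mul, norm_mul,
      hlam, one_mul]
    have h1 := hΨ4 _ (hψm hw)
    rw [mem_ball_zero_iff] at hw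
    nlinarith [norm_nonneg (Ψ (ψ w) - 1), norm_nonneg w]

end Pool.Agent.Lib.MP_27cd7e_an
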